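import Pool.Agent.Helper617.EX.Lin

/-!
Compactness: initial parts of infinite states are large.
-/

namespace Pool.Agent.Helper617.EX

open Filter

/-- limits of sequences of sets -/
theorem limset (A : ℕ → ℕ → Prop) : ∃ L : ℕ → Prop, ∀ B M, ∃ N ≥ M, ∀ x ≤ B, (A N x ↔ L x) := by
  refine ⟨fun x => ∀ᶠ N in (hyperfilter ℕ : Filter ℕ), A N x, ?_⟩
  intro B M
  have h1 : ∀ᶠ N in (hyperfilter ℕ : Filter ℕ), N ≥ M :=
    (eventually_ge_atTop M).filter_mono Nat.hyperfilter_le_atTop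
  have h2 : ∀ᶠ N in (hyperfilter ℕ : Filter ℕ), ∀ x ∈ Set.Iic B,
      (A N x ↔ ∀ᶠ N in (hyperfilter ℕ : Filter ℕ), A N x) := by
    rw [eventually_all_finite (Set.finite_Iic B)]
    intro x _
    by_cases hx : ∀ᶠ N in (hyperfilter ℕ : Filter ℕ), A N x
    · filter_upwards [hx] with N hN
      exact ⟨fun _ => hx, fun _ => hN⟩
    · have := Ultrafilter.eventually_not.mpr hx
      filter_upwards [this] with N hN
      exact ⟨fun h => absurd h hN, fun h => absurd h hx⟩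
  obtain ⟨N, hN1, hN2⟩ := (h1.and h2).exists
  exact ⟨N, hN1, fun x hx => hN2 x hx⟩

/-- limits of sequences of relations -/
theorem limrel (A : ℕ → ℕ → ℕ → Prop) : ∃ L : ℕ → ℕ → Prop, ∀ B M, ∃ N ≥ M, ∀ x ≤ B, ∀ y ≤ B,
    (A N x y ↔ L x y) := by
  obtain ⟨L, hL⟩ := limset (fun N x => A N x.unpair.1 x.unpair.2)
  refine ⟨fun x y => L (Nat.pair x y), fun B M => ?_⟩
  obtain ⟨N, hN, h⟩ := hL ((Finset.range (B + 1) ×ˢ Finset.range (B + 1)).sup
    (fun p => Nat.pair p.1 p.2)) M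
  refine ⟨N, hN, fun x hx y hy => ?_⟩
  have h1 : Nat.pair x y ≤ (Finset.range (B + 1) ×ˢ Finset.range (B + 1)).sup
      (fun p => Nat.pair p.1 p.2) :=
    Finset.le_sup (f := fun p : ℕ × ℕ => Nat.pair p.1 p.2) (b := (x, y)) (by
      rw [Finset.mem_product, Finset.mem_range, Finset.mem_range]
      exact ⟨Nat.lt_succ_of_le hx, Nat.lt_succ_of_le hy⟩)
  have := h _ h1
  simpa using this

variable {col : ℕ → ℕ} {c : ℕ} {T : List ℕ} {Λ : List (Rl × ℕ)} {D : ℕ → Finset ℕ}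
  {Λs : ℕ → List (Rl × ℕ)} {P : Rl} {t : ℕ}

/-- tails -/
theorem IS.tail (h : IS col c T Λ D Λs) (m : ℕ) :
    IS col c T Λ (fun k => D (k + m)) (fun k => Λs (k + m)) := by
  refine h.subseq (fun k => k + m) (fun k => by omega) (fun k => subset_rfl)
    (fun k => L_le (Nat.le_add_right k m) (h.large (k + m))) (fun k e he => he)

/-- large sets beyond a given bound -/
theorem IS.beyond (h : IS col c T Λ D Λs) {n : ℕ} (hC : Cmp col n) (m : ℕ) :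
    ∃ N, ∃ Y ⊆ U D N, L col n (c :: T) Λ Y ∧ ∀ y ∈ Y, m < y := by
  obtain ⟨N, hN⟩ := hC _ _ _ _ _ (h.tail (m + 1))
  refine ⟨N + (m + 1), _, ?_, hN, ?_⟩
  · intro x hx
    obtain ⟨j, hj, hx⟩ := mem_U.mp hx
    exact mem_U.mpr ⟨j + (m + 1), by omega, hx⟩
  · intro x hx
    obtain ⟨j, hj, hx⟩ := mem_U.mp hx
    have := h.ge _ x hx
    omega

theorem le_sup_id {Y : Finset ℕ} {y : ℕ} (hy : y ∈ Y) : y ≤ Y.sup id := Finset.le_sup (f := id) hy

theorem cmp_M3 (h : IS col c T Λ D Λs) {n : ℕ} (hC : Cmp col n) :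
    ∃ N, M3 (L col n) c T Λ (U D N) := by
  by_contra hcon
  push Not at hcon
  unfold M3 at hcon
  push Not at hcon
  choose H hH hno using hcon
  obtain ⟨L', hL'⟩ := limset (fun N x => x ∈ H N)
  obtain ⟨x0, hx0⟩ := h.ne 0
  have hcard : ∀ N, (H N).card ≤ x0 := fun N => hH N x0 (mem_U.mpr ⟨0, Nat.zero_le _, hx0⟩)
  -- the limit set is finite
  have hfin : {x | L' x}.Finite := by
    by_contra hinf
    obtain ⟨F, hF, hFc⟩ := (show Set.Infinite {x | L' x} from hinf).exists_subset_card_eq (x0 + 1)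
    obtain ⟨N, _, hN⟩ := hL' (F.sup id) 0
    have : F ⊆ H N := fun x hx => (hN x (le_sup_id hx)).mpr (hF hx)
    have := Finset.card_le_card this
    have := hcard N
    omega
  obtain ⟨M, hM⟩ := hfin.bddAbove
  obtain ⟨N1, Y, hY, hLY, hYM⟩ := h.beyond hC M
  obtain ⟨N, hN, hw⟩ := hL' (Y.sup id) N1
  obtain ⟨x, hx, h1, h2⟩ := hno N Y (hY.trans (U_mono hN)) hLY
  by_cases hxs : x ≤ Y.sup id
  · have h3 : x ≤ M := hM ((hw x hxs).mp hx)
    obtain ⟨y, hy, hy'⟩ := h1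
    have := hYM y hy
    omega
  · obtain ⟨y, hy, hy'⟩ := h2
    have := le_sup_id hy
    omega

theorem cmp_M4 (h : IS col c T Λ D Λs) {n : ℕ} (hC : Cmp col n) :
    ∃ N, M4 (L col n) c T Λ (U D N) := by
  obtain ⟨x0, hx0⟩ := h.ne 0
  obtain ⟨N1, Y, hY, hLY, hYM⟩ := h.beyond hC (FF x0)
  exact ⟨N1, x0, mem_U.mpr ⟨0, Nat.zero_le _, hx0⟩, Y, hY, hLY, fun y hy => (hYM y hy).le⟩

theorem cmp_Mz (h : IS col c T Λ D Λs) {n : ℕ} (hC : Cmp col n) :
    ∃ N, Mz col (L col n) c T Λ (U D N) := by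
  obtain ⟨x0, hx0⟩ := h.ne 0
  obtain ⟨z, hz, hzc⟩ := h.colub x0
  obtain ⟨N1, Y, hY, hLY, hYM⟩ := h.beyond hC z
  exact ⟨N1, z, ⟨x0, mem_U.mpr ⟨0, Nat.zero_le _, hx0⟩, hz.le⟩, hzc, Y, hY, hLY, hYM⟩

/-- response to a descending set -/
theorem inf_MS (h : IS col c T Λ D Λs) (n : ℕ) {e : Rl × ℕ} (he : e ∈ Λ) (hl : e.2 ≤ T.length)
    {S : Set ℕ} (hS : Desc e.1 S) : ∃ j, ∃ Y ⊆ D j, L col n (T.drop e.2) Λ Y ∧
      ∀ x ∈ S, x ∉ Hull Y := by
  cases hs : e.2 with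
  | zero =>
    obtain ⟨m, hm⟩ := h.zero e he hs S hS
    refine ⟨max m n, D (max m n), subset_rfl, ?_, hm _ (le_max_left _ _)⟩
    rw [List.drop_zero]
    exact L_weak (L_le (le_max_right _ _) (h.large _)) (h.sub _)
  | succ s =>
    obtain ⟨q, hq, hq2⟩ := h.succ e he s hs
    obtain ⟨m, hm⟩ := hq2 S hS
    rw [hs] at hl
    obtain ⟨c1, T1, rfl⟩ : ∃ c1 T1, T = c1 :: T1 := by
      cases T with
      | nil => simp at hl
      | cons c1 T1 => exact ⟨c1, T1, rfl⟩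
    have hl' : s ≤ T1.length := by simpa using hl
    let j := m + n + 2
    obtain ⟨H, hH, h2⟩ := hm j (by omega)
    have hLj : L col (m + n + 1 + 1) (c1 :: T1) (Λs j) (D j) := h.large j
    obtain ⟨_, _, hM3, _, _, _, _⟩ := hLj
    obtain ⟨D1, hD1, hL1, hu⟩ := hM3 H hH
    have hd := h2 D1 hD1 (L_ne hL1) hu
    obtain ⟨_, _, _, _, _, hMS, _⟩ := hL1
    obtain ⟨D2, hD2, hL2, hg⟩ := hMS (q j, s) (hq j) hl' _ hd
    refine ⟨j, D2, hD2.trans hD1, ?_, ?_⟩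
    · rw [List.drop_succ_cons]
      exact L_weak (L_le (by omega) hL2) (h.sub _)
    · intro x hx hx'
      exact hg x ⟨hx, Hull.mono hD2 hx'⟩ hx'

theorem cmp_MS (h : IS col c T Λ D Λs) {n : ℕ} : ∃ N, MS (L col n) T Λ (U D N) := by
  have key : ∀ e ∈ Λ, ∃ N, e.2 ≤ T.length → ∀ S : Set ℕ, Desc e.1 S →
      ∃ Y' ⊆ U D N, L col n (T.drop e.2) Λ Y' ∧ ∀ x ∈ S, x ∉ Hull Y' := by
    intro e he
    by_cases hl : e.2 ≤ T.length
    swap
    · exact ⟨0, fun h => absurd h hl⟩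
    by_contra hcon
    push Not at hcon
    choose _ S hS hno using hcon
    obtain ⟨L', hL'⟩ := limset (fun N x => x ∈ S N)
    have hLd : Desc e.1 {x | L' x} := by
      intro x hx y hy hxy
      obtain ⟨N, _, hN⟩ := hL' y 0
      exact hS N x ((hN x hxy.le).mpr hx) y ((hN y le_rfl).mpr hy) hxy
    obtain ⟨j, Y, hY, hLY, hg⟩ := inf_MS h n he hl hLd
    obtain ⟨N, hN, hw⟩ := hL' (Y.sup id) j
    obtain ⟨x, hx, hxY⟩ := hno N Y (fun y hy => mem_U.mpr ⟨j, hN, hY hy⟩) hLY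
    have hxs : x ≤ Y.sup id := by
      obtain ⟨-, b, hb, hxb⟩ := hxY
      exact hxb.trans (le_sup_id hb)
    exact hg x ((hw x hxs).mp hx) hxY
  choose! N hN using key
  obtain ⟨M, hM⟩ : ∃ M, ∀ e ∈ Λ, N e ≤ M := by
    refine ⟨(Λ.map N).sum, fun e he => List.le_sum_of_mem (List.mem_map_of_mem he)⟩
  refine ⟨M, fun e he hl S hS => ?_⟩
  obtain ⟨Y', hY', h1⟩ := hN e he hl S hS
  exact ⟨Y', hY'.trans (U_mono (hM e he)), h1⟩

theorem cmp_MP (h : IS col c T Λ D Λs) {n : ℕ} (hC : Cmp col n) :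
    ∃ N, MP (L col n) c T Λ (U D N) := by
  have key : ∀ t, ∃ N, t ≤ T.length → ∀ P : Rl, SPO P →
      (∃ T' : List ℕ, T'.Sublist (c :: T) ∧ T'.length = t + 1 ∧ ∃ Y' ⊆ U D N, L col n T' Λ Y' ∧
        ∃ C : Set ℕ, Desc P C ∧ Btw C Y') ∨
      (∃ r : Rl, STO r ∧ ∃ Y' ⊆ U D N, L col n (c :: T) ((r, t) :: Λ) Y' ∧
        ∀ x y, (∃ b ∈ Y', x ≤ b) → (∃ b ∈ Y', y ≤ b) → P x y → r x y) := by
    intro t
    by_cases ht : t ≤ T.length
    swap
    · exact ⟨0, fun h => absurd h ht⟩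
    by_contra hcon
    push Not at hcon
    choose _ P hP hno1 hno2 using hcon
    obtain ⟨P', hP'⟩ := limrel P
    have hspo : SPO P' := by
      refine ⟨?_, ?_⟩
      · intro x hx
        obtain ⟨N, _, hN⟩ := hP' x 0
        exact (hP N).irr x ((hN x le_rfl x le_rfl).mpr hx)
      · intro x y z hxy hyz
        obtain ⟨N, _, hN⟩ := hP' (x + y + z) 0
        exact (hN x (by omega) z (by omega)).mp ((hP N).trans _ _ _
          ((hN x (by omega) y (by omega)).mpr hxy) ((hN y (by omega) z (by omega)).mpr hyz))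
    by_cases hnc : NoC col c T Λ D n P' t
    · obtain ⟨r, hr, hre, D', Λs', hIS, hsub⟩ := P_inf h hspo hC hnc ht
      obtain ⟨N1, hN1⟩ := hC _ _ _ _ _ hIS
      choose i hi using hsub
      obtain ⟨N, hN, hw⟩ := hP' ((U D' N1).sup id) ((Finset.range (N1 + 1)).sup i)
      have hsubs : U D' N1 ⊆ U D N := by
        intro x hx
        obtain ⟨k, hk, hx⟩ := mem_U.mp hx
        refine mem_U.mpr ⟨i k, ?_, hi k hx⟩
        exact (Finset.le_sup (f := i) (Finset.mem_range.mpr (Nat.lt_succ_of_le hk))).trans hN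
      obtain ⟨x, y, ⟨a, ha, hxa⟩, ⟨b, hb, hyb⟩, hxy, hno⟩ := hno2 N r hr _ hsubs hN1
      exact hno (hre x y ((hw x (hxa.trans (le_sup_id ha)) y (hyb.trans (le_sup_id hb))).mp hxy))
    · unfold NoC at hnc
      push Not at hnc
      obtain ⟨T', hT', hlen, N1, Y, hY, hLY, C, hCd, hCb⟩ := hnc
      obtain ⟨N, hN, hw⟩ := hP' (Y.sup id) N1
      refine hno1 N T' hT' hlen Y (hY.trans (U_mono hN)) hLY (C ∩ Hull Y) ?_ ?_
      · rintro x ⟨hx, hx'⟩ y ⟨hy, hy'⟩ hxy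
        obtain ⟨-, b, hb, hyb⟩ := hy'
        have h1 : y ≤ Y.sup id := hyb.trans (le_sup_id hb)
        exact (hw y h1 x (hxy.le.trans h1)).mpr (hCd x hx y hy hxy)
      · intro x hx y hy hxy
        obtain ⟨z, hz, h1, h2⟩ := hCb x hx y hy hxy
        exact ⟨z, ⟨hz, ⟨x, hx, h1⟩, y, hy, h2.le⟩, h1, h2⟩
  choose N hN using key
  refine ⟨(Finset.range (T.length + 1)).sup N, fun P hP t ht => ?_⟩
  have hle : N t ≤ (Finset.range (T.length + 1)).sup N :=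
    Finset.le_sup (f := N) (Finset.mem_range.mpr (Nat.lt_succ_of_le ht))
  rcases hN t ht P hP with ⟨T', e1, e2, Y', hY', h1⟩ | ⟨r, hr, Y', hY', h1⟩
  · exact Or.inl ⟨T', e1, e2, Y', hY'.trans (U_mono hle), h1⟩
  · exact Or.inr ⟨r, hr, Y', hY'.trans (U_mono hle), h1⟩

theorem IS.Cv (h : IS col c T Λ D Λs) (N : ℕ) : Cv col c (U D N) := by
  rintro z ⟨⟨a, ha, haz⟩, -⟩
  obtain ⟨j, hj, ha⟩ := mem_U.mp ha
  rcases Nat.eq_zero_or_pos j with rfl | hj0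
  · exact h.colle z ⟨a, ha, haz⟩
  · obtain ⟨b, hb⟩ := h.ne 0
    exact h.colle z ⟨b, hb, (h.lt hj0 hb ha).le.trans haz⟩

/-- the compactness theorem -/
theorem cmp (col : ℕ → ℕ) : ∀ n, Cmp col n := by
  intro n
  induction n with
  | zero =>
    intro c T Λ D Λs h
    refine ⟨0, ?_, h.Cv 0⟩
    obtain ⟨x, hx⟩ := h.ne 0
    exact ⟨x, mem_U.mpr ⟨0, le_rfl, hx⟩⟩
  | succ n ih =>
    intro c T Λ D Λs h
    obtain ⟨N0, h0⟩ := ih _ _ _ _ _ h
    obtain ⟨N3, h3⟩ := cmp_M3 h ih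
    obtain ⟨N4, h4⟩ := cmp_M4 h ih
    obtain ⟨Nz, hz⟩ := cmp_Mz h ih
    obtain ⟨NS, hS⟩ := cmp_MS h (n := n)
    obtain ⟨NP, hP⟩ := cmp_MP h ih
    let N := N0 + N3 + N4 + Nz + NS + NP + n
    refine ⟨N, L_mono h0 (U_mono (by omega)) (h.Cv N), ?_, h3.mono (U_mono (by omega)),
      h4.mono (U_mono (by omega)), hz.mono (U_mono (by omega)), hS.mono (U_mono (by omega)),
      hP.mono (U_mono (by omega))⟩
    refine ⟨D n, ?_, L_weak (h.large n) (h.sub n)⟩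
    intro x hx
    exact mem_U.mpr ⟨n, by omega, hx⟩

end Pool.Agent.Helper617.EX
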