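import Mathlib
import Pool.Agent.Helper617.RM.Defs
import Pool.Agent.Helper617.RM.Orders

/-!
Weak extendibility of the order type `ω*` and arithmetical comprehension in a structure for
second-order arithmetic.
-/

namespace Pool.Agent.Helper617.EX

open Pool.Agent.Helper617.RM

universe u

variable (N : L2Structure.{u})

/-- The order `R` on `X` has no infinite strictly descending sequence in the structure: no
function `f` of the structure satisfies `f (i + 1) < f i` in the sense of `R` for all `i`. -/
def NoDescSeq (X : Set N.M) (R : N.M → N.M → Prop) : Prop :=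
  ¬ ∃ f : N.M → N.M, FunIn N f ∧
    ∀ i, f i ∈ X ∧ R (f (N.add i N.one)) (f i) ∧ f (N.add i N.one) ≠ f i

/-- The statement `EXT(ω*)`: every (countable) partial order `R` on a set `X` without infinite
strictly descending sequence has a linear extension `S` on `X` without infinite strictly
descending sequence. -/
def ExtOmegaStar : Prop :=
  ∀ X ∈ N.Sets, ∀ R : N.M → N.M → Prop, RelIn N R → IsPartialOrd N X R → NoDescSeq N X R →
    ∃ S : N.M → N.M → Prop, RelIn N S ∧ IsLinearOrd N X S ∧ (∀ x y, R x y → S x y) ∧
      NoDescSeq N X S

/-- Arithmetical formulas with number and set parameters from the structure, in de Bruijn form: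
`all φ` is `∀ x, φ`, where `x` is the variable `0` of `φ` and the variable `i` of `all φ` is the
variable `i + 1` of `φ`. -/
inductive AForm (N : L2Structure.{u}) : Type u
  | eq (s t : Term N) : AForm N
  | lt (s t : Term N) : AForm N
  | mem (t : Term N) (X : N.Sets) : AForm N
  | neg (φ : AForm N) : AForm N
  | and (φ ψ : AForm N) : AForm N
  | all (φ : AForm N) : AForm N

/-- Truth of an arithmetical formula in the structure under an assignment. -/
def AForm.Holds {N : L2Structure.{u}} : AForm N → (ℕ → N.M) → Prop
  | .eq s t, v => s.val v = t.val v
  | .lt s t, v => N.lt (s.val v) (t.val v)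
  | .mem t X, v => t.val v ∈ (X : Set N.M)
  | .neg φ, v => ¬ φ.Holds v
  | .and φ ψ, v => φ.Holds v ∧ ψ.Holds v
  | .all φ, v => ∀ a, φ.Holds (cons a v)

/-- Arithmetical comprehension: every set of numbers defined by an arithmetical formula with
parameters is one of the sets of the structure. -/
def ArithComp : Prop := ∀ (φ : AForm N) (v : ℕ → N.M), {n | φ.Holds (cons n v)} ∈ N.Sets

end Pool.Agent.Helper617.EX
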