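import Pool.Agent.Helper617.EX.Comp

/-!
Existence of large finite sets for suitable colourings.
-/

namespace Pool.Agent.Helper617.EX

theorem L_congr {col col' : ℕ → ℕ} : ∀ {n : ℕ} {T : List ℕ} {Λ : List (Rl × ℕ)} {D : Finset ℕ},
    (∀ z ∈ Hull D, col z = col' z) → L col n T Λ D → L col' n T Λ D
  | n, [], _, _, _, h => (L_nil n _ _).mpr ((L_nil n _ _).mp h)
  | 0, _ :: _, _, _, hc, h => ⟨h.1, fun z hz => by rw [← hc z hz]; exact h.2 z hz⟩
  | n + 1, c :: T, Λ, D, hc, h => by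
    obtain ⟨h0, h1, h3, h4, hz, hS, hP⟩ := h
    have key : ∀ {T' : List ℕ} {Λ' : List (Rl × ℕ)}, ∀ D' ⊆ D, L col n T' Λ' D' →
        L col' n T' Λ' D' := fun D' hD' h' => L_congr (fun z hz => hc z (Hull.mono hD' hz)) h'
    refine ⟨key D subset_rfl h0, ?_, ?_, ?_, ?_, ?_, ?_⟩
    · obtain ⟨D', hD', h⟩ := h1
      exact ⟨D', hD', key D' hD' h⟩
    · intro H hH
      obtain ⟨D', hD', h, h'⟩ := h3 H hH
      exact ⟨D', hD', key D' hD' h, h'⟩
    · obtain ⟨x, hx, D', hD', h, h'⟩ := h4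
      exact ⟨x, hx, D', hD', key D' hD' h, h'⟩
    · obtain ⟨z, hza, hzc, D', hD', h, h'⟩ := hz
      obtain ⟨y, hy⟩ := L_ne h
      refine ⟨z, hza, ?_, D', hD', key D' hD' h, h'⟩
      rw [← hc z ⟨hza, y, hD' hy, (h' y hy).le⟩]
      exact hzc
    · intro e he hl S hSd
      obtain ⟨D', hD', h, h'⟩ := hS e he hl S hSd
      exact ⟨D', hD', key D' hD' h, h'⟩
    · intro P hPs t ht
      rcases hP P hPs t ht with ⟨T', e1, e2, D', hD', h, h'⟩ | ⟨r, hr, D', hD', h, h'⟩
      · exact Or.inl ⟨T', e1, e2, D', hD', key D' hD' h, h'⟩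
      · exact Or.inr ⟨r, hr, D', hD', key D' hD' h, h'⟩

/-- every order of `Λ'` agrees with an order of `Λ` on the numbers up to `M` -/
def Sim (M : ℕ) (Λ Λ' : List (Rl × ℕ)) : Prop :=
  ∀ e' ∈ Λ', ∃ e ∈ Λ, e.2 = e'.2 ∧ ∀ x ≤ M, ∀ y ≤ M, e'.1 x y → e.1 x y

theorem Sim.cons {M : ℕ} {Λ Λ' : List (Rl × ℕ)} (h : Sim M Λ Λ') (e0 : Rl × ℕ) :
    Sim M (e0 :: Λ) (e0 :: Λ') := by
  intro e' he'
  rcases List.mem_cons.mp he' with rfl | he'
  · exact ⟨e', List.mem_cons_self, rfl, fun x _ y _ h => h⟩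
  · obtain ⟨e, he, h1⟩ := h e' he'
    exact ⟨e, List.mem_cons_of_mem _ he, h1⟩

theorem L_sim {col : ℕ → ℕ} {M : ℕ} : ∀ {n : ℕ} {T : List ℕ} {Λ Λ' : List (Rl × ℕ)}
    {D : Finset ℕ}, (∀ y ∈ D, y ≤ M) → Sim M Λ Λ' → L col n T Λ D → L col n T Λ' D
  | n, [], _, _, _, _, _, h => (L_nil n _ _).mpr ((L_nil n _ _).mp h)
  | 0, _ :: _, _, _, _, _, _, h => h
  | n + 1, c :: T, Λ, Λ', D, hM, hs, h => by
    obtain ⟨h0, h1, h3, h4, hz, hS, hP⟩ := h
    have key : ∀ {T' : List ℕ}, ∀ D' ⊆ D, L col n T' Λ D' → L col n T' Λ' D' :=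
      fun D' hD' h' => L_sim (fun y hy => hM y (hD' hy)) hs h'
    refine ⟨key D subset_rfl h0, ?_, ?_, ?_, ?_, ?_, ?_⟩
    · obtain ⟨D', hD', h⟩ := h1
      exact ⟨D', hD', key D' hD' h⟩
    · intro H hH
      obtain ⟨D', hD', h, h'⟩ := h3 H hH
      exact ⟨D', hD', key D' hD' h, h'⟩
    · obtain ⟨x, hx, D', hD', h, h'⟩ := h4
      exact ⟨x, hx, D', hD', key D' hD' h, h'⟩
    · obtain ⟨z, hza, hzc, D', hD', h, h'⟩ := hz
      exact ⟨z, hza, hzc, D', hD', key D' hD' h, h'⟩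
    · intro e' he' hl S hSd
      obtain ⟨e, he, h5, h6⟩ := hs e' he'
      obtain ⟨D', hD', h, h'⟩ := hS e he (by rw [h5]; exact hl) (S ∩ {x | x ≤ M}) (by
        rintro x ⟨hx, hxM⟩ y ⟨hy, hyM⟩ hxy
        exact h6 y hyM x hxM (hSd x hx y hy hxy))
      rw [h5] at h
      refine ⟨D', hD', key D' hD' h, ?_⟩
      intro x hx hx'
      obtain ⟨-, b, hb, hxb⟩ := id hx'
      exact h' x ⟨hx, hxb.trans (hM b (hD' hb))⟩ hx'
    · intro P hPs t ht
      rcases hP P hPs t ht with ⟨T', e1, e2, D', hD', h, h'⟩ | ⟨r, hr, D', hD', h, h'⟩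
      · exact Or.inl ⟨T', e1, e2, D', hD', key D' hD' h, h'⟩
      · exact Or.inr ⟨r, hr, D', hD', L_sim (fun y hy => hM y (hD' hy)) (hs.cons _) h, h'⟩

/-- the list `h, …, 1` -/
def Tl : ℕ → List ℕ
  | 0 => []
  | h + 1 => (h + 1) :: Tl h

theorem Tl_length : ∀ h, (Tl h).length = h
  | 0 => rfl
  | h + 1 => by simp [Tl, Tl_length h]

theorem mem_Tl : ∀ {h x : ℕ}, x ∈ Tl h → 1 ≤ x ∧ x ≤ h
  | 0, x, hx => by simp [Tl] at hx
  | h + 1, x, hx => by
    rcases List.mem_cons.mp hx with rfl | hx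
    · omega
    · have := mem_Tl hx
      omega

theorem Tl_sorted : ∀ h, (Tl h).Pairwise (· > ·)
  | 0 => List.Pairwise.nil
  | h + 1 => by
    refine List.Pairwise.cons ?_ (Tl_sorted h)
    intro x hx
    have := mem_Tl hx
    omega

/-- existence of large sets for a suitable colouring -/
theorem exists_large : ∀ (h n m : ℕ), ∃ (col : ℕ → ℕ) (D : Finset ℕ),
    L col n (Tl h) [] D ∧ (∀ x ∈ D, m < x) ∧ ∀ z ∈ Hull D, col z ≤ h
  | 0 => by
    intro n m
    refine ⟨fun _ => 0, {m + 1}, (L_nil n _ _).mpr (Finset.singleton_nonempty _), ?_,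
      fun _ _ => le_rfl⟩
    intro x hx
    rw [Finset.mem_singleton.mp hx]; omega
  | h + 1 => by
    classical
    choose cc DD hD1 hD2 hD3 using exists_large h
    intro n m
    let a : ℕ → ℕ := fun j => Nat.rec (motive := fun _ => ℕ) m
      (fun j a => (DD j a).sup id + 1) j
    have ha : ∀ j, a (j + 1) = (DD j (a j)).sup id + 1 := fun j => rfl
    have ha0 : a 0 = m := rfl
    have hDj : ∀ j, ∀ x ∈ DD j (a j), a j < x ∧ x < a (j + 1) := by
      intro j x hx
      refine ⟨hD2 _ _ x hx, ?_⟩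
      rw [ha]
      exact Nat.lt_succ_of_le (Finset.le_sup (f := id) hx)
    have ha' : ∀ j, a j < a (j + 1) := by
      intro j
      obtain ⟨x, hx⟩ := L_ne (hD1 j (a j))
      have := hDj j x hx
      omega
    have hamono : StrictMono a := strictMono_nat_of_lt_succ ha'
    have hex : ∀ x, ∃ j, x ≤ a (j + 1) := fun x => ⟨x, (Nat.le_succ x).trans
      (hamono.id_le (x + 1))⟩
    let jj : ℕ → ℕ := fun x => Nat.find (hex x)
    have hjj : ∀ j x, a j < x → x ≤ a (j + 1) → jj x = j := by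
      intro j x h1 h2
      refine le_antisymm (Nat.find_min' (hex x) h2) ?_
      by_contra hcon
      push Not at hcon
      have h3 : x ≤ a (jj x + 1) := Nat.find_spec (hex x)
      have h4 : a (jj x + 1) ≤ a j := hamono.monotone hcon
      omega
    let E : ℕ → Finset ℕ := fun j => DD j (a j)
    let col : ℕ → ℕ := fun x => if x ∈ Hull (E (jj x)) then cc (jj x) (a (jj x)) x else h + 1
    have hcol : ∀ j, ∀ x ∈ Hull (E j), col x = cc j (a j) x := by
      intro j x hx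
      obtain ⟨⟨b, hb, hbx⟩, b', hb', hxb'⟩ := id hx
      have h1 := hDj j b hb
      have h2 := hDj j b' hb'
      have h3 : jj x = j := hjj j x (by omega) (by omega)
      simp only [col, h3]
      rw [if_pos hx]
    have hcolle : ∀ x, col x ≤ h + 1 := by
      intro x
      simp only [col]
      split
      · next hx => exact (hD3 (jj x) (a (jj x)) x hx).trans (Nat.le_succ h)
      · exact le_rfl
    have hIS : IS col (h + 1) (Tl h) [] E (fun _ => []) := by
      refine ⟨?_, ?_, fun z _ => hcolle z, ?_, ?_, ?_, ?_⟩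
      · intro j
        exact L_congr (fun z hz => (hcol j z hz).symm) (hD1 j (a j))
      · intro j x hx y hy
        have h1 := hDj j x hx
        have h2 := hDj (j + 1) y hy
        omega
      · intro k
        refine ⟨a (k + 1), (Nat.lt_succ_self k).trans_le (hamono.id_le (k + 1)), ?_⟩
        have h1 : jj (a (k + 1)) = k := hjj k _ (ha' k) le_rfl
        simp only [col, h1]
        rw [if_neg]
        rintro ⟨-, b, hb, hb'⟩
        have := hDj k b hb
        omega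
      · intro j e he
        simp at he
      · intro e he
        simp at he
      · intro e he
        simp at he
    obtain ⟨N, hN⟩ := cmp col n _ _ _ _ _ hIS
    refine ⟨col, U E N, hN, ?_, fun z _ => hcolle z⟩
    intro x hx
    obtain ⟨j, _, hx⟩ := mem_U.mp hx
    have h1 := hDj j x hx
    have h2 : a 0 ≤ a j := hamono.monotone (Nat.zero_le j)
    omega

end Pool.Agent.Helper617.EX
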