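import Pool.Agent.Helper617.EX.Large

/-!
The order on new points: classes of ranks, positions, and given orders on the fibres.
-/

namespace Pool.Agent.Helper617.EX

/-- the set of ranks of old points -/
def SS (e : ℕ) (ρ : ℕ → Ordinal.{0}) : Set Ordinal.{0} := ρ '' {u | u ≤ e}

/-- the rank is the rank of an old point -/
def Ty (e : ℕ) (ρ : ℕ → Ordinal.{0}) (x : ℕ) : Prop := ρ x ∈ SS e ρ

open Classical in
/-- old points placed below `x` -/
noncomputable def Ax (Q : Rl) (e : ℕ) (ρ : ℕ → Ordinal.{0}) (x : ℕ) : Finset ℕ :=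
  (Finset.range (e + 1)).filter (fun u => ρ u ≤ ρ x ∧ ¬ Q x u)

/-- position -/
noncomputable def al (Q : Rl) (e : ℕ) (ρ : ℕ → Ordinal.{0}) (x : ℕ) : ℕ :=
  2 * (Ax Q e ρ x).card + if x ≤ e then 0 else 1

/-- at most, as classes -/
def LC (e : ℕ) (ρ : ℕ → Ordinal.{0}) (x y : ℕ) : Prop := Le (SS e ρ) (ρ x) (ρ y)

/-- same fibre -/
def SF (Q : Rl) (e : ℕ) (ρ : ℕ → Ordinal.{0}) (x y : ℕ) : Prop :=
  LC e ρ x y ∧ LC e ρ y x ∧ al Q e ρ x = al Q e ρ y

/-- the new order -/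
def WW (Q : Rl) (e : ℕ) (ρ : ℕ → Ordinal.{0}) (q p : Rl) (x y : ℕ) : Prop :=
  (LC e ρ x y ∧ ¬ LC e ρ y x) ∨ (LC e ρ x y ∧ LC e ρ y x ∧
    (al Q e ρ x < al Q e ρ y ∨ (al Q e ρ x = al Q e ρ y ∧
      ((Ty e ρ x ∧ q x y) ∨ (¬ Ty e ρ x ∧ p x y)))))

variable {Q : Rl} {e : ℕ} {ρ : ℕ → Ordinal.{0}} {q p : Rl}

theorem LC.eq_of_ty {x y : ℕ} (h1 : LC e ρ x y) (h2 : LC e ρ y x) (hx : Ty e ρ x) :
    ρ x = ρ y := by
  apply le_antisymm
  · by_contra hlt
    rw [not_le] at hlt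
    exact absurd (Le.lt h1 hx hlt) (lt_irrefl _)
  · exact Le.le h2 hx

theorem LC.ty {x y : ℕ} (h1 : LC e ρ x y) (h2 : LC e ρ y x) : Ty e ρ x ↔ Ty e ρ y := by
  constructor
  · intro h
    have := h1.eq_of_ty h2 h
    unfold Ty at h ⊢
    rwa [← this]
  · intro h
    have := LC.eq_of_ty h2 h1 h
    unfold Ty at h ⊢
    rwa [← this]

theorem LC.trans {x y z : ℕ} (h1 : LC e ρ x y) (h2 : LC e ρ y z) : LC e ρ x z := Le.trans h1 h2

theorem LC.total (x y : ℕ) : LC e ρ x y ∨ LC e ρ y x := Le.total _ _ _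

theorem SF.symm {x y : ℕ} (h : SF Q e ρ x y) : SF Q e ρ y x := ⟨h.2.1, h.1, h.2.2.symm⟩

theorem SF.trans {x y z : ℕ} (h : SF Q e ρ x y) (h' : SF Q e ρ y z) : SF Q e ρ x z :=
  ⟨h.1.trans h'.1, h'.2.1.trans h.2.1, h.2.2.trans h'.2.2⟩

theorem WW.sto (hq : STO q) (hp : STO p) : STO (WW Q e ρ q p) := by
  refine ⟨⟨?_, ?_⟩, ?_⟩
  · rintro x (⟨h1, h2⟩ | ⟨h1, h2, h3 | ⟨h3, ⟨h4, h5⟩ | ⟨h4, h5⟩⟩⟩)
    · exact h2 h1
    · exact lt_irrefl _ h3
    · exact hq.irr x h5
    · exact hp.irr x h5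
  · rintro x y z (⟨a1, a2⟩ | ⟨a1, a2, a3⟩) (⟨b1, b2⟩ | ⟨b1, b2, b3⟩)
    · exact Or.inl ⟨a1.trans b1, fun h => a2 (b1.trans h)⟩
    · exact Or.inl ⟨a1.trans b1, fun h => a2 (b1.trans h)⟩
    · exact Or.inl ⟨a1.trans b1, fun h => b2 (h.trans a1)⟩
    · refine Or.inr ⟨a1.trans b1, b2.trans a2, ?_⟩
      have hty := a1.ty a2
      rcases a3 with a3 | ⟨a3, a4⟩
      · rcases b3 with b3 | ⟨b3, _⟩
        · exact Or.inl (a3.trans b3)
        · exact Or.inl (b3 ▸ a3)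
      · rcases b3 with b3 | ⟨b3, b4⟩
        · exact Or.inl (a3 ▸ b3)
        · refine Or.inr ⟨a3.trans b3, ?_⟩
          rcases a4 with ⟨a4, a5⟩ | ⟨a4, a5⟩
          · rcases b4 with ⟨_, b5⟩ | ⟨b4, _⟩
            · exact Or.inl ⟨a4, hq.trans _ _ _ a5 b5⟩
            · exact absurd (hty.mp a4) b4
          · rcases b4 with ⟨b4, _⟩ | ⟨_, b5⟩
            · exact absurd (hty.mpr b4) a4
            · exact Or.inr ⟨a4, hp.trans _ _ _ a5 b5⟩
  · intro x y hxy
    by_cases h1 : LC e ρ x y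
    · by_cases h2 : LC e ρ y x
      · have hty := h1.ty h2
        rcases lt_trichotomy (al Q e ρ x) (al Q e ρ y) with h | h | h
        · exact Or.inl (Or.inr ⟨h1, h2, Or.inl h⟩)
        · by_cases hx : Ty e ρ x
          · rcases hq.tot x y hxy with h3 | h3
            · exact Or.inl (Or.inr ⟨h1, h2, Or.inr ⟨h, Or.inl ⟨hx, h3⟩⟩⟩)
            · exact Or.inr (Or.inr ⟨h2, h1, Or.inr ⟨h.symm, Or.inl ⟨hty.mp hx, h3⟩⟩⟩)
          · rcases hp.tot x y hxy with h3 | h3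
            · exact Or.inl (Or.inr ⟨h1, h2, Or.inr ⟨h, Or.inr ⟨hx, h3⟩⟩⟩)
            · exact Or.inr (Or.inr ⟨h2, h1, Or.inr ⟨h.symm, Or.inr ⟨fun h4 => hx (hty.mpr h4), h3⟩⟩⟩)
        · exact Or.inr (Or.inr ⟨h2, h1, Or.inl h⟩)
      · exact Or.inl (Or.inl ⟨h1, h2⟩)
    · have h2 : LC e ρ y x := (LC.total x y).resolve_left h1
      exact Or.inr (Or.inl ⟨h2, h1⟩)

theorem WW.lc {x y : ℕ} (h : WW Q e ρ q p x y) : LC e ρ x y := by
  rcases h with h | h
  · exact h.1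
  · exact h.1

theorem mem_Ax {x u : ℕ} : u ∈ Ax Q e ρ x ↔ u ≤ e ∧ ρ u ≤ ρ x ∧ ¬ Q x u := by
  classical
  unfold Ax
  rw [Finset.mem_filter, Finset.mem_range, Nat.lt_succ_iff]

theorem Ax.mono (hQ : SPO Q) (hρ : ∀ x y, Q x y → ρ x ≤ ρ y) {x y : ℕ} (h : Q x y) :
    Ax Q e ρ x ⊆ Ax Q e ρ y := by
  intro u hu
  rw [mem_Ax] at hu ⊢
  exact ⟨hu.1, hu.2.1.trans (hρ _ _ h), fun h' => hu.2.2 (hQ.trans _ _ _ h h')⟩

/-- a point of the fibre of `y` not in the one of `x` -/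
theorem Ax.lt (hQ : SPO Q) (hρ : ∀ x y, Q x y → ρ x ≤ ρ y) {x y v : ℕ} (h : Q x y)
    (hv : v ≤ e) (h1 : Q x v) (h2 : RC Q v y) : (Ax Q e ρ x).card < (Ax Q e ρ y).card := by
  apply Finset.card_lt_card
  refine ⟨Ax.mono hQ hρ h, fun h3 => ?_⟩
  have h4 : v ∈ Ax Q e ρ y := by
    rw [mem_Ax]
    refine ⟨hv, ?_, ?_⟩
    · rcases h2 with rfl | h2
      · exact le_rfl
      · exact hρ _ _ h2
    · intro h5
      rcases h2 with rfl | h2
      · exact hQ.irr _ h5
      · exact hQ.asymm h2 h5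
  have h5 := h3 h4
  rw [mem_Ax] at h5
  exact h5.2.2 h1

/-- the new order extends the old one -/
theorem WW.ext {P : Rl} (hQ : SPO Q) (hρ : ∀ x y, Q x y → ρ x ≤ ρ y)
    (hPQ : ∀ x y, P x y → Q x y)
    (hstr : ∀ x y, Q x y → P x y ∨ ∃ u v, u ≤ e ∧ v ≤ e ∧ RC P x u ∧ RC Q u v ∧ RC P v y)
    {x y : ℕ} (hq : P x y → e < x → e < y → SF Q e ρ x y → Ty e ρ x → q x y)
    (hp : P x y → e < x → e < y → SF Q e ρ x y → ¬ Ty e ρ x → p x y)
    (h : Q x y) : WW Q e ρ q p x y := by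
  have h1 : LC e ρ x y := Le.of_le _ (hρ _ _ h)
  by_cases h2 : LC e ρ y x
  · refine Or.inr ⟨h1, h2, ?_⟩
    have hle := Finset.card_le_card (Ax.mono (e := e) hQ hρ h)
    by_cases hx : x ≤ e
    · by_cases hy : y ≤ e
      · left
        have := Ax.lt hQ hρ h hy h (Or.inl rfl)
        unfold al
        rw [if_pos hx, if_pos hy]
        omega
      · left
        unfold al
        rw [if_pos hx, if_neg hy]
        omega
    · by_cases hy : y ≤ e
      · left
        have := Ax.lt hQ hρ h hy h (Or.inl rfl)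
        unfold al
        rw [if_neg hx, if_pos hy]
        omega
      · by_cases heq : al Q e ρ x = al Q e ρ y
        · right
          refine ⟨heq, ?_⟩
          have hcard : (Ax Q e ρ x).card = (Ax Q e ρ y).card := by
            unfold al at heq
            rw [if_neg hx, if_neg hy] at heq
            omega
          have hP : P x y := by
            rcases hstr x y h with h3 | ⟨u, v, hu, hv, g1, g2, g3⟩
            · exact h3
            · exfalso
              have g1' : Q x u := by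
                rcases g1 with rfl | g1
                · exact absurd hu hx
                · exact hPQ _ _ g1
              have g3' : RC Q v y := by
                rcases g3 with rfl | g3
                · exact Or.inl rfl
                · exact Or.inr (hPQ _ _ g3)
              have := Ax.lt hQ hρ h hv (hQ.sr g1' g2) g3'
              omega
          by_cases ht : Ty e ρ x
          · exact Or.inl ⟨ht, hq hP (not_le.mp hx) (not_le.mp hy) ⟨h1, h2, heq⟩ ht⟩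
          · exact Or.inr ⟨ht, hp hP (not_le.mp hx) (not_le.mp hy) ⟨h1, h2, heq⟩ ht⟩
        · left
          unfold al at heq ⊢
          rw [if_neg hx, if_neg hy] at heq ⊢
          omega
  · exact Or.inl ⟨h1, h2⟩

/-- the key of a point -/
noncomputable def key (Q : Rl) (e : ℕ) (ρ : ℕ → Ordinal.{0}) (x : ℕ) :
    (Fin (e + 1) → Ordinal.{0}) × ℕ :=
  (fun u => (ρ u + 1) - ρ x, al Q e ρ x)

theorem key_eq {x y : ℕ} : key Q e ρ x = key Q e ρ y ↔ SF Q e ρ x y := by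
  unfold key SF LC Le SS
  rw [Prod.mk.injEq]
  constructor
  · rintro ⟨h1, h2⟩
    have h3 : ∀ u ≤ e, (ρ u + 1) - ρ x = (ρ u + 1) - ρ y := by
      intro u hu
      exact congrFun h1 ⟨u, Nat.lt_succ_of_le hu⟩
    refine ⟨?_, ?_, h2⟩
    · rintro σ ⟨u, hu, rfl⟩
      exact (h3 u hu).ge
    · rintro σ ⟨u, hu, rfl⟩
      exact (h3 u hu).le
  · rintro ⟨h1, h2, h3⟩
    refine ⟨?_, h3⟩
    funext u
    have hu : (u : ℕ) ≤ e := Nat.le_of_lt_succ u.2
    exact le_antisymm (h2 _ ⟨u, hu, rfl⟩) (h1 _ ⟨u, hu, rfl⟩)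

theorem key_finite (Q : Rl) (e : ℕ) (ρ : ℕ → Ordinal.{0}) :
    (Set.range (key Q e ρ)).Finite := by
  have h1 : (Set.pi Set.univ (fun u : Fin (e + 1) => Set.range (fun x : ℕ => (ρ u + 1) - ρ x))).Finite :=
    Set.Finite.pi (t := fun u : Fin (e + 1) => Set.range (fun x : ℕ => (ρ u + 1) - ρ x))
      (fun u => rem_finite (ρ u + 1) ρ)
  have h2 : (Set.Iio (2 * (e + 1) + 2) : Set ℕ).Finite := Set.finite_Iio _
  refine (h1.prod h2).subset ?_
  rintro _ ⟨x, rfl⟩
  refine ⟨?_, ?_⟩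
  · intro u _
    exact ⟨x, rfl⟩
  · show al Q e ρ x < 2 * (e + 1) + 2
    have h3 : (Ax Q e ρ x).card ≤ e + 1 := by
      classical
      unfold Ax
      exact (Finset.card_filter_le _ _).trans (by simp)
    unfold al
    split_ifs <;> omega

/-- pieces of descending sets -/
theorem pieces {e' : ℕ} {S : Set ℕ}
    (hS : ∀ x ∈ S, ∀ y ∈ S, x < y → y ≤ e' → WW Q e ρ q p y x) :
    ∃ H : Finset ℕ, H.card ≤ (Set.range (key Q e ρ)).ncard ∧
      ∀ D' : Finset ℕ, D'.Nonempty → (∀ y ∈ D', e < y ∧ y ≤ e') →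
      (∀ h ∈ H, (∀ y ∈ D', h < y) ∨ (∀ y ∈ D', y < h)) →
      ((∀ x ∈ S, x ∈ Hull D' → Ty e ρ x) ∧ Desc q (S ∩ Hull D')) ∨
      ((∀ x ∈ S, x ∈ Hull D' → ¬ Ty e ρ x) ∧ Desc p (S ∩ Hull D')) := by
  classical
  let V : Finset ((Fin (e + 1) → Ordinal.{0}) × ℕ) := (key_finite Q e ρ).toFinset
  have hV : V.card = (Set.range (key Q e ρ)).ncard :=
    (Set.ncard_eq_toFinset_card _ (key_finite Q e ρ)).symm
  refine ⟨V.image (fun v => sInf {s | s ∈ S ∧ e < s ∧ s ≤ e' ∧ key Q e ρ s = v}),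
    Finset.card_image_le.trans hV.le, ?_⟩
  intro D' hne hD' hu
  -- all points are in the same fibre
  have key1 : ∀ x ∈ S, ∀ y ∈ S, x ∈ Hull D' → y ∈ Hull D' → x < y → SF Q e ρ x y := by
    intro x hx y hy hxD hyD hxy
    obtain ⟨⟨a, ha, hax⟩, -⟩ := hxD
    obtain ⟨-, b, hb, hyb⟩ := hyD
    have hex : e < x := (hD' a ha).1.trans_le hax
    have hye : y ≤ e' := hyb.trans (hD' b hb).2
    by_contra hsf
    let A : Set ℕ := {s | s ∈ S ∧ e < s ∧ s ≤ e' ∧ key Q e ρ s = key Q e ρ y}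
    have hyA : y ∈ A := ⟨hy, hex.trans hxy, hye, rfl⟩
    have hh : sInf A ∈ A := Nat.sInf_mem ⟨y, hyA⟩
    have hhy : sInf A ≤ y := Nat.sInf_le hyA
    have hmem : sInf A ∈ V.image (fun v => sInf {s | s ∈ S ∧ e < s ∧ s ≤ e' ∧ key Q e ρ s = v}) := by
      refine Finset.mem_image.mpr ⟨key Q e ρ y, ?_, rfl⟩
      rw [Set.Finite.mem_toFinset]
      exact ⟨y, rfl⟩
    have hxh : x < sInf A := by
      by_contra hle
      rw [not_lt] at hle
      rcases lt_or_eq_of_le hle with hlt | heq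
      · have w1 := hS _ hh.1 x hx hlt (hxy.le.trans hye)
        have w2 := hS x hx y hy hxy hye
        have hk : SF Q e ρ (sInf A) y := key_eq.mp hh.2.2.2
        apply hsf
        -- `y ≤ x ≤ h = y` in the fibre order
        have l1 : LC e ρ y x := w2.lc
        have l2 : LC e ρ x y := w1.lc.trans hk.1
        have l3 : LC e ρ (sInf A) x := hk.1.trans l1
        refine ⟨l2, l1, ?_⟩
        have a1 : al Q e ρ x ≤ al Q e ρ (sInf A) := by
          rcases w1 with w1 | w1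
          · exact absurd l3 w1.2
          · rcases w1.2.2 with h | h
            · exact h.le
            · exact h.1.le
        have a2 : al Q e ρ y ≤ al Q e ρ x := by
          rcases w2 with w2 | w2
          · exact absurd l2 w2.2
          · rcases w2.2.2 with h | h
            · exact h.le
            · exact h.1.le
        have a3 := hk.2.2
        omega
      · apply hsf
        have hk : SF Q e ρ (sInf A) y := key_eq.mp hh.2.2.2
        rwa [heq] at hk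
    rcases hu _ hmem with h | h
    · have := h a ha
      omega
    · have := h b hb
      omega
  have key2 : ∀ x ∈ S, ∀ y ∈ S, x ∈ Hull D' → y ∈ Hull D' → x < y →
      (Ty e ρ y ∧ q y x) ∨ (¬ Ty e ρ y ∧ p y x) := by
    intro x hx y hy hxD hyD hxy
    have hsf := key1 x hx y hy hxD hyD hxy
    obtain ⟨-, b, hb, hyb⟩ := hyD
    have w := hS x hx y hy hxy (hyb.trans (hD' b hb).2)
    rcases w with w | w
    · exact absurd hsf.1 w.2
    · rcases w.2.2 with h | h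
      · exact absurd hsf.2.2 (by omega)
      · exact h.2
  by_cases hall : ∀ x ∈ S, x ∈ Hull D' → Ty e ρ x
  · left
    refine ⟨hall, ?_⟩
    rintro x ⟨hx, hxD⟩ y ⟨hy, hyD⟩ hxy
    rcases key2 x hx y hy hxD hyD hxy with h | h
    · exact h.2
    · exact absurd (hall y hy hyD) h.1
  · right
    push Not at hall
    obtain ⟨z, hz, hzD, hzt⟩ := hall
    have hall' : ∀ x ∈ S, x ∈ Hull D' → ¬ Ty e ρ x := by
      intro x hx hxD hxt
      rcases lt_trichotomy x z with h | h | h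
      · have hsf := key1 x hx z hz hxD hzD h
        exact hzt ((hsf.1.ty hsf.2.1).mp hxt)
      · subst h; exact hzt hxt
      · have hsf := key1 z hz x hx hzD hxD h
        exact hzt ((hsf.1.ty hsf.2.1).mpr hxt)
    refine ⟨hall', ?_⟩
    rintro x ⟨hx, hxD⟩ y ⟨hy, hyD⟩ hxy
    rcases key2 x hx y hy hxD hyD hxy with h | h
    · exact absurd h.1 (hall' y hy hyD)
    · exact h.2

end Pool.Agent.Helper617.EX
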