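import Pool.Agent.Helper617.EX.Ext

/-!
Infinite states.
-/

namespace Pool.Agent.Helper617.EX

/-- infinite states -/
structure IS (col : ℕ → ℕ) (c : ℕ) (T : List ℕ) (Λ : List (Rl × ℕ)) (D : ℕ → Finset ℕ)
    (Λs : ℕ → List (Rl × ℕ)) : Prop where
  large : ∀ j, L col j T (Λs j) (D j)
  step : ∀ j, ∀ x ∈ D j, ∀ y ∈ D (j + 1), x < y
  colle : ∀ z, (∃ a ∈ D 0, a ≤ z) → col z ≤ c
  colub : ∀ m, ∃ z, m < z ∧ col z = c
  sub : ∀ j, ∀ e ∈ Λ, e ∈ Λs j
  zero : ∀ e ∈ Λ, e.2 = 0 → ∀ S, Desc e.1 S → ∃ m, ∀ j ≥ m, ∀ x ∈ S, x ∉ Hull (D j)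
  succ : ∀ e ∈ Λ, ∀ s, e.2 = s + 1 → ∃ q : ℕ → Rl, (∀ j, (q j, s) ∈ Λs j) ∧
    ∀ S, Desc e.1 S → ∃ m, ∀ j ≥ m, ∃ H : Finset ℕ, (∀ y ∈ D j, H.card ≤ y) ∧
      ∀ D' ⊆ D j, D'.Nonempty → (∀ h ∈ H, (∀ y ∈ D', h < y) ∨ (∀ y ∈ D', y < h)) →
        Desc (q j) (S ∩ Hull D')

/-- finite unions of the blocks -/
def U (D : ℕ → Finset ℕ) (N : ℕ) : Finset ℕ := (Finset.range (N + 1)).biUnion D

theorem mem_U {D : ℕ → Finset ℕ} {N x : ℕ} : x ∈ U D N ↔ ∃ j ≤ N, x ∈ D j := by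
  unfold U
  rw [Finset.mem_biUnion]
  constructor
  · rintro ⟨j, hj, hx⟩
    exact ⟨j, Nat.le_of_lt_succ (Finset.mem_range.mp hj), hx⟩
  · rintro ⟨j, hj, hx⟩
    exact ⟨j, Finset.mem_range.mpr (Nat.lt_succ_of_le hj), hx⟩

theorem U_mono {D : ℕ → Finset ℕ} {N N' : ℕ} (h : N ≤ N') : U D N ⊆ U D N' := by
  intro x hx
  obtain ⟨j, hj, hx⟩ := mem_U.mp hx
  exact mem_U.mpr ⟨j, hj.trans h, hx⟩

variable {col : ℕ → ℕ} {c : ℕ} {T : List ℕ} {Λ : List (Rl × ℕ)} {D : ℕ → Finset ℕ}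
  {Λs : ℕ → List (Rl × ℕ)}

theorem IS.ne (h : IS col c T Λ D Λs) (j : ℕ) : (D j).Nonempty := L_ne (h.large j)

theorem IS.lt (h : IS col c T Λ D Λs) {i j : ℕ} (hij : i < j) {x y : ℕ} (hx : x ∈ D i)
    (hy : y ∈ D j) : x < y := by
  induction j, hij using Nat.le_induction generalizing y with
  | base => exact h.step i x hx y hy
  | succ j _ ih =>
    obtain ⟨z, hz⟩ := h.ne j
    exact (ih hz).trans (h.step j z hz y hy)

theorem IS.ge (h : IS col c T Λ D Λs) (j : ℕ) : ∀ x ∈ D j, j ≤ x := by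
  induction j with
  | zero => intro x _; exact Nat.zero_le x
  | succ j ih =>
    intro x hx
    obtain ⟨z, hz⟩ := h.ne j
    have := ih z hz
    have := h.step j z hz x hx
    omega

theorem IS.hull_lt (h : IS col c T Λ D Λs) {i j : ℕ} (hij : i < j) {x y : ℕ}
    (hx : x ∈ Hull (D i)) (hy : y ∈ Hull (D j)) : x < y := by
  obtain ⟨-, b, hb, hxb⟩ := hx
  obtain ⟨⟨a, ha, hay⟩, -⟩ := hy
  have := h.lt hij hb ha
  omega

/-- sub sequences of sub blocks -/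
theorem IS.subseq (h : IS col c T Λ D Λs) (f : ℕ → ℕ) (hf : ∀ k, f k < f (k + 1))
    {T' : List ℕ} {D' : ℕ → Finset ℕ} {Λs' : ℕ → List (Rl × ℕ)}
    (hD : ∀ k, D' k ⊆ D (f k)) (hL : ∀ k, L col k T' (Λs' k) (D' k))
    (hΛ : ∀ k, ∀ e ∈ Λs (f k), e ∈ Λs' k) : IS col c T' Λ D' Λs' := by
  have hfm : StrictMono f := strictMono_nat_of_lt_succ hf
  refine ⟨hL, ?_, ?_, h.colub, ?_, ?_, ?_⟩
  · intro k x hx y hy
    exact h.lt (hf k) (hD k hx) (hD (k + 1) hy)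
  · rintro z ⟨a, ha, haz⟩
    have ha' := hD 0 ha
    rcases Nat.eq_zero_or_pos (f 0) with h0 | h0
    · rw [h0] at ha'
      exact h.colle z ⟨a, ha', haz⟩
    · obtain ⟨b, hb⟩ := h.ne 0
      exact h.colle z ⟨b, hb, (h.lt h0 hb ha').le.trans haz⟩
  · intro k e he
    exact hΛ k e (h.sub _ e he)
  · intro e he he0 S hS
    obtain ⟨m, hm⟩ := h.zero e he he0 S hS
    refine ⟨m, fun j hj x hx hx' => hm (f j) (hj.trans (hfm.id_le j)) x hx (Hull.mono (hD j) hx')⟩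
  · intro e he s hs
    obtain ⟨q, hq, hq2⟩ := h.succ e he s hs
    refine ⟨fun k => q (f k), fun k => hΛ k _ (hq (f k)), ?_⟩
    intro S hS
    obtain ⟨m, hm⟩ := hq2 S hS
    refine ⟨m, fun j hj => ?_⟩
    obtain ⟨H, hH, h2⟩ := hm (f j) (hj.trans (hfm.id_le j))
    exact ⟨H, fun y hy => hH y (hD j hy), fun D'' hD'' => h2 D'' (hD''.trans (hD j))⟩

/-- good finite descending sets in the block `j` -/
def GC (col : ℕ → ℕ) (T : List ℕ) (D : ℕ → Finset ℕ) (Λs : ℕ → List (Rl × ℕ)) (P : Rl) (t j : ℕ)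
    (C : Finset ℕ) : Prop :=
  C.Nonempty ∧ (C : Set ℕ) ⊆ Hull (D j) ∧ Desc P (C : Set ℕ) ∧
  ∃ T' : List ℕ, T'.Sublist T ∧ T'.length = t ∧ ∃ Y ⊆ D j, L col (j - 2) T' (Λs j) Y ∧
    Btw (C : Set ℕ) Y

/-- pairs given by good sets in later blocks -/
def PP (col : ℕ → ℕ) (T : List ℕ) (D : ℕ → Finset ℕ) (Λs : ℕ → List (Rl × ℕ)) (P : Rl) (t : ℕ)
    (j : ℕ) : Rl := fun p q => ∃ i, j < i ∧ ∃ C : Finset ℕ, GC col T D Λs P t i C ∧ p ∈ C ∧ q ∈ C ∧
      ∀ z ∈ C, p ≤ z ∧ z ≤ q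

theorem PP.rc {P : Rl} {t j p q : ℕ} (h : PP col T D Λs P t j p q) : RC P q p := by
  obtain ⟨i, _, C, hC, hp, hq, hz⟩ := h
  rcases Nat.eq_or_lt_of_le (hz q hq).1 with h1 | h1
  · exact Or.inl h1.symm
  · exact Or.inr (hC.2.2.1 p hp q hq h1)

/-- no good response by a descending set -/
def NoC (col : ℕ → ℕ) (c : ℕ) (T : List ℕ) (Λ : List (Rl × ℕ)) (D : ℕ → Finset ℕ) (n0 : ℕ)
    (P : Rl) (t : ℕ) : Prop :=
  ∀ T' : List ℕ, T'.Sublist (c :: T) → T'.length = t + 1 → ∀ N, ∀ Y ⊆ U D N,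
    L col n0 T' Λ Y → ∀ C : Set ℕ, Desc P C → ¬ Btw C Y

/-- the statement for `n0` moves -/
def Cmp (col : ℕ → ℕ) (n0 : ℕ) : Prop := ∀ (c : ℕ) (T : List ℕ) (Λ : List (Rl × ℕ))
  (D : ℕ → Finset ℕ) (Λs : ℕ → List (Rl × ℕ)), IS col c T Λ D Λs → ∃ N, L col n0 (c :: T) Λ (U D N)

/-- there is no infinite chain of good sets -/
theorem no_chain (h : IS col c T Λ D Λs) {P : Rl} (hP : SPO P) {n0 t : ℕ} (hC : Cmp col n0)
    (hno : NoC col c T Λ D n0 P t) (i : ℕ → ℕ) (C : ℕ → Finset ℕ)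
    (hG : ∀ n, GC col T D Λs P t (i n) (C n))
    (hlt : ∀ n m, n < m → ∀ z ∈ C n, ∀ w ∈ C m, P w z) : False := by
  classical
  -- every block is used finitely often
  have hfin : ∀ B N, ∃ n > N, B < i n := by
    intro B N
    by_contra hcon
    push Not at hcon
    -- the points chosen in the `C n`, `n > N`, are bounded
    have hbd : ∃ M, ∀ n > N, ∀ z ∈ C n, z ≤ M := by
      refine ⟨(U D B).sup id, fun n hn z hz => ?_⟩
      obtain ⟨-, b, hb, hzb⟩ := (hG n).2.1 hz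
      exact hzb.trans (Finset.le_sup (f := id) (mem_U.mpr ⟨i n, hcon n hn, hb⟩))
    obtain ⟨M, hM⟩ := hbd
    choose z hz using fun n => (hG n).1
    have hinj : Function.Injective (fun k => z (N + 1 + k)) := by
      intro a b hab
      simp only at hab
      rcases lt_trichotomy a b with h1 | h1 | h1
      · exfalso
        have := hlt _ _ (show N + 1 + a < N + 1 + b by omega) _ (hz _) _ (hz _)
        rw [hab] at this
        exact hP.irr _ this
      · exact h1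
      · exfalso
        have := hlt _ _ (show N + 1 + b < N + 1 + a by omega) _ (hz _) _ (hz _)
        rw [hab] at this
        exact hP.irr _ this
    have hf : (Set.range (fun k => z (N + 1 + k))).Finite := by
      refine (Set.finite_Iic M).subset ?_
      rintro _ ⟨k, rfl⟩
      exact hM _ (by omega) _ (hz _)
    exact Set.infinite_range_of_injective hinj hf
  choose T' hT1 hT2 Y hY hL hB using fun n => (hG n).2.2.2
  -- one type works
  obtain ⟨Ts, hTs⟩ : ∃ Ts : List ℕ, ∀ B N, ∃ n > N, B < i n ∧ T' n = Ts := by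
    by_contra hcon
    push Not at hcon
    choose B N hBN using hcon
    let F : Finset (List ℕ) := T.sublists.toFinset
    obtain ⟨n, hn, hin⟩ := hfin (F.sup B) (F.sup N)
    have hmem : T' n ∈ F := by
      rw [List.mem_toFinset, List.mem_sublists]
      exact hT1 n
    exact hBN (T' n) n (lt_of_le_of_lt (Finset.le_sup hmem) hn)
      (lt_of_le_of_lt (Finset.le_sup hmem) hin) rfl
  choose g hg1 hg2 hg3 using hTs
  let σ : ℕ → ℕ := fun k => Nat.rec (g 2 0) (fun _ p => g (i p + 1) p) k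
  have hσ : ∀ k, σ (k + 1) = g (i (σ k) + 1) (σ k) := fun _ => rfl
  have hσT : ∀ k, T' (σ k) = Ts := by
    intro k
    cases k with
    | zero => exact hg3 _ _
    | succ k => rw [hσ]; exact hg3 _ _
  have hσlt : ∀ k, σ k < σ (k + 1) := fun k => by rw [hσ]; exact hg1 _ _
  have hσi : ∀ k, i (σ k) + 1 < i (σ (k + 1)) := fun k => by
    conv_rhs => rw [hσ]
    exact hg2 _ _
  have hσm : StrictMono σ := strictMono_nat_of_lt_succ hσlt
  have hσim : StrictMono (fun k => i (σ k)) :=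
    strictMono_nat_of_lt_succ (fun k => by have := hσi k; omega)
  have hσk : ∀ k, k + 3 ≤ i (σ k) := by
    intro k
    induction k with
    | zero =>
      have : 2 < i (g 2 0) := hg2 2 0
      show 0 + 3 ≤ i (g 2 0)
      omega
    | succ k ih => have := hσi k; omega
  -- the new state
  have hIS : IS col c Ts Λ (fun k => Y (σ (2 * k))) (fun k => Λs (i (σ (2 * k)))) := by
    refine h.subseq (fun k => i (σ (2 * k)))
      (fun k => hσim (show 2 * k < 2 * (k + 1) by omega)) (fun k => hY _) ?_ (fun k e he => he)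
    intro k
    have h1 := hL (σ (2 * k))
    rw [hσT] at h1
    have h2 := hσk (2 * k)
    exact L_le (by omega) h1
  obtain ⟨N, hN⟩ := hC c Ts Λ _ _ hIS
  refine hno (c :: Ts) ?_ ?_ (i (σ (2 * N))) (U (fun k => Y (σ (2 * k))) N) ?_ hN
    {z | ∃ k, z ∈ C (σ k)} ?_ ?_
  · have h1 := hT1 (σ 0)
    rw [hσT] at h1
    exact h1.cons_cons c
  · have h1 := hT2 (σ 0)
    rw [hσT] at h1
    simp [h1]
  · intro x hx
    obtain ⟨k, hk, hx⟩ := mem_U.mp hx
    refine mem_U.mpr ⟨i (σ (2 * k)), ?_, hY _ hx⟩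
    exact hσim.monotone (by omega)
  · rintro x ⟨k, hk⟩ y ⟨l, hl⟩ hxy
    rcases lt_trichotomy k l with h1 | h1 | h1
    · exact hlt _ _ (hσm h1) x hk y hl
    · subst h1
      exact (hG _).2.2.1 x hk y hl hxy
    · exfalso
      have := h.hull_lt (hσim h1) ((hG _).2.1 hl) ((hG _).2.1 hk)
      omega
  · intro x hx y hy hxy
    obtain ⟨k, hk, hx⟩ := mem_U.mp hx
    obtain ⟨l, hl, hy⟩ := mem_U.mp hy
    rcases lt_trichotomy k l with h1 | h1 | h1
    · obtain ⟨z, hz⟩ := (hG (σ (2 * k + 1))).1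
      have hz' := (hG _).2.1 hz
      refine ⟨z, ⟨2 * k + 1, hz⟩, ?_, ?_⟩
      · exact (h.hull_lt (hσim (show 2 * k < 2 * k + 1 by omega)) (Hull.self (hY _ hx)) hz').le
      · exact h.hull_lt (hσim (show 2 * k + 1 < 2 * l by omega)) hz' (Hull.self (hY _ hy))
    · subst h1
      obtain ⟨z, hz, h2⟩ := hB _ x hx y hy hxy
      exact ⟨z, ⟨2 * k, hz⟩, h2⟩
    · exfalso
      have := h.lt (hσim (show 2 * l < 2 * k by omega)) (hY _ hy) (hY _ hx)
      omega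

/-- the first rank function -/
theorem exists_rank (h : IS col c T Λ D Λs) {P : Rl} (hP : SPO P) {n0 t : ℕ} (hC : Cmp col n0)
    (hno : NoC col c T Λ D n0 P t) : ∃ ρ : ℕ → Ordinal.{0}, SR P (PP col T D Λs P t 0) ρ := by
  classical
  let W : ℕ → ℕ → Prop := fun y x => ∃ p q, PP col T D Λs P t 0 p q ∧ P p x ∧ RC P y q
  have hwf : WellFounded W := by
    rw [wellFounded_iff_isEmpty_descending_chain]
    refine ⟨fun ⟨F, hF⟩ => ?_⟩
    choose p q hpq h1 h2 using hF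
    choose i hi C hGC hp hq hz using hpq
    have hxx : ∀ n m, n ≤ m → RC P (F m) (F n) := by
      intro n m hnm
      induction m, hnm using Nat.le_induction with
      | base => exact Or.inl rfl
      | succ m _ ih =>
        have h3 : RC P (q m) (p m) := PP.rc ⟨i m, hi m, C m, hGC m, hp m, hq m, hz m⟩
        exact hP.rr (hP.rr (h2 m) (hP.rr h3 (Or.inr (h1 m)))) ih
    refine no_chain h hP hC hno i C hGC ?_
    intro n m hnm z hzn w hwm
    have e1 : RC P w (p m) := by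
      rcases Nat.eq_or_lt_of_le (hz m w hwm).1 with e | e
      · exact Or.inl e.symm
      · exact Or.inr ((hGC m).2.2.1 _ (hp m) _ hwm e)
    have e2 : RC P (q n) z := by
      rcases Nat.eq_or_lt_of_le (hz n z hzn).2 with e | e
      · exact Or.inl e.symm
      · exact Or.inr ((hGC n).2.2.1 _ hzn _ (hq n) e)
    exact hP.sr (hP.rs e1 (hP.sr (h1 m) (hxx (n + 1) m hnm))) (hP.rr (h2 n) e2)
  have : IsWellFounded ℕ W := ⟨hwf⟩
  refine ⟨fun x => IsWellFounded.rank W x, ⟨?_, ?_⟩⟩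
  · intro x y hxy
    rw [IsWellFounded.rank_eq W x]
    refine Ordinal.iSup_le ?_
    rintro ⟨z, p, q, e1, e2, e3⟩
    exact Order.succ_le_of_lt
      (IsWellFounded.rank_lt_of_rel (r := W) ⟨p, q, e1, hP.trans _ _ _ e2 hxy, e3⟩)
  · intro x y p q e1 e2 e3
    exact IsWellFounded.rank_lt_of_rel (r := W) ⟨p, q, e1, e2, e3⟩

end Pool.Agent.Helper617.EX
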