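import Pool.Agent.Helper617.EX.Ord

/-!
Large finite sets for lists of colours and lists of labelled linear orders.
-/

namespace Pool.Agent.Helper617.EX

/-- relations -/
abbrev Rl := ℕ → ℕ → Prop

/-- strict total orders -/
structure STO (r : Rl) : Prop extends SPO r where
  tot : ∀ x y, x ≠ y → r x y ∨ r y x

/-- `S` is descending -/
def Desc (r : Rl) (S : Set ℕ) : Prop := ∀ x ∈ S, ∀ y ∈ S, x < y → r y x

/-- between two points of `D` there is a point of `C` -/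
def Btw (C : Set ℕ) (D : Finset ℕ) : Prop := ∀ x ∈ D, ∀ y ∈ D, x < y → ∃ z ∈ C, x ≤ z ∧ z < y

/-- the hull of a finite set -/
def Hull (D : Finset ℕ) : Set ℕ := {z | (∃ a ∈ D, a ≤ z) ∧ ∃ b ∈ D, z ≤ b}

/-- all points of the hull have colours at most `c` -/
def Cv (col : ℕ → ℕ) (c : ℕ) (D : Finset ℕ) : Prop := ∀ z ∈ Hull D, col z ≤ c

/-- the growth function -/
def FF (x : ℕ) : ℕ := x ^ 2 + 2 * x + 2

theorem Desc.mono {r : Rl} {S S' : Set ℕ} (h : Desc r S) (hs : S' ⊆ S) : Desc r S' :=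
  fun x hx y hy hxy => h x (hs hx) y (hs hy) hxy

theorem Btw.mono {C C' : Set ℕ} {D D' : Finset ℕ} (h : Btw C D) (hs : C ⊆ C') (hd : D' ⊆ D) :
    Btw C' D' := by
  intro x hx y hy hxy
  obtain ⟨z, hz, h1⟩ := h x (hd hx) y (hd hy) hxy
  exact ⟨z, hs hz, h1⟩

theorem Hull.mono {D D' : Finset ℕ} (h : D' ⊆ D) : Hull D' ⊆ Hull D := by
  rintro z ⟨⟨a, ha, haz⟩, b, hb, hzb⟩
  exact ⟨⟨a, h ha, haz⟩, b, h hb, hzb⟩

theorem Hull.self {D : Finset ℕ} {x : ℕ} (h : x ∈ D) : x ∈ Hull D := ⟨⟨x, h, le_rfl⟩, x, h, le_rfl⟩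

theorem Cv.mono {col : ℕ → ℕ} {c : ℕ} {D D' : Finset ℕ} (h : Cv col c D) (hs : D' ⊆ D) :
    Cv col c D' := fun z hz => h z (Hull.mono hs hz)

section moves
variable (col : ℕ → ℕ) (G : List ℕ → List (Rl × ℕ) → Finset ℕ → Prop) (c : ℕ) (T : List ℕ)
  (Λ : List (Rl × ℕ)) (Y : Finset ℕ)

def M1 : Prop := ∃ Y' ⊆ Y, G T Λ Y'

def M3 : Prop := ∀ H : Finset ℕ, (∀ y ∈ Y, H.card ≤ y) →
  ∃ Y' ⊆ Y, G (c :: T) Λ Y' ∧ ∀ h ∈ H, (∀ y ∈ Y', h < y) ∨ (∀ y ∈ Y', y < h)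

def M4 : Prop := ∃ x ∈ Y, ∃ Y' ⊆ Y, G (c :: T) Λ Y' ∧ ∀ y ∈ Y', FF x ≤ y

def Mz : Prop := ∃ z, (∃ a ∈ Y, a ≤ z) ∧ col z = c ∧
  ∃ Y' ⊆ Y, G (c :: T) Λ Y' ∧ ∀ y ∈ Y', z < y

def MS : Prop := ∀ e ∈ Λ, e.2 ≤ T.length → ∀ S : Set ℕ, Desc e.1 S →
  ∃ Y' ⊆ Y, G (T.drop e.2) Λ Y' ∧ ∀ x ∈ S, x ∉ Hull Y'

def MP : Prop := ∀ P : Rl, SPO P → ∀ t ≤ T.length,
  (∃ T' : List ℕ, T'.Sublist (c :: T) ∧ T'.length = t + 1 ∧ ∃ Y' ⊆ Y, G T' Λ Y' ∧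
    ∃ C : Set ℕ, Desc P C ∧ Btw C Y') ∨
  (∃ r : Rl, STO r ∧ ∃ Y' ⊆ Y, G (c :: T) ((r, t) :: Λ) Y' ∧
    ∀ x y, (∃ b ∈ Y', x ≤ b) → (∃ b ∈ Y', y ≤ b) → P x y → r x y)

end moves

/-- large finite sets -/
def L (col : ℕ → ℕ) : ℕ → List ℕ → List (Rl × ℕ) → Finset ℕ → Prop
  | 0, [], _, D => D.Nonempty
  | 0, c :: _, _, D => D.Nonempty ∧ Cv col c D
  | _ + 1, [], _, D => D.Nonempty
  | n + 1, c :: T, Λ, D => L col n (c :: T) Λ D ∧ M1 (L col n) T Λ D ∧ M3 (L col n) c T Λ D ∧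
      M4 (L col n) c T Λ D ∧ Mz col (L col n) c T Λ D ∧ MS (L col n) T Λ D ∧ MP (L col n) c T Λ D

variable {col : ℕ → ℕ}

theorem L_nil (n : ℕ) (Λ : List (Rl × ℕ)) (D : Finset ℕ) : L col n [] Λ D ↔ D.Nonempty := by
  cases n <;> exact Iff.rfl

theorem L_anti : ∀ {n : ℕ} {T : List ℕ} {Λ : List (Rl × ℕ)} {D : Finset ℕ},
    L col (n + 1) T Λ D → L col n T Λ D
  | n, [], Λ, D, h => (L_nil n Λ D).mpr ((L_nil (n + 1) Λ D).mp h)
  | _, _ :: _, _, _, h => h.1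

theorem L_le {n n' : ℕ} (hn : n ≤ n') {T : List ℕ} {Λ : List (Rl × ℕ)} {D : Finset ℕ}
    (h : L col n' T Λ D) : L col n T Λ D := by
  induction n', hn using Nat.le_induction with
  | base => exact h
  | succ k _ ih => exact ih (L_anti h)

theorem L_ne : ∀ {n : ℕ} {T : List ℕ} {Λ : List (Rl × ℕ)} {D : Finset ℕ},
    L col n T Λ D → D.Nonempty
  | 0, [], _, _, h => h
  | 0, _ :: _, _, _, h => h.1
  | _ + 1, [], _, _, h => h
  | _ + 1, _ :: _, _, _, h => L_ne h.1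

theorem L_Cv : ∀ {n : ℕ} {c : ℕ} {T : List ℕ} {Λ : List (Rl × ℕ)} {D : Finset ℕ},
    L col n (c :: T) Λ D → Cv col c D
  | 0, _, _, _, _, h => h.2
  | _ + 1, _, _, _, _, h => L_Cv h.1

theorem M1.mono {G : List ℕ → List (Rl × ℕ) → Finset ℕ → Prop} {T : List ℕ}
    {Λ : List (Rl × ℕ)} {Y Y' : Finset ℕ} (h : M1 G T Λ Y) (hs : Y ⊆ Y') : M1 G T Λ Y' := by
  obtain ⟨D, hD, h⟩ := h
  exact ⟨D, hD.trans hs, h⟩

theorem M3.mono {G : List ℕ → List (Rl × ℕ) → Finset ℕ → Prop} {c : ℕ} {T : List ℕ}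
    {Λ : List (Rl × ℕ)} {Y Y' : Finset ℕ} (h : M3 G c T Λ Y) (hs : Y ⊆ Y') : M3 G c T Λ Y' := by
  intro H hH
  obtain ⟨D, hD, h⟩ := h H (fun y hy => hH y (hs hy))
  exact ⟨D, hD.trans hs, h⟩

theorem M4.mono {G : List ℕ → List (Rl × ℕ) → Finset ℕ → Prop} {c : ℕ} {T : List ℕ}
    {Λ : List (Rl × ℕ)} {Y Y' : Finset ℕ} (h : M4 G c T Λ Y) (hs : Y ⊆ Y') : M4 G c T Λ Y' := by
  obtain ⟨x, hx, D, hD, h⟩ := h
  exact ⟨x, hs hx, D, hD.trans hs, h⟩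

theorem Mz.mono {G : List ℕ → List (Rl × ℕ) → Finset ℕ → Prop} {c : ℕ} {T : List ℕ}
    {Λ : List (Rl × ℕ)} {Y Y' : Finset ℕ} (h : Mz col G c T Λ Y) (hs : Y ⊆ Y') :
    Mz col G c T Λ Y' := by
  obtain ⟨z, ⟨a, ha, haz⟩, hz, D, hD, h⟩ := h
  exact ⟨z, ⟨a, hs ha, haz⟩, hz, D, hD.trans hs, h⟩

theorem MS.mono {G : List ℕ → List (Rl × ℕ) → Finset ℕ → Prop} {T : List ℕ}
    {Λ : List (Rl × ℕ)} {Y Y' : Finset ℕ} (h : MS G T Λ Y) (hs : Y ⊆ Y') : MS G T Λ Y' := by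
  intro e he hl S hS
  obtain ⟨D, hD, h⟩ := h e he hl S hS
  exact ⟨D, hD.trans hs, h⟩

theorem MP.mono {G : List ℕ → List (Rl × ℕ) → Finset ℕ → Prop} {c : ℕ} {T : List ℕ}
    {Λ : List (Rl × ℕ)} {Y Y' : Finset ℕ} (h : MP G c T Λ Y) (hs : Y ⊆ Y') : MP G c T Λ Y' := by
  intro P hP t ht
  rcases h P hP t ht with ⟨T', h1, h2, D, hD, h⟩ | ⟨r, hr, D, hD, h⟩
  · exact Or.inl ⟨T', h1, h2, D, hD.trans hs, h⟩
  · exact Or.inr ⟨r, hr, D, hD.trans hs, h⟩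

theorem L_mono : ∀ {n : ℕ} {c : ℕ} {T : List ℕ} {Λ : List (Rl × ℕ)} {D D' : Finset ℕ},
    L col n (c :: T) Λ D → D ⊆ D' → Cv col c D' → L col n (c :: T) Λ D'
  | 0, _, _, _, _, _, h, hs, hC => ⟨h.1.mono hs, hC⟩
  | n + 1, _, _, _, _, _, h, hs, hC => by
    obtain ⟨h0, h1, h3, h4, hz, hS, hP⟩ := h
    exact ⟨L_mono h0 hs hC, h1.mono hs, h3.mono hs, h4.mono hs, hz.mono hs, hS.mono hs,
      hP.mono hs⟩

/-- fewer orders -/
theorem L_weak : ∀ {n : ℕ} {T : List ℕ} {Λ Λ' : List (Rl × ℕ)} {D : Finset ℕ},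
    L col n T Λ D → (∀ e ∈ Λ', e ∈ Λ) → L col n T Λ' D
  | n, [], _, _, _, h, _ => (L_nil n _ _).mpr ((L_nil n _ _).mp h)
  | 0, _ :: _, _, _, _, h, _ => h
  | n + 1, c :: T, Λ, Λ', D, h, hΛ => by
    obtain ⟨h0, h1, h3, h4, hz, hS, hP⟩ := h
    refine ⟨L_weak h0 hΛ, ?_, ?_, ?_, ?_, ?_, ?_⟩
    · obtain ⟨D', hD', h⟩ := h1
      exact ⟨D', hD', L_weak h hΛ⟩
    · intro H hH
      obtain ⟨D', hD', h, h'⟩ := h3 H hH
      exact ⟨D', hD', L_weak h hΛ, h'⟩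
    · obtain ⟨x, hx, D', hD', h, h'⟩ := h4
      exact ⟨x, hx, D', hD', L_weak h hΛ, h'⟩
    · obtain ⟨z, hz, hc, D', hD', h, h'⟩ := hz
      exact ⟨z, hz, hc, D', hD', L_weak h hΛ, h'⟩
    · intro e he hl S hSd
      obtain ⟨D', hD', h, h'⟩ := hS e (hΛ e he) hl S hSd
      exact ⟨D', hD', L_weak h hΛ, h'⟩
    · intro P hPs t ht
      rcases hP P hPs t ht with ⟨T', e1, e2, D', hD', h, h'⟩ | ⟨r, hr, D', hD', h, h'⟩
      · exact Or.inl ⟨T', e1, e2, D', hD', L_weak h hΛ, h'⟩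
      · refine Or.inr ⟨r, hr, D', hD', L_weak h ?_, h'⟩
        intro e he
        rcases List.mem_cons.mp he with rfl | he
        · exact List.mem_cons_self
        · exact List.mem_cons_of_mem _ (hΛ e he)

/-- each order of `Λ'` is reducible to the orders of `Λ` -/
def Rf (m h : ℕ) (Λ Λ' : List (Rl × ℕ)) (D : Finset ℕ) : Prop :=
  ∀ e' ∈ Λ', h ≤ e'.2 ∨ ∀ S : Set ℕ, Desc e'.1 S → ∃ H : Finset ℕ, H.card ≤ m ∧
    ∀ D' ⊆ D, D'.Nonempty → (∀ h ∈ H, (∀ y ∈ D', h < y) ∨ (∀ y ∈ D', y < h)) →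
      ∃ e ∈ Λ, (e.2 = e'.2 ∨ e.2 + 1 = e'.2) ∧ Desc e.1 (S ∩ Hull D')

theorem Rf.mono {m h : ℕ} {Λ Λ' : List (Rl × ℕ)} {D D1 : Finset ℕ} (hr : Rf m h Λ Λ' D)
    (hs : D1 ⊆ D) : Rf m h Λ Λ' D1 := by
  intro e' he'
  rcases hr e' he' with h1 | h1
  · exact Or.inl h1
  · right
    intro S hS
    obtain ⟨H, hH, h2⟩ := h1 S hS
    exact ⟨H, hH, fun D' hD' => h2 D' (hD'.trans hs)⟩

theorem Rf.cons {m h : ℕ} {Λ Λ' : List (Rl × ℕ)} {D : Finset ℕ} (hr : Rf m h Λ Λ' D)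
    (e0 : Rl × ℕ) : Rf m h (e0 :: Λ) (e0 :: Λ') D := by
  intro e' he'
  rcases List.mem_cons.mp he' with rfl | he'
  · right
    intro S hS
    exact ⟨∅, by simp, fun D' _ _ _ => ⟨e', List.mem_cons_self, Or.inl rfl,
      hS.mono Set.inter_subset_left⟩⟩
  · rcases hr e' he' with h1 | h1
    · exact Or.inl h1
    · right
      intro S hS
      obtain ⟨H, hH, h2⟩ := h1 S hS
      refine ⟨H, hH, fun D' hD' hne hu => ?_⟩
      obtain ⟨e, he, h3⟩ := h2 D' hD' hne hu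
      exact ⟨e, List.mem_cons_of_mem _ he, h3⟩

/-- reduction of orders -/
theorem L_ref : ∀ {n : ℕ} {T : List ℕ} {Λ Λ' : List (Rl × ℕ)} {D : Finset ℕ} {m h : ℕ},
    L col (3 * n) T Λ D → T.length ≤ h → (∀ y ∈ D, m ≤ y) → Rf m h Λ Λ' D → L col n T Λ' D
  | n, [], _, _, _, _, _, hL, _, _, _ => (L_nil n _ _).mpr ((L_nil (3 * n) _ _).mp hL)
  | 0, _ :: _, _, _, _, _, _, hL, _, _, _ => hL
  | n + 1, c :: T, Λ, Λ', D, m, h, hL, hh, hm, hR => by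
    have hL' : L col (3 * n + 2 + 1) (c :: T) Λ D := hL
    obtain ⟨h0, h1, h3, h4, hz, hS, hP⟩ := hL'
    refine ⟨L_ref (L_le (by omega) h0) hh hm hR, ?_, ?_, ?_, ?_, ?_, ?_⟩
    · obtain ⟨D', hD', h⟩ := h1
      refine ⟨D', hD', L_ref (L_le (by omega) h) (le_trans (by simp) hh)
        (fun y hy => hm y (hD' hy)) (hR.mono hD')⟩
    · intro H hH
      obtain ⟨D', hD', h, h'⟩ := h3 H hH
      exact ⟨D', hD', L_ref (L_le (by omega) h) hh (fun y hy => hm y (hD' hy)) (hR.mono hD'), h'⟩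
    · obtain ⟨x, hx, D', hD', h, h'⟩ := h4
      exact ⟨x, hx, D', hD', L_ref (L_le (by omega) h) hh (fun y hy => hm y (hD' hy))
        (hR.mono hD'), h'⟩
    · obtain ⟨z, hz, hc, D', hD', h, h'⟩ := hz
      exact ⟨z, hz, hc, D', hD', L_ref (L_le (by omega) h) hh (fun y hy => hm y (hD' hy))
        (hR.mono hD'), h'⟩
    · intro e' he' hl S hSd
      rcases hR e' he' with h5 | h5
      · exfalso
        simp only [List.length_cons] at hh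
        omega
      · obtain ⟨H, hH, h6⟩ := h5 S hSd
        obtain ⟨D1, hD1, hL1, hu⟩ := h3 H (fun y hy => hH.trans (hm y hy))
        obtain ⟨e, he, hlab, hd⟩ := h6 D1 hD1 (L_ne hL1) hu
        have hL1' : L col (3 * n + 1 + 1) (c :: T) Λ D1 := hL1
        obtain ⟨_, _, _, _, _, hS1, _⟩ := hL1'
        rcases hlab with hlab | hlab
        · obtain ⟨D2, hD2, hL2, hg⟩ := hS1 e he (by omega) _ hd
          rw [hlab] at hL2
          refine ⟨D2, hD2.trans hD1, L_ref (L_le (by omega) hL2) ?_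
            (fun y hy => hm y (hD1 (hD2 hy))) (hR.mono (hD2.trans hD1)), ?_⟩
          · simp only [List.length_drop, List.length_cons] at hh ⊢
            omega
          · intro x hx hx'
            exact hg x ⟨hx, Hull.mono hD2 hx'⟩ hx'
        · obtain ⟨D2, hD2, hL2, hg⟩ := hS1 e he (by omega) _ hd
          have hlt : e.2 < T.length := by omega
          rw [List.drop_eq_getElem_cons hlt, hlab] at hL2
          obtain ⟨_, ⟨D3, hD3, hL3⟩, _⟩ := hL2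
          refine ⟨D3, hD3.trans (hD2.trans hD1), L_ref hL3 ?_
            (fun y hy => hm y (hD1 (hD2 (hD3 hy)))) (hR.mono (hD3.trans (hD2.trans hD1))), ?_⟩
          · simp only [List.length_drop, List.length_cons] at hh ⊢
            omega
          · intro x hx hx'
            exact hg x ⟨hx, Hull.mono (hD3.trans hD2) hx'⟩ (Hull.mono hD3 hx')
    · intro P hPs t ht
      rcases hP P hPs t ht with ⟨T', e1, e2, D', hD', h, h'⟩ | ⟨r, hr, D', hD', h, h'⟩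
      · refine Or.inl ⟨T', e1, e2, D', hD', L_ref (L_le (by omega) h) (e1.length_le.trans hh)
          (fun y hy => hm y (hD' hy)) (hR.mono hD'), h'⟩
      · exact Or.inr ⟨r, hr, D', hD', L_ref (L_le (by omega) h) hh (fun y hy => hm y (hD' hy))
          ((hR.mono hD').cons (r, t)), h'⟩

end Pool.Agent.Helper617.EX
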