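import Pool.Agent.Helper617.EX.Step

/-!
The infinite response to a partial order.
-/

namespace Pool.Agent.Helper617.EX

variable {col : ℕ → ℕ} {c : ℕ} {T : List ℕ} {Λ : List (Rl × ℕ)} {D : ℕ → Finset ℕ}
  {Λs : ℕ → List (Rl × ℕ)} {P : Rl} {t : ℕ}

theorem P_inf (h : IS col c T Λ D Λs) (hP : SPO P) {n0 : ℕ} (hC : Cmp col n0)
    (hno : NoC col c T Λ D n0 P t) (ht : t ≤ T.length) :
    ∃ r : Rl, STO r ∧ (∀ x y, P x y → r x y) ∧ ∃ (D' : ℕ → Finset ℕ) (Λs' : ℕ → List (Rl × ℕ)),
      IS col c T ((r, t) :: Λ) D' Λs' ∧ ∀ k, ∃ i, D' k ⊆ D i := by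
  classical
  obtain ⟨ρ0, hρ0⟩ := exists_rank h hP hC hno
  let s0 : Stt := ⟨0, 0, P, ρ0⟩
  have hs0 : Ok col T D Λs P t s0 := by
    refine ⟨hP, fun _ _ h => h, ?_, fun _ _ h => Or.inl h, hρ0, ?_⟩
    · intro x y hx hy hxy
      have hx' : x ≤ 0 := hx
      have hy' : y ≤ 0 := hy
      omega
    · intro x hx
      have := h.ge 1 x hx
      show 0 < x
      omega
  have hstep := fun s : {s : Stt // Ok col T D Λs P t s} => step h hP hno ht s.1 s.2
  choose s' Y q p Λ2 ty hok a1 a2 a3 a4 a5 a6 a7 a8 a9 a10 a11 a12 a13 using hstep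
  let st : ℕ → {s : Stt // Ok col T D Λs P t s} :=
    fun k => Nat.rec ⟨s0, hs0⟩ (fun _ s => ⟨s' s, hok s⟩) k
  have hst : ∀ k, (st (k + 1)).1 = s' (st k) := fun _ => rfl
  have he : ∀ k, (st k).1.e < (st (k + 1)).1.e := fun k => a1 (st k)
  have hj : ∀ k, (st k).1.j < (st (k + 1)).1.j := fun k => a2 (st k)
  have hem : StrictMono (fun k => (st k).1.e) := strictMono_nat_of_lt_succ he
  have hjm : StrictMono (fun k => (st k).1.j) := strictMono_nat_of_lt_succ hj
  have hek : ∀ k, k ≤ (st k).1.e := hem.id_le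
  have hjk : ∀ k, k ≤ (st k).1.j := hjm.id_le
  have hQ : ∀ k l, k ≤ l → ∀ x y, (st k).1.Q x y → (st l).1.Q x y := by
    intro k l hkl
    induction l, hkl using Nat.le_induction with
    | base => exact fun _ _ h => h
    | succ l _ ih => exact fun x y hxy => a5 (st l) x y (ih x y hxy)
  let r : Rl := fun x y => ∃ k, (st k).1.Q x y
  have hr : STO r := by
    refine ⟨⟨?_, ?_⟩, ?_⟩
    · rintro x ⟨k, hk⟩
      exact (st k).2.spo.irr x hk
    · rintro x y z ⟨k, hk⟩ ⟨l, hl⟩
      exact ⟨max k l, (st (max k l)).2.spo.trans _ _ _ (hQ k _ (le_max_left _ _) _ _ hk)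
        (hQ l _ (le_max_right _ _) _ _ hl)⟩
    · intro x y hxy
      have h1 := hek (max x y)
      rcases (st (max x y)).2.tot x y ((le_max_left x y).trans h1) ((le_max_right x y).trans h1)
        hxy with h2 | h2
      · exact Or.inl ⟨_, h2⟩
      · exact Or.inr ⟨_, h2⟩
  have hrQ : ∀ k x y, x ≤ (st k).1.e → y ≤ (st k).1.e → r x y → (st k).1.Q x y := by
    intro k x y hx hy hxy
    by_cases hne : x = y
    · subst hne
      exact absurd hxy (hr.irr x)
    · rcases (st k).2.tot x y hx hy hne with h1 | h1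
      · exact h1
      · exact absurd hxy (fun h2 => hr.asymm h2 ⟨k, h1⟩)
  let Λs' : ℕ → List (Rl × ℕ) := fun k =>
    (r, t) :: ((if t = 0 then [] else [(q (st k), t - 1)]) ++ Λs (st (k + 1)).1.j)
  have hΛ' : ∀ k, ∀ e ∈ Λs (st (k + 1)).1.j, e ∈ Λs' k := fun k e he =>
    List.mem_cons_of_mem _ (List.mem_append_right _ he)
  -- pieces of descending sets
  have hpc : ∀ k (S : Set ℕ), Desc r S → ∃ H : Finset ℕ, (∀ y ∈ Y (st k), H.card ≤ y) ∧
      ∀ D' ⊆ Y (st k), D'.Nonempty →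
          (∀ h ∈ H, (∀ y ∈ D', h < y) ∨ (∀ y ∈ D', y < h)) →
          ((∀ x ∈ S, x ∈ Hull D' → ty (st k) x) ∧ Desc (q (st k)) (S ∩ Hull D')) ∨
          ((∀ x ∈ S, x ∈ Hull D' → ¬ ty (st k) x) ∧ Desc (p (st k)) (S ∩ Hull D')) := by
    intro k S hS
    refine a12 (st k) S ?_
    intro x hx y hy hxy hye
    exact hrQ (k + 1) y x hye (hxy.le.trans hye) (hS x hx y hy hxy)
  have hIS0 : IS col c T Λ (fun k => Y (st k)) Λs' := by
    refine h.subseq (fun k => (st (k + 1)).1.j) (fun k => hj (k + 1)) (fun k => a3 (st k)) ?_ hΛ'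
    intro k
    obtain ⟨m, hm⟩ : ∃ m, m = (Y (st k)).min' (L_ne (a7 (st k))) := ⟨_, rfl⟩
    have hL1 : L col (3 * k) T (Λ2 (st k)) (Y (st k)) :=
      L_le (by have := hjk k; omega) (a7 (st k))
    refine L_ref (m := m) (h := T.length) hL1 le_rfl
      (fun y hy => by rw [hm]; exact Finset.min'_le _ _ hy) ?_
    intro e' he'
    rcases List.mem_cons.mp he' with rfl | he'
    · by_cases hlt : t < T.length
      · right
        intro S hS
        obtain ⟨H, hH, h2⟩ := hpc k S hS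
        refine ⟨H, by rw [hm]; exact hH _ (Finset.min'_mem _ _), ?_⟩
        intro D' hD' hne hu
        rcases h2 D' hD' hne hu with ⟨h3, h4⟩ | ⟨h3, h4⟩
        · rcases Nat.eq_zero_or_pos t with ht0 | ht0
          · rw [a11 (st k) ht0] at h4
            exact ⟨_, a10 (st k) hlt, Or.inl rfl, h4⟩
          · exact ⟨_, a9 (st k) (t - 1) (by omega), Or.inr (by simp only; omega), h4⟩
        · exact ⟨_, a10 (st k) hlt, Or.inl rfl, h4⟩
      · left
        exact not_lt.mp hlt
    · right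
      intro S hS
      refine ⟨∅, by simp, fun D' _ _ _ => ⟨e', ?_, Or.inl rfl, hS.mono Set.inter_subset_left⟩⟩
      rcases List.mem_append.mp he' with he' | he'
      · rcases Nat.eq_zero_or_pos t with ht0 | ht0
        · rw [if_pos ht0] at he'
          simp at he'
        · rw [if_neg (by omega)] at he'
          rw [List.mem_singleton.mp he']
          exact a9 (st k) (t - 1) (by omega)
      · exact a8 (st k) e' he'
  -- ranks along a descending set
  have hdrop : ∀ S : Set ℕ, Desc r S → ∃ m, ∀ k ≥ m, ∀ x ∈ S, x ∈ Hull (Y (st k)) →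
      ty (st k) x ∧ 0 < t := by
    intro S hS
    by_cases hne : ∃ x0, x0 ∈ S
    · obtain ⟨x0, hx0⟩ := hne
      let A : ℕ → Set Ordinal.{0} := fun k => (st k).1.ρ '' {u | u ∈ S ∧ u ≤ (st k).1.e}
      have hA : ∀ k ≥ x0, (A k).Nonempty := fun k hk =>
        ⟨_, x0, ⟨hx0, hk.trans (hek k)⟩, rfl⟩
      have hmem : ∀ k ≥ x0, ∃ u ∈ S, u ≤ (st k).1.e ∧ (st k).1.ρ u = sInf (A k) := by
        intro k hk
        obtain ⟨u, ⟨hu, hu'⟩, hu2⟩ := csInf_mem (hA k hk)
        exact ⟨u, hu, hu', hu2⟩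
      have hle : ∀ k, ∀ u ∈ S, u ≤ (st k).1.e → sInf (A k) ≤ (st k).1.ρ u := fun k u hu hu' =>
        csInf_le' ⟨u, ⟨hu, hu'⟩, rfl⟩
      have hanti : ∀ k ≥ x0, sInf (A (k + 1)) ≤ sInf (A k) := by
        intro k hk
        obtain ⟨u, hu, hu', hu2⟩ := hmem k hk
        rw [← hu2]
        exact (hle (k + 1) u hu (hu'.trans (he k).le)).trans (a6 (st k) u hu')
      have hanti' : ∀ k ≥ x0, ∀ l ≥ k, sInf (A l) ≤ sInf (A k) := by
        intro k hk l hl
        induction l, hl using Nat.le_induction with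
        | base => exact le_rfl
        | succ l hl ih => exact (hanti l (hk.trans hl)).trans ih
      let B : Set Ordinal.{0} := {o | ∃ k ≥ x0, o = sInf (A k)}
      have hB : B.Nonempty := ⟨_, x0, le_rfl, rfl⟩
      obtain ⟨m, hm, hm2⟩ := csInf_mem hB
      refine ⟨m, fun k hk x hx hxY => ?_⟩
      by_contra hcon
      have hk0 : x0 ≤ k := le_trans hm hk
      obtain ⟨u, hu, hu', hu2⟩ := hmem k hk0
      have hxe : (st k).1.e < x ∧ x ≤ (st (k + 1)).1.e := by
        obtain ⟨⟨a, ha, hax⟩, b, hb, hxb⟩ := hxY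
        exact ⟨(a4 (st k) a ha).1.trans_le hax, hxb.trans (a4 (st k) b hb).2⟩
      have hQxu : (s' (st k)).Q x u :=
        hrQ (k + 1) x u hxe.2 (hu'.trans (he k).le) (hS u hu x hx (by omega))
      rcases a13 (st k) x hxY u hu' hQxu with h3 | h3
      · exact hcon h3
      · have h4 : sInf (A (k + 1)) ≤ (st (k + 1)).1.ρ x := hle (k + 1) x hx hxe.2
        have h5 : sInf (A (k + 1)) < sInf (A k) := h4.trans_lt (by rw [← hu2]; exact h3)
        have h6 : sInf (A k) ≤ sInf (A m) := hanti' m hm k hk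
        have h7 : sInf B ≤ sInf (A (k + 1)) := csInf_le' ⟨k + 1, le_trans hk0 (Nat.le_succ k), rfl⟩
        rw [hm2] at h7
        exact absurd (h7.trans_lt (h5.trans_le h6)) (lt_irrefl _)
    · exact ⟨0, fun k _ x hx => absurd ⟨x, hx⟩ hne⟩
  refine ⟨r, hr, fun x y hxy => ⟨0, hxy⟩, fun k => Y (st k), Λs', ?_, fun k => ⟨_, a3 (st k)⟩⟩
  refine ⟨hIS0.large, hIS0.step, hIS0.colle, hIS0.colub, ?_, ?_, ?_⟩
  · intro k e he
    rcases List.mem_cons.mp he with rfl | he
    · exact List.mem_cons_self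
    · exact hIS0.sub k e he
  · intro e he
    rcases List.mem_cons.mp he with rfl | he
    · intro ht0 S hS
      obtain ⟨m, hm⟩ := hdrop S hS
      refine ⟨m, fun k hk x hx hxY => ?_⟩
      have := (hm k hk x hx hxY).2
      simp only at ht0
      omega
    · exact hIS0.zero e he
  · intro e he
    rcases List.mem_cons.mp he with rfl | he
    · intro i hi
      simp only at hi
      refine ⟨fun k => q (st k), ?_, ?_⟩
      · intro k
        refine List.mem_cons_of_mem _ (List.mem_append_left _ ?_)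
        rw [if_neg (by omega), List.mem_singleton]
        congr 1
        omega
      · intro S hS
        obtain ⟨m, hm⟩ := hdrop S hS
        refine ⟨m, fun k hk => ?_⟩
        obtain ⟨H, hH, h2⟩ := hpc k S hS
        refine ⟨H, hH, fun D' hD' hne hu => ?_⟩
        rcases h2 D' hD' hne hu with h3 | h3
        · exact h3.2
        · rintro x ⟨hx, hxD⟩
          exact absurd (hm k hk x hx (Hull.mono hD' hxD)).1 (h3.1 x hx hxD)
    · exact hIS0.succ e he

end Pool.Agent.Helper617.EX
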