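import Pool.Agent.Helper617.EX.Exist

/-!
Standard data, step functions, codes of internal functions.
-/

namespace Pool.Agent.Helper617.EX

open Filter

/-! ### standard data -/

/-- lengths -/
def BB : ℕ → ℕ
  | 0 => 1
  | n + 1 => BB n * BB n + BB n + 1

theorem BB_pos (n : ℕ) : 1 ≤ BB n := by
  cases n with
  | zero => exact le_rfl
  | succ n => simp only [BB]; omega

theorem BB_lt (n : ℕ) : BB n + 1 ≤ BB (n + 1) := by
  simp only [BB]
  have := Nat.zero_le (BB n * BB n)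
  omega

theorem BB_sq (n : ℕ) : BB n * BB n ≤ BB (n + 1) := by
  simp only [BB]
  omega

/-- a bound for the standard data -/
def MB (t : ℕ) : ℕ := BB t + t + 1

noncomputable def cl (t : ℕ) : ℕ → ℕ := (exists_large (BB t) t (MB t)).choose

noncomputable def D0 (t : ℕ) : Finset ℕ := (exists_large (BB t) t (MB t)).choose_spec.choose

theorem D0_spec (t : ℕ) : L (cl t) t (Tl (BB t)) [] (D0 t) ∧ (∀ x ∈ D0 t, MB t < x) ∧
    ∀ z ∈ Hull (D0 t), cl t z ≤ BB t :=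
  (exists_large (BB t) t (MB t)).choose_spec.choose_spec

noncomputable def TT (t : ℕ) : ℕ := (D0 t).sup id

/-- decoding of finite sets -/
noncomputable def dec (K : ℕ) : Finset ℕ := (Encodable.decode (α := Finset ℕ) K).getD ∅

@[simp] theorem dec_encode (F : Finset ℕ) : dec (Encodable.encode F) = F := by simp [dec]

/-- pairing of the second order structure -/
def prn (a b : ℕ) : ℕ := (a + b) * (a + b) + a

theorem prn_inj {a b c d : ℕ} (h : prn a b = prn c d) : a = c ∧ b = d := by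
  unfold prn at h
  have h1 : a + b = c + d := by
    rcases lt_trichotomy (a + b) (c + d) with hlt | heq | hgt
    · exfalso; nlinarith
    · exact heq
    · exfalso; nlinarith
  rw [h1] at h
  constructor <;> omega

/-- the relation coded by a finite set of pairs -/
def rlF (F : Finset ℕ) : Rl := fun x y => prn x y ∈ F

/-- labelled codes of orders -/
abbrev Ls := List (Finset ℕ × ℕ)

/-- lists of colours with labelled codes of orders -/
abbrev Qt := List ℕ × Ls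

/-- the coded orders -/
def hat (Λ : Ls) : List (Rl × ℕ) := Λ.map (fun e => (rlF e.1, e.2))

/-- the coded relation is transitive up to `m` -/
def good (d m : ℕ) : Prop := ∀ x ≤ m, ∀ y ≤ m, ∀ z ≤ m, (x ≠ y ∧ prn x y ∈ dec d) →
  (y ≠ z ∧ prn y z ∈ dec d) → (x ≠ z ∧ prn x z ∈ dec d)

/-- the strict partial order given by a code -/
def Pt (d : ℕ) : Rl := fun x y => x ≠ y ∧ prn x y ∈ dec d ∧ good d (max x y)

theorem good.mono {d m m' : ℕ} (h : good d m) (hm : m' ≤ m) : good d m' :=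
  fun x hx y hy z hz => h x (hx.trans hm) y (hy.trans hm) z (hz.trans hm)

theorem Pt_spo (d : ℕ) : SPO (Pt d) := by
  refine ⟨fun x hx => hx.1 rfl, ?_⟩
  rintro x y z ⟨h1, h2, h3⟩ ⟨h4, h5, h6⟩
  have hg : good d (max (max x y) (max y z)) := by
    rcases le_total (max x y) (max y z) with h | h
    · rw [max_eq_right h]; exact h6
    · rw [max_eq_left h]; exact h3
  obtain ⟨h7, h8⟩ := hg x (by simp) y (by simp) z (by simp) ⟨h1, h2⟩ ⟨h4, h5⟩
  exact ⟨h7, h8, hg.mono (max_le (by simp) (by simp))⟩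

/-- the initial part of the set `S` on which it is descending -/
def Tr (F S : Finset ℕ) : Set ℕ :=
  {x | x ∈ S ∧ ∀ y ∈ S, ∀ z ∈ S, y < z → z ≤ x → prn z y ∈ F}

theorem Tr_desc (F S : Finset ℕ) : Desc (rlF F) (Tr F S) :=
  fun x hx y hy hxy => hy.2 x hx.1 y hy.1 hxy le_rfl

/-- strict total orders up to `M` -/
def STF (F : Finset ℕ) (M : ℕ) : Prop := (∀ x ≤ M, prn x x ∉ F) ∧
  (∀ x ≤ M, ∀ y ≤ M, ∀ z ≤ M, prn x y ∈ F → prn y z ∈ F → prn x z ∈ F) ∧
  ∀ x ≤ M, ∀ y ≤ M, x ≠ y → prn x y ∈ F ∨ prn y x ∈ F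

open Classical in
/-- code of a relation -/
noncomputable def Fr (r : Rl) (M : ℕ) : Finset ℕ :=
  ((Finset.range (M + 1) ×ˢ Finset.range (M + 1)).filter (fun p => r p.1 p.2)).image
    (fun p => prn p.1 p.2)

theorem mem_Fr {r : Rl} {M x y : ℕ} : prn x y ∈ Fr r M ↔ x ≤ M ∧ y ≤ M ∧ r x y := by
  classical
  unfold Fr
  rw [Finset.mem_image]
  constructor
  · rintro ⟨⟨a, b⟩, h1, h2⟩
    obtain ⟨rfl, rfl⟩ := prn_inj h2
    rw [Finset.mem_filter, Finset.mem_product, Finset.mem_range, Finset.mem_range] at h1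
    exact ⟨Nat.le_of_lt_succ h1.1.1, Nat.le_of_lt_succ h1.1.2, h1.2⟩
  · rintro ⟨h1, h2, h3⟩
    refine ⟨(x, y), ?_, rfl⟩
    rw [Finset.mem_filter, Finset.mem_product, Finset.mem_range, Finset.mem_range]
    exact ⟨⟨Nat.lt_succ_of_le h1, Nat.lt_succ_of_le h2⟩, h3⟩

theorem STF_Fr {r : Rl} (hr : STO r) (M : ℕ) : STF (Fr r M) M := by
  refine ⟨fun x _ h => hr.irr x (mem_Fr.mp h).2.2, ?_, ?_⟩
  · intro x hx y _ z hz h1 h2
    exact mem_Fr.mpr ⟨hx, hz, hr.trans _ _ _ (mem_Fr.mp h1).2.2 (mem_Fr.mp h2).2.2⟩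
  · intro x hx y hy hxy
    rcases hr.tot x y hxy with h | h
    · exact Or.inl (mem_Fr.mpr ⟨hx, hy, h⟩)
    · exact Or.inr (mem_Fr.mpr ⟨hy, hx, h⟩)

/-- states: a finite set, a list of colours with labelled orders, a lower bound -/
abbrev St := Finset ℕ × Qt × ℕ

/-- the possible next states -/
def Nx (t n : ℕ) (s : St) (Q : Finset ℕ → Qt → Prop) (p : Finset ℕ × Qt) : Prop :=
  p.1 ⊆ s.1 ∧ L (cl t) n p.2.1 (hat p.2.2) p.1 ∧ p.2.1.Sublist s.2.1.1 ∧
    (∀ e ∈ s.2.1.2, e ∈ p.2.2) ∧ BB n ≤ p.2.1.length ∧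
    (∀ e ∈ p.2.2, (e.2 + 1) * BB n ≤ p.2.1.length) ∧ Q p.1 p.2

open Classical in
/-- the general step -/
noncomputable def stepQ (t n : ℕ) (s : St) (Q : Finset ℕ → Qt → Prop) : St :=
  if h : ∃ p, Nx t n s Q p then (h.choose.1, h.choose.2, s.2.2) else s

/-- the top colour is removed -/
noncomputable def stepTop (t n : ℕ) (s : St) (_ : ℕ) : St :=
  stepQ t n s (fun _ T => T.1 = s.2.1.1.tail)

/-- a point of the top colour is passed -/
noncomputable def stepPass (t n : ℕ) (s : St) (_ : ℕ) : St :=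
  stepQ t n s (fun D _ => ∃ z, (∃ a ∈ s.1, a ≤ z) ∧ cl t z = s.2.1.1.headD 0 ∧ ∀ y ∈ D, z < y)

/-- no point of the small set `d` in the hull -/
noncomputable def stepGap (t n : ℕ) (s : St) (d : ℕ) : St :=
  stepQ t n s (fun D _ => ∀ h ∈ dec d, (∀ y ∈ D, h < y) ∨ (∀ y ∈ D, y < h))

/-- the descending set is avoided -/
noncomputable def stepDesc (t n : ℕ) (s : St) (d : ℕ) : St :=
  stepQ t n s (fun D _ => ∀ x ∈ Tr (dec d.unpair.1) (dec d.unpair.2), x ∉ Hull D)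

/-- the partial order `d` is answered -/
noncomputable def stepOrd (t n : ℕ) (s : St) (d : ℕ) : St :=
  stepQ t n s (fun D T => (∃ C : Finset ℕ, Desc (Pt d) (C : Set ℕ) ∧ Btw (C : Set ℕ) D) ∨
    ∃ (F : Finset ℕ) (t0 : ℕ), T.2 = (F, t0) :: s.2.1.2 ∧ STF F (TT t) ∧
      ∀ x y, (∃ b ∈ D, x ≤ b) → (∃ b ∈ D, y ≤ b) → Pt d x y → prn x y ∈ F)

open Classical in
noncomputable def stepAdv (t n : ℕ) (s : St) (_ : ℕ) : St :=
  if h : ∃ p : ℕ × Finset ℕ, p.1 ∈ s.1 ∧ p.2 ⊆ s.1 ∧ L (cl t) n s.2.1.1 (hat s.2.1.2) p.2 ∧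
    ∀ y ∈ p.2, FF p.1 ≤ y
  then (h.choose.2, s.2.1, FF h.choose.1) else s

/-- the invariant -/
def Inv (t n : ℕ) (s : St) : Prop :=
  L (cl t) n s.2.1.1 (hat s.2.1.2) s.1 ∧ BB n ≤ s.2.1.1.length ∧
    (∀ e ∈ s.2.1.2, (e.2 + 1) * BB n ≤ s.2.1.1.length) ∧ s.2.1.1.Sublist (Tl (BB t)) ∧
    s.1 ⊆ D0 t ∧ (∀ y ∈ s.1, s.2.2 ≤ y) ∧ 1 ≤ s.2.2

/-- extension of types -/
def Tle (T T' : Qt) : Prop := T.1.Sublist T'.1 ∧ ∀ e ∈ T'.2, e ∈ T.2

theorem Tle.refl (T : Qt) : Tle T T := ⟨List.Sublist.refl _, fun _ h => h⟩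

theorem Tle.trans {T T' T'' : Qt} (h : Tle T T') (h' : Tle T' T'') : Tle T T'' :=
  ⟨h.1.trans h'.1, fun e he => h.2 e (h'.2 e he)⟩

theorem stepQ_spec {t n : ℕ} {s : St} (h : Inv t (n + 1) s) (Q : Finset ℕ → Qt → Prop) :
    Inv t n (stepQ t n s Q) ∧ (stepQ t n s Q).1 ⊆ s.1 ∧ (stepQ t n s Q).2.2 = s.2.2 ∧
      Tle (stepQ t n s Q).2.1 s.2.1 ∧
      ((∃ p, Nx t n s Q p) → Q (stepQ t n s Q).1 (stepQ t n s Q).2.1) := by
  classical
  obtain ⟨h1, h2, h3, h4, h5, h6, h7⟩ := h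
  by_cases hex : ∃ p, Nx t n s Q p
  · have e : stepQ t n s Q = (hex.choose.1, hex.choose.2, s.2.2) := by
      unfold stepQ
      exact dif_pos hex
    obtain ⟨e1, e2, e3, e4, e5, e6, e7⟩ := hex.choose_spec
    rw [e]
    exact ⟨⟨e2, e5, e6, e3.trans h4, e1.trans h5, fun y hy => h6 y (e1 hy), h7⟩, e1, rfl,
      ⟨e3, e4⟩, fun _ => e7⟩
  · have e : stepQ t n s Q = s := by
      unfold stepQ
      exact dif_neg hex
    rw [e]
    have hB := BB_lt n
    refine ⟨⟨L_anti h1, by omega, fun e he => ?_, h4, h5, h6, h7⟩, subset_rfl, rfl,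
      Tle.refl _, fun hc => absurd hc hex⟩
    exact (Nat.mul_le_mul_left _ (by omega)).trans (h3 e he)

/-- the list of a state with positive parameter is not empty -/
theorem Inv.cons {t n : ℕ} {s : St} (h : Inv t (n + 1) s) : ∃ c T, s.2.1.1 = c :: T := by
  have h2 := h.2.1
  have h3 := BB_pos (n + 1)
  cases hT : s.2.1.1 with
  | nil => rw [hT] at h2; simp at h2; omega
  | cons c T => exact ⟨c, T, rfl⟩

theorem stepTop_spec {t n : ℕ} {s : St} (h : Inv t (n + 1) s) (d : ℕ) :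
    Inv t n (stepTop t n s d) ∧ (stepTop t n s d).1 ⊆ s.1 ∧ (stepTop t n s d).2.2 = s.2.2 ∧
      Tle (stepTop t n s d).2.1 s.2.1 ∧ (stepTop t n s d).2.1.1 = s.2.1.1.tail := by
  obtain ⟨e1, e2, e3, e4, e5⟩ := stepQ_spec h (fun _ T => T.1 = s.2.1.1.tail)
  refine ⟨e1, e2, e3, e4, e5 ?_⟩
  obtain ⟨c, T, hT⟩ := h.cons
  obtain ⟨h1, h2, h3, _⟩ := h
  rw [hT] at h1 h2 h3
  obtain ⟨D, hD, hL⟩ := h1.2.1
  have hB := BB_lt n
  rw [List.length_cons] at h2 h3
  refine ⟨(D, (T, s.2.1.2)), hD, hL, ?_, fun e he => he, ?_, ?_, ?_⟩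
  · rw [hT]
    exact List.sublist_cons_self c T
  · show BB n ≤ T.length
    omega
  · intro e he
    have h6 := h3 e he
    have h7 : (e.2 + 1) * (BB n + 1) ≤ (e.2 + 1) * BB (n + 1) := Nat.mul_le_mul_left _ hB
    show (e.2 + 1) * BB n ≤ T.length
    rw [Nat.mul_add] at h7
    omega
  · show T = s.2.1.1.tail
    rw [hT]
    rfl

theorem Inv.low {t n : ℕ} {s : St} (h : Inv t (n + 1) s) {e : Finset ℕ × ℕ} (he : e ∈ s.2.1.2) :
    (e.2 + 1) * BB n ≤ s.2.1.1.length :=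
  (Nat.mul_le_mul_left _ (by have := BB_lt n; omega)).trans (h.2.2.1 e he)

theorem stepPass_spec {t n : ℕ} {s : St} (h : Inv t (n + 1) s) (d : ℕ) :
    Inv t n (stepPass t n s d) ∧ (stepPass t n s d).1 ⊆ s.1 ∧ (stepPass t n s d).2.2 = s.2.2 ∧
      Tle (stepPass t n s d).2.1 s.2.1 ∧ ∃ z, (∃ a ∈ s.1, a ≤ z) ∧
        cl t z = s.2.1.1.headD 0 ∧ ∀ y ∈ (stepPass t n s d).1, z < y := by
  obtain ⟨e1, e2, e3, e4, e5⟩ := stepQ_spec h
    (fun D _ => ∃ z, (∃ a ∈ s.1, a ≤ z) ∧ cl t z = s.2.1.1.headD 0 ∧ ∀ y ∈ D, z < y)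
  refine ⟨e1, e2, e3, e4, e5 ?_⟩
  have hlow := fun e he => h.low (e := e) he
  obtain ⟨c, T, hT⟩ := h.cons
  obtain ⟨h1, h2, h3, _⟩ := h
  rw [hT] at h1
  obtain ⟨z, hza, hz, D, hD, hL, hy⟩ := h1.2.2.2.2.1
  have hB := BB_lt n
  refine ⟨(D, s.2.1), hD, by rw [hT]; exact hL, List.Sublist.refl _, fun e he => he, ?_, hlow,
    z, hza, ?_, hy⟩
  · show BB n ≤ s.2.1.1.length
    omega
  · rw [hT]
    exact hz

theorem stepGap_spec {t n : ℕ} {s : St} (h : Inv t (n + 1) s) (d : ℕ) :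
    Inv t n (stepGap t n s d) ∧ (stepGap t n s d).1 ⊆ s.1 ∧ (stepGap t n s d).2.2 = s.2.2 ∧
      Tle (stepGap t n s d).2.1 s.2.1 ∧
      ((dec d).card ≤ s.2.2 → ∀ h ∈ dec d, (∀ y ∈ (stepGap t n s d).1, h < y) ∨
        (∀ y ∈ (stepGap t n s d).1, y < h)) := by
  obtain ⟨e1, e2, e3, e4, e5⟩ := stepQ_spec h
    (fun D _ => ∀ h ∈ dec d, (∀ y ∈ D, h < y) ∨ (∀ y ∈ D, y < h))
  refine ⟨e1, e2, e3, e4, fun hc => e5 ?_⟩
  have hlow := fun e he => h.low (e := e) he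
  obtain ⟨c, T, hT⟩ := h.cons
  obtain ⟨h1, h2, h3, h4, h5, h6, _⟩ := h
  rw [hT] at h1
  obtain ⟨D, hD, hL, hg⟩ := h1.2.2.1 (dec d) (fun y hy => hc.trans (h6 y hy))
  have hB := BB_lt n
  refine ⟨(D, s.2.1), hD, by rw [hT]; exact hL, List.Sublist.refl _, fun e he => he, ?_, hlow, hg⟩
  show BB n ≤ s.2.1.1.length
  omega

theorem stepDesc_spec {t n : ℕ} {s : St} (h : Inv t (n + 1) s) (d : ℕ) :
    Inv t n (stepDesc t n s d) ∧ (stepDesc t n s d).1 ⊆ s.1 ∧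
      (stepDesc t n s d).2.2 = s.2.2 ∧ Tle (stepDesc t n s d).2.1 s.2.1 ∧
      ((∃ lab, (dec d.unpair.1, lab) ∈ s.2.1.2) →
        ∀ x ∈ Tr (dec d.unpair.1) (dec d.unpair.2), x ∉ Hull (stepDesc t n s d).1) := by
  obtain ⟨e1, e2, e3, e4, e5⟩ := stepQ_spec h
    (fun D _ => ∀ x ∈ Tr (dec d.unpair.1) (dec d.unpair.2), x ∉ Hull D)
  refine ⟨e1, e2, e3, e4, fun hl => e5 ?_⟩
  obtain ⟨lab, hlab⟩ := hl
  obtain ⟨c, T, hT⟩ := h.cons
  obtain ⟨h1, h2, h3, _⟩ := h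
  rw [hT] at h1 h2 h3
  rw [List.length_cons] at h2 h3
  have hB := BB_lt n
  have hp := BB_pos n
  have key : ∀ l, (l + 1) * BB (n + 1) ≤ T.length + 1 → (l + 1) * BB n + l ≤ T.length := by
    intro l hl
    have h7 : (l + 1) * (BB n + 1) ≤ (l + 1) * BB (n + 1) := Nat.mul_le_mul_left _ hB
    rw [Nat.mul_add] at h7
    omega
  have h8 := key lab (h3 _ hlab)
  have h9 : lab ≤ T.length := by omega
  obtain ⟨D, hD, hL, hg⟩ := h1.2.2.2.2.2.1 (rlF (dec d.unpair.1), lab)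
    (List.mem_map.mpr ⟨_, hlab, rfl⟩) h9 _ (Tr_desc (dec d.unpair.1) (dec d.unpair.2))
  refine ⟨(D, (T.drop lab, s.2.1.2)), hD, hL, ?_, fun e he => he, ?_, ?_, hg⟩
  · rw [hT]
    exact (List.drop_sublist _ _).trans (List.sublist_cons_self c T)
  · show BB n ≤ (T.drop lab).length
    rw [List.length_drop]
    have : BB n ≤ (lab + 1) * BB n := by nlinarith
    omega
  · intro e he
    show (e.2 + 1) * BB n ≤ (T.drop lab).length
    rw [List.length_drop]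
    rcases le_total e.2 lab with h10 | h10
    · have : (e.2 + 1) * BB n ≤ (lab + 1) * BB n := Nat.mul_le_mul_right _ (by omega)
      omega
    · have := key e.2 (h3 e he)
      omega

theorem exists_lam {A B : ℕ} (hB : B ≤ A) : ∀ (Λ : Ls), (∀ e ∈ Λ, (e.2 + 1) * B ≤ A) →
    ∃ l, (∀ e ∈ Λ, e.2 ≤ l) ∧ (l + 1) * B ≤ A
  | [], _ => ⟨0, by simp, by simpa using hB⟩
  | e :: Λ, h => by
    obtain ⟨l, h1, h2⟩ := exists_lam hB Λ (fun e' he' => h e' (List.mem_cons_of_mem _ he'))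
    have h3 := h e List.mem_cons_self
    rcases le_total e.2 l with h4 | h4
    · refine ⟨l, fun e' he' => ?_, h2⟩
      rcases List.mem_cons.mp he' with rfl | he'
      · exact h4
      · exact h1 e' he'
    · refine ⟨e.2, fun e' he' => ?_, h3⟩
      rcases List.mem_cons.mp he' with rfl | he'
      · exact le_rfl
      · exact (h1 e' he').trans h4

theorem stepOrd_spec {t n : ℕ} {s : St} (h : Inv t (n + 1) s) (d : ℕ) :
    Inv t n (stepOrd t n s d) ∧ (stepOrd t n s d).1 ⊆ s.1 ∧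
      (stepOrd t n s d).2.2 = s.2.2 ∧ Tle (stepOrd t n s d).2.1 s.2.1 ∧
      ((∃ C : Finset ℕ, Desc (Pt d) (C : Set ℕ) ∧ Btw (C : Set ℕ) (stepOrd t n s d).1) ∨
        ∃ (F : Finset ℕ) (t0 : ℕ), (stepOrd t n s d).2.1.2 = (F, t0) :: s.2.1.2 ∧
          STF F (TT t) ∧ ∀ x y, (∃ b ∈ (stepOrd t n s d).1, x ≤ b) →
            (∃ b ∈ (stepOrd t n s d).1, y ≤ b) → Pt d x y → prn x y ∈ F) := by
  classical
  obtain ⟨e1, e2, e3, e4, e5⟩ := stepQ_spec h
    (fun D T => (∃ C : Finset ℕ, Desc (Pt d) (C : Set ℕ) ∧ Btw (C : Set ℕ) D) ∨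
    ∃ (F : Finset ℕ) (t0 : ℕ), T.2 = (F, t0) :: s.2.1.2 ∧ STF F (TT t) ∧
      ∀ x y, (∃ b ∈ D, x ≤ b) → (∃ b ∈ D, y ≤ b) → Pt d x y → prn x y ∈ F)
  refine ⟨e1, e2, e3, e4, e5 ?_⟩
  have hlow := fun e he => h.low (e := e) he
  obtain ⟨c, T, hT⟩ := h.cons
  obtain ⟨h1, h2, h3, h4, h5, _⟩ := h
  obtain ⟨l, hl1, hl2⟩ := exists_lam h2 s.2.1.2 h3
  have hp := BB_pos n
  have hB := BB_lt n
  have hsq := BB_sq n
  have hlen : s.2.1.1.length = T.length + 1 := by rw [hT]; rfl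
  have hpos : 1 ≤ (l + 1) * BB n := Nat.mul_pos (Nat.succ_pos l) hp
  have hle : (l + 1) * BB n ≤ (l + 1) * BB (n + 1) := Nat.mul_le_mul_left _ (by omega)
  obtain ⟨t0, ht0⟩ : ∃ t0, t0 + 1 = (l + 1) * BB n := ⟨(l + 1) * BB n - 1, by omega⟩
  have htop : ∀ y ∈ s.1, y ≤ TT t := fun y hy => Finset.le_sup (f := id) (h5 hy)
  rw [hT] at h1
  rcases h1.2.2.2.2.2.2 (Pt d) (Pt_spo d) t0 (by omega) with
    ⟨T', f1, f2, D, hD, hL, C, hC, hCD⟩ | ⟨r, hr, D, hD, hL, hex⟩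
  · refine ⟨(D, (T', s.2.1.2)), hD, hL, by rw [hT]; exact f1, fun e he => he, ?_, ?_,
      Or.inl ⟨(Finset.range (TT t + 1)).filter (· ∈ C), ?_, ?_⟩⟩
    · show BB n ≤ T'.length
      rw [f2, ht0]
      nlinarith
    · intro e he
      show (e.2 + 1) * BB n ≤ T'.length
      rw [f2, ht0]
      exact Nat.mul_le_mul_right _ (by have := hl1 e he; omega)
    · refine hC.mono ?_
      intro x hx
      simp only [Finset.coe_filter, Set.mem_setOf_eq] at hx
      exact hx.2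
    · intro x hx y hy hxy
      obtain ⟨z, hz, h6, h7⟩ := hCD x hx y hy hxy
      refine ⟨z, ?_, h6, h7⟩
      simp only [Finset.coe_filter, Set.mem_setOf_eq, Finset.mem_range]
      have := htop y (hD hy)
      exact ⟨by omega, hz⟩
  · refine ⟨(D, (s.2.1.1, (Fr r (TT t), t0) :: s.2.1.2)), hD, ?_, List.Sublist.refl _,
      fun e he => List.mem_cons_of_mem _ he, ?_, ?_,
      Or.inr ⟨Fr r (TT t), t0, rfl, STF_Fr hr _, ?_⟩⟩
    · show L (cl t) n s.2.1.1 (hat ((Fr r (TT t), t0) :: s.2.1.2)) D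
      rw [hT]
      refine L_sim (M := TT t) (fun y hy => htop y (hD hy)) ?_ hL
      intro e' he'
      rcases List.mem_cons.mp he' with rfl | he'
      · exact ⟨(r, t0), List.mem_cons_self, rfl, fun x _ y _ h => (mem_Fr.mp h).2.2⟩
      · exact ⟨e', List.mem_cons_of_mem _ he', rfl, fun x _ y _ h => h⟩
    · show BB n ≤ s.2.1.1.length
      omega
    · intro e he
      show (e.2 + 1) * BB n ≤ s.2.1.1.length
      rcases List.mem_cons.mp he with rfl | he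
      · show (t0 + 1) * BB n ≤ _
        rw [ht0, Nat.mul_assoc]
        exact (Nat.mul_le_mul_left _ hsq).trans hl2
      · exact hlow e he
    · intro x y hx hy hxy
      have hxt : x ≤ TT t := by
        obtain ⟨b, hb, hxb⟩ := hx
        exact hxb.trans (htop b (hD hb))
      have hyt : y ≤ TT t := by
        obtain ⟨b, hb, hyb⟩ := hy
        exact hyb.trans (htop b (hD hb))
      exact mem_Fr.mpr ⟨hxt, hyt, hex x y hx hy hxy⟩

theorem FF_mono {a b : ℕ} (h : a ≤ b) : FF a ≤ FF b := by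
  unfold FF
  nlinarith

theorem lt_FF (a : ℕ) : a < FF a := by
  unfold FF
  nlinarith [Nat.zero_le (a ^ 2)]

theorem stepAdv_spec {t n : ℕ} {s : St} (h : Inv t (n + 1) s) (d : ℕ) :
    Inv t n (stepAdv t n s d) ∧ (stepAdv t n s d).1 ⊆ s.1 ∧
      Tle (stepAdv t n s d).2.1 s.2.1 ∧
      FF s.2.2 ≤ (stepAdv t n s d).2.2 ∧ ∃ x ∈ s.1, x < (stepAdv t n s d).2.2 := by
  classical
  have hlow := fun e he => h.low (e := e) he
  obtain ⟨c, T, hT⟩ := h.cons
  obtain ⟨h1, h2, h3, h4, h5, h6, h7⟩ := h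
  have hB := BB_lt n
  have hex : ∃ p : ℕ × Finset ℕ, p.1 ∈ s.1 ∧ p.2 ⊆ s.1 ∧ L (cl t) n s.2.1.1 (hat s.2.1.2) p.2 ∧
      ∀ y ∈ p.2, FF p.1 ≤ y := by
    rw [hT] at h1 ⊢
    obtain ⟨x, hx, Y', h5, h6, h7⟩ := h1.2.2.2.1
    exact ⟨(x, Y'), hx, h5, h6, h7⟩
  have e : stepAdv t n s d = (hex.choose.2, s.2.1, FF hex.choose.1) := by
    unfold stepAdv
    exact dif_pos hex
  obtain ⟨hx, hD, hL, hf⟩ := hex.choose_spec
  rw [e]
  refine ⟨⟨hL, ?_, hlow, h4, hD.trans h5, hf, ?_⟩, hD, Tle.refl _,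
    FF_mono (h6 _ hx), _, hx, lt_FF _⟩
  · show BB n ≤ s.2.1.1.length
    omega
  · unfold FF
    simp only
    omega

/-! ### operations on numbers -/

/-- coding of states -/
noncomputable def encS (s : St) : ℕ :=
  Nat.pair (Encodable.encode s.1) (Nat.pair (Encodable.encode s.2.1) s.2.2)

/-- decoding of types -/
noncomputable def decT (w : ℕ) : Qt := (Encodable.decode (α := Qt) w).getD ([], [])

@[simp] theorem decT_encode (T : Qt) : decT (Encodable.encode T) = T := by simp [decT]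

/-- decoding of states -/
noncomputable def decS (w : ℕ) : St :=
  (dec w.unpair.1, decT w.unpair.2.unpair.1, w.unpair.2.unpair.2)

@[simp] theorem decS_encS (s : St) : decS (encS s) = s := by
  simp [decS, encS]

/-- the combined step -/
noncomputable def stepK (k t n : ℕ) (s : St) (d : ℕ) : St :=
  match k with
  | 0 => stepTop t n s d
  | 1 => stepPass t n s d
  | 2 => stepGap t n s d
  | 3 => stepDesc t n s d
  | 4 => stepOrd t n s d
  | _ => stepAdv t n s d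

open Classical in
/-- a descending set -/
noncomputable def witC (D d : ℕ) : ℕ :=
  if h : ∃ C : Finset ℕ, Desc (Pt d) (C : Set ℕ) ∧ Btw (C : Set ℕ) (dec D)
  then Encodable.encode h.choose else 0

theorem witC_spec {D d : ℕ}
    (h : ∃ C : Finset ℕ, Desc (Pt d) (C : Set ℕ) ∧ Btw (C : Set ℕ) (dec D)) :
    Desc (Pt d) (dec (witC D d) : Set ℕ) ∧ Btw (dec (witC D d) : Set ℕ) (dec D) := by
  classical
  have e : witC D d = Encodable.encode h.choose := by
    unfold witC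
    exact dif_pos h
  rw [e, dec_encode]
  exact h.choose_spec

open Classical in
/-- basic operations -/
noncomputable def opf : ℕ → ℕ → ℕ
  | 0, w => w.unpair.1 + w.unpair.2
  | 1, w => w.unpair.1 * w.unpair.2
  | 2, w => if w.unpair.1 = w.unpair.2 then 1 else 0
  | 3, w => if w.unpair.1 < w.unpair.2 then 1 else 0
  | 4, w => if w.unpair.1 ∈ dec w.unpair.2 then 1 else 0
  | 5, w => if w = 0 then 1 else 0
  | 6, w => if w.unpair.1 ≠ 0 ∧ w.unpair.2 ≠ 0 then 1 else 0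
  | 7, w => w.unpair.1
  | 8, w => w.unpair.2
  | 9, t => encS (D0 t, (Tl (BB t), []), MB t + 1)
  | 10, w => w.unpair.1 - w.unpair.2
  | 11, t => TT t + 1
  | 12, w => cl w.unpair.1 w.unpair.2
  | 13, t => MB t
  | 14, w => witC w.unpair.1 w.unpair.2
  | 15, w => Encodable.encode ((decS w).2.1.2.headD (∅, 0)).1
  | (k + 16), w => encS (stepK k w.unpair.1 w.unpair.2.unpair.1
      (decS w.unpair.2.unpair.2.unpair.1) w.unpair.2.unpair.2.unpair.2)

/-! ### codes -/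

/-- codes of internal functions; `var` is the variable `0`, `lift` is weakening, `clo` closes a
code, `setc` forms finite sets and `bmin` is bounded search -/
inductive Cd : Type
  | idx : Cd
  | var : Cd
  | lift : Cd → Cd
  | clo : Cd → Cd
  | nat : ℕ → Cd
  | op : ℕ → Cd → Cd
  | pair : Cd → Cd → Cd
  | setc : Cd → Cd → Cd
  | bmin : Cd → Cd → Cd

deriving instance Countable for Cd

def consN (a : ℕ) (v : ℕ → ℕ) : ℕ → ℕ
  | 0 => a
  | n + 1 => v n

open Classical in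
/-- evaluation of a code at index `t` under an assignment -/
noncomputable def ev : Cd → ℕ → (ℕ → ℕ) → ℕ
  | .idx, t, _ => t
  | .var, _, v => v 0
  | .lift c, t, v => ev c t (fun i => v (i + 1))
  | .clo c, t, _ => ev c t (fun _ => 0)
  | .nat n, _, _ => n
  | .op i c, t, v => opf i (ev c t v)
  | .pair c d, t, v => Nat.pair (ev c t v) (ev d t v)
  | .setc b c, t, v => Encodable.encode
      ((Finset.range (ev b t v)).filter (fun x => ev c t (consN x v) ≠ 0))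
  | .bmin b c, t, v => if h : ∃ x < ev b t v, ev c t (consN x v) ≠ 0 then Nat.find h else ev b t v

/-- value of a closed code -/
noncomputable def E (c : Cd) (t : ℕ) : ℕ := ev c t (fun _ => 0)

end Pool.Agent.Helper617.EX
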