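import Pool.Agent.Helper617.EX.Mod4
import Pool.Agent.Helper617.EX.Defs
import Pool.Agent.Helper617.RM.DescSets

/-!
The extension principle for well-founded orders holds in the structure.
-/

namespace Pool.Agent.Helper617.EX

open Filter Pool.Agent.Helper617.RM

theorem rp_pair (x y : NN.M) : Ev fun t => rp (NN.pair x y) t = prn (rp x t) (rp y t) := by
  unfold L2Structure.pair
  refine ((rv_add (NN.mul (NN.add x y) (NN.add x y)) x).and
    (rv_mul (NN.add x y) (NN.add x y))).mono2 (rv_add x y) fun t h1 h2 => ?_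
  rw [h1.1, h1.2, h2]; rfl

theorem pair_inj {x y x' y' : NN.M} (h : NN.pair x y = NN.pair x' y') : x = x' ∧ y = y' := by
  rw [pp_ext] at h
  have key : Ev fun t => rp x t = rp x' t ∧ rp y t = rp y' t :=
    h.mono3 (rp_pair x y) (rp_pair x' y') fun t h1 h2 h3 => by
      rw [h2, h3] at h1
      exact prn_inj h1
  exact ⟨pp_ext.mpr (key.mono fun _ h => h.1), pp_ext.mpr (key.mono fun _ h => h.2)⟩

/-- the internal sets of the stages are infinite in the structure -/
theorem stage_infinite (k : ℕ) (b : NN.M) : ∃ a : NN.M, ¬ NN.lt a b ∧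
    Ev fun t => rp a t ∈ (st k t).1 := by
  obtain ⟨m, hm⟩ := rc_bdd b
  obtain ⟨j, hj, hadv⟩ := adv (max m k)
  obtain ⟨a, ha⟩ := wit (uC (j + 1)) (cMem .var (.clo (yC j))) (bdd_uC _)
    ((Ev.ge (j + 1)).mono fun t ht => by
      obtain ⟨x, hx, hx'⟩ := (hadv t ht).2
      refine ⟨x, by rw [E_uC]; exact hx', ?_⟩
      rw [tr_cMem, ev_clo, E_yC]
      exact hx)
  have hmem : Ev fun t => rp a t ∈ (st j t).1 := ha.mono fun t ht => by
    have := ht.2.1
    rw [tr_cMem, ev_clo, E_yC] at this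
    exact this
  refine ⟨a, ?_, ?_⟩
  · intro hlt
    rw [pp_lt'] at hlt
    refine ((hlt.and hmem).mono3 (bdd_le ((le_max_left m k).trans hj) hm) (Ev.ge j) ?_).false
    intro t h1 h2 h3
    have h4 := st_lb h3 _ h1.2
    have h5 : rp b t < (st j t).2.2 := h2
    omega
  · exact hmem.mono2 (Ev.ge j) fun t h1 h2 => (st_le ((le_max_right m k).trans hj) h2).1 h1

/-- numbers beyond the bound of a later stage are in the hull of a stage -/
theorem in_hull {k j : ℕ} (hj : k ≤ j)
    (hadv : ∀ t, j + 1 ≤ t → ∃ x ∈ (st j t).1, x < (st (j + 1) t).2.2) (y : NN.M) :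
    Ev fun t => ∀ z, (st (j + 1) t).2.2 ≤ z → z ≤ rp y t → z ∈ Hull (st k t).1 := by
  obtain ⟨m, hm⟩ := rc_bdd y
  have hm' : Ev fun t => rp y t < (st (max m k) t).2.2 := bdd_le (le_max_left _ _) hm
  refine hm'.mono3 (Ev.ge (j + 1)) (Ev.ge (max m k)) fun t h1 h2 h3 z hz1 hz2 => ?_
  obtain ⟨x, hx, hx'⟩ := hadv t h2
  obtain ⟨b, hb⟩ := st_ne h3
  have hb' := st_lb h3 b hb
  exact ⟨⟨x, (st_le hj (by omega)).1 hx, by omega⟩,
    b, (st_le (le_max_right m k) h3).1 hb, by omega⟩

/-- every number is below an element of a stage -/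
theorem below_stage (k : ℕ) (y : NN.M) : Ev fun t => ∃ b ∈ (st k t).1, rp y t ≤ b := by
  obtain ⟨m, hm⟩ := rc_bdd y
  have hm' : Ev fun t => rp y t < (st (max m k) t).2.2 := bdd_le (le_max_left _ _) hm
  refine hm'.mono2 (Ev.ge (max m k)) fun t h1 h3 => ?_
  obtain ⟨b, hb⟩ := st_ne h3
  have hb' := st_lb h3 b hb
  exact ⟨b, (st_le (le_max_right m k) h3).1 hb, by omega⟩

theorem not_lt' (x y : NN.M) : ¬ NN.lt x y ↔ Ev fun t => rp y t ≤ rp x t := by
  rw [pp_lt', ← Ev.not]
  exact Ev.congr (Ev.of fun t => not_lt)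

theorem ne_iff (x y : NN.M) : x ≠ y ↔ Ev fun t => rp x t ≠ rp y t := by
  rw [Ne, pp_ext, ← Ev.not]

theorem rel_iff {R : NN.M → NN.M → Prop} (hR : RelIn NN R) (x y : NN.M) :
    R x y ↔ Ev fun t => prn (rp x t) (rp y t) ∈ dec (E (KK ⟨_, hR⟩) t) := by
  have h1 : R x y ↔ NN.pair x y ∈ {p | ∃ x y, R x y ∧ p = NN.pair x y} := by
    constructor
    · intro h
      exact ⟨x, y, h, rfl⟩
    · rintro ⟨x', y', h, he⟩
      obtain ⟨rfl, rfl⟩ := pair_inj he
      exact h
  rw [h1]
  refine (mem_KK ⟨_, hR⟩ (NN.pair x y)).trans ?_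
  refine Ev.congr ((rp_pair x y).mono fun t ht => ?_)
  rw [ht]

/-- term for a pair -/
def pairT (a b : Term NN) : Term NN := .add (.mul (.add a b) (.add a b)) a

theorem good_all {X : Set NN.M} {R : NN.M → NN.M → Prop} (hR : RelIn NN R)
    (hpo : IsPartialOrd NN X R) (m : NN.M) :
    Ev fun t => good (E (KK ⟨_, hR⟩) t) (rp m t) := by
  let A : NN.Sets := ⟨_, hR⟩
  have hA : ∀ x y, NN.pair x y ∈ (A : Set NN.M) ↔ R x y := by
    intro x y
    constructor
    · rintro ⟨x', y', h, he⟩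
      obtain ⟨rfl, rfl⟩ := pair_inj he
      exact h
    · intro h
      exact ⟨x, y, h, rfl⟩
  let at' : Term NN → Term NN → Delta0 NN := fun a b =>
    .and (.neg (.eq a b)) (.mem (pairT a b) A)
  let φ : Delta0 NN := .ball (.add (.const m) .one) (.ball (.add (.const m) .one)
    (.ball (.add (.const m) .one) (.neg (.and (at' (.var 2) (.var 1))
      (.and (at' (.var 1) (.var 0)) (.neg (at' (.var 2) (.var 0))))))))
  have h1 : φ.Holds (fun _ => NN.zero) := by
    intro x _ y _ z _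
    rintro ⟨⟨h1, h2⟩, ⟨h3, h4⟩, h5⟩
    have h2' : R x y := (hA x y).mp h2
    have h4' : R y z := (hA y z).mp h4
    have h1' : ¬ x = y := h1
    have h3' : ¬ y = z := h3
    apply h5
    refine ⟨?_, (hA x z).mpr (hpo.trans _ _ _ h2' h4')⟩
    intro h6
    have h6' : x = z := h6
    subst h6'
    exact h1' (hpo.antisymm _ _ h2' h4')
  rw [los] at h1
  refine h1.mono fun t ht => ?_
  intro x hx y hy z hz hxy hyz
  by_contra hcon
  exact ht x (Nat.lt_succ_of_le hx) y (Nat.lt_succ_of_le hy) z (Nat.lt_succ_of_le hz)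
    ⟨hxy, hyz, hcon⟩

theorem ext : ExtOmegaStar NN := by
  intro X hX R hR hpo hwf
  set K := KK ⟨_, hR⟩ with hK
  obtain ⟨k, _, hreq⟩ := req_inf (4, K) 0
  have hgood := good_all hR hpo
  have hst : Ev fun t => (∃ C : Finset ℕ, Desc (Pt (E K t)) (C : Set ℕ) ∧
      Btw (C : Set ℕ) (st (k + 1) t).1) ∨
        ∃ (F : Finset ℕ) (t0 : ℕ), (st (k + 1) t).2.1.2 = (F, t0) :: (st k t).2.1.2 ∧
          STF F (TT t) ∧ ∀ x y, (∃ b ∈ (st (k + 1) t).1, x ≤ b) →
            (∃ b ∈ (st (k + 1) t).1, y ≤ b) → Pt (E K t) x y → prn x y ∈ F := by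
    refine (Ev.ge (k + 1)).mono fun t ht => ?_
    rw [st_succ, hreq]
    exact (stepOrd_spec (inv_st' ht) (E K t)).2.2.2.2
  rw [Ev.or_iff] at hst
  rcases hst with hC | hF
  · exfalso
    let cC : Cd := .op 14 (.pair (yC (k + 1)) K)
    have ecC : ∀ t, E cC t = witC (E (yC (k + 1)) t) (E K t) := by
      intro t
      show ev _ _ _ = _
      simp [cC, ev, opf]
      rfl
    have hC' : Ev fun t => Desc (Pt (E K t)) (dec (E cC t) : Set ℕ) ∧
        Btw (dec (E cC t) : Set ℕ) (st (k + 1) t).1 := hC.mono fun t ht => by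
      rw [ecC]
      have h1 := witC_spec (D := E (yC (k + 1)) t) (d := E K t) (by rw [E_yC]; exact ht)
      rw [E_yC] at h1
      exact h1
    obtain ⟨f, hf, hd⟩ := seq_of_set (A := {x | Ev fun t => rp x t ∈ dec (E cC t)}) hR hpo
      ⟨cC, fun _ => Iff.rfl⟩ (by
        intro b
        obtain ⟨y1, hy1, hy1'⟩ := stage_infinite (k + 1) b
        obtain ⟨y2, hy2, hy2'⟩ := stage_infinite (k + 1) (NN.add y1 NN.one)
        rw [not_lt'] at hy1 hy2
        have h12 : Ev fun t => rp y1 t < rp y2 t :=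
          hy2.mono3 (rv_add y1 NN.one) rv_one fun t h1 h2 h3 => by
            rw [h2, h3] at h1; omega
        have hbt := (hy1'.and hy2').mono3 h12 hC' fun t h1 h2 h3 =>
          h3.2 (rp y1 t) h1.1 (rp y2 t) h1.2 h2
        obtain ⟨z, hz⟩ := wit (rc y2) (cAnd (cLt (.clo (rc y1)) (cAdd .var (.nat 1)))
            (cMem .var (.clo cC))) (rc_bdd y2) (hbt.mono fun t ht => by
              obtain ⟨x, hx, hx1, hx2⟩ := ht
              refine ⟨x, hx2, ?_⟩
              rw [tr_cAnd, tr_cLt, tr_cMem, ev_cAdd, ev_clo, ev_clo, ev_var, ev_nat, consN_zero,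
                E_rc]
              exact ⟨by omega, hx⟩)
        have hz' : Ev fun t => rp y1 t ≤ rp z t ∧ rp z t ∈ dec (E cC t) :=
          hz.mono fun t ht => by
            have := ht.2.1
            rw [tr_cAnd, tr_cLt, tr_cMem, ev_cAdd, ev_clo, ev_clo, ev_var, ev_nat, consN_zero,
                E_rc] at this
            exact ⟨by omega, this.2⟩
        refine ⟨z, hz'.mono fun t h => h.2, ?_⟩
        rw [not_lt']
        exact hz'.mono2 hy1 fun t h1 h2 => h2.trans h1.1) (by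
        intro x hx y hy hxy
        rw [rel_iff hR]
        rw [pp_lt'] at hxy
        have hx' : Ev fun t => rp x t ∈ dec (E cC t) := hx
        have hy' : Ev fun t => rp y t ∈ dec (E cC t) := hy
        exact (hx'.and hy').mono3 hxy hC' fun t h1 h2 h3 =>
          (h3.1 _ h1.1 _ h1.2 h2).2.1)
    exact hwf ⟨f, hf, hd⟩
  · let cF : Cd := .op 15 (SC (k + 1))
    have ecF : ∀ t, dec (E cF t) = ((st (k + 1) t).2.1.2.headD (∅, 0)).1 := by
      intro t
      have : E cF t = Encodable.encode ((st (k + 1) t).2.1.2.headD (∅, 0)).1 := by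
        show ev _ _ _ = _
        simp [cF, ev, opf, st, E]
      rw [this, dec_encode]
    have hF' : Ev fun t => (∃ lab, (dec (E cF t), lab) ∈ (st (k + 1) t).2.1.2) ∧
        STF (dec (E cF t)) (TT t) ∧ ∀ x y, (∃ b ∈ (st (k + 1) t).1, x ≤ b) →
            (∃ b ∈ (st (k + 1) t).1, y ≤ b) → Pt (E K t) x y → prn x y ∈ dec (E cF t) :=
      hF.mono fun t ht => by
        obtain ⟨F, t0, h1, h2, h3⟩ := ht
        have e : dec (E cF t) = F := by
          rw [ecF, h1]; rfl
        rw [e, h1]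
        exact ⟨⟨t0, List.mem_cons_self⟩, h2, h3⟩
    let B : Set NN.M := {p | Ev fun t => rp p t ∈ dec (E cF t)}
    have hB : B ∈ NN.Sets := ⟨cF, fun _ => Iff.rfl⟩
    have hBp : ∀ x y, NN.pair x y ∈ B ↔ Ev fun t => prn (rp x t) (rp y t) ∈ dec (E cF t) := by
      intro x y
      refine Ev.congr ((rp_pair x y).mono fun t ht => ?_)
      rw [ht]
    let S : NN.M → NN.M → Prop := fun x y => x ∈ X ∧ y ∈ X ∧ (x = y ∨ NN.pair x y ∈ B)
    have hS : RelIn NN S := by
      refine codeRel_mem_D0 (R := S) ?_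
      refine RM.D0.and (RM.D0.mem (Tm.var 0) hX) (RM.D0.and (RM.D0.mem (Tm.var 1) hX)
        (RM.D0.or (RM.D0.eq (Tm.var 0) (Tm.var 1))
          (RM.D0.mem (Tm.pr (Tm.var 0) (Tm.var 1)) hB)))
    have hlin : IsLinearOrd NN X S := by
      refine ⟨⟨fun x y h => ⟨h.1, h.2.1⟩, fun x hx => ⟨hx, hx, Or.inl rfl⟩, ?_, ?_⟩, ?_⟩
      · rintro x y ⟨hx, hy, h1⟩ ⟨_, _, h2⟩
        rcases h1 with h1 | h1
        · exact h1
        rcases h2 with h2 | h2
        · exact h2.symm
        exfalso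
        rw [hBp] at h1 h2
        refine ((h1.and h2).mono3 (hF'.and (rp_top x)) (rp_top y) fun t h3 h4 h5 => ?_).false
        exact h4.1.2.1.1 _ h4.2.le (h4.1.2.1.2.1 _ h4.2.le _ h5.le _ h4.2.le h3.1 h3.2)
      · rintro x y z ⟨hx, hy, h1⟩ ⟨_, hz, h2⟩
        refine ⟨hx, hz, ?_⟩
        rcases h1 with rfl | h1
        · exact h2
        rcases h2 with rfl | h2
        · exact Or.inr h1
        right
        rw [hBp] at h1 h2 ⊢
        exact ((h1.and h2).and hF').mono3 ((rp_top x).and (rp_top y)) (rp_top z)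
          fun t h3 h4 h5 => h3.2.2.1.2.1 _ h4.1.le _ h4.2.le _ h5.le h3.1.1 h3.1.2
      · intro x hx y hy
        by_cases hxy : x = y
        · exact Or.inl ⟨hx, hy, Or.inl hxy⟩
        · have h1 := (ne_iff x y).mp hxy
          have h2 : Ev fun t => prn (rp x t) (rp y t) ∈ dec (E cF t) ∨
              prn (rp y t) (rp x t) ∈ dec (E cF t) :=
            (h1.and hF').mono3 (rp_top x) (rp_top y) fun t h3 h4 h5 =>
              h3.2.2.1.2.2 _ h4.le _ h5.le h3.1
          rw [Ev.or_iff] at h2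
          rcases h2 with h2 | h2
          · exact Or.inl ⟨hx, hy, Or.inr ((hBp x y).mpr h2)⟩
          · exact Or.inr ⟨hy, hx, Or.inr ((hBp y x).mpr h2)⟩
    refine ⟨S, hS, hlin, ?_, ?_⟩
    · intro x y hxy
      obtain ⟨hx, hy⟩ := hpo.dom _ _ hxy
      refine ⟨hx, hy, ?_⟩
      by_cases he : x = y
      · exact Or.inl he
      right
      rw [hBp]
      have h1 := (ne_iff x y).mp he
      rw [rel_iff hR] at hxy
      refine ((h1.and hxy).and hF').mono3 ((hgood x).and (hgood y))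
        ((below_stage (k + 1) x).and (below_stage (k + 1) y)) fun t h2 h3 h4 => ?_
      refine h2.2.2.2 _ _ h4.1 h4.2 ⟨h2.1.1, h2.1.2, ?_⟩
      rcases le_total (rp x t) (rp y t) with h5 | h5
      · rw [max_eq_right h5]; exact h3.2
      · rw [max_eq_left h5]; exact h3.1
    · rintro ⟨f, hf, hd⟩
      obtain ⟨A, ⟨KA, hKA⟩, hinf, hdA⟩ := desc_set hS hlin hf hd
      obtain ⟨k', hk', hreq'⟩ := req_inf (3, .pair cF KA) (k + 1)
      obtain ⟨j, hj, hadv⟩ := adv (k' + 1)
      obtain ⟨y, hyA, hy⟩ := hinf (mkp (uC (j + 1)) (bdd_uC _))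
      rw [not_lt'] at hy
      have hyK := (hKA y).mp hyA
      have hgap : Ev fun t => ∀ x ∈ Tr (dec (E cF t)) (dec (E KA t)),
          x ∉ Hull (st (k' + 1) t).1 := by
        refine hF'.mono2 (Ev.ge (k' + 1)) fun t h1 h2 => ?_
        rw [st_succ, hreq']
        have h3 := (stepDesc_spec (inv_st' h2) (E (.pair cF KA) t)).2.2.2.2
        have e1 : (E (.pair cF KA) t).unpair.1 = E cF t := by
          show (ev _ _ _).unpair.1 = _
          rw [ev_pair, Nat.unpair_pair]
          rfl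
        have e2 : (E (.pair cF KA) t).unpair.2 = E KA t := by
          show (ev _ _ _).unpair.2 = _
          rw [ev_pair, Nat.unpair_pair]
          rfl
        rw [e1, e2] at h3
        refine h3 ?_
        obtain ⟨lab, hlab⟩ := h1.1
        exact ⟨lab, (st_tle hk' (by omega)).2 _ hlab⟩
      -- the set is descending up to `y`
      have hdesc : Ev fun t => ∀ v < rp y t + 1, ∀ u < v, v ∈ dec (E KA t) → u ∈ dec (E KA t) →
          prn v u ∈ dec (E cF t) := by
        by_contra hcon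
        rw [← Ev.not] at hcon
        have eb : ∀ t, E (cAdd (rc y) (.nat 1)) t = rp y t + 1 := by
          intro t
          show ev _ _ _ = _
          rw [ev_cAdd]; rfl
        obtain ⟨v, hv⟩ := wit (cAdd (rc y) (.nat 1)) (cEx .var
          (cAnd (cMem (.lift .var) (.clo KA)) (cAnd (cMem .var (.clo KA))
            (cNot (cMem (cPr (.lift .var) .var) (.clo cF))))))
          (bdd_add (rc_bdd y) (bdd_nat 1)) (hcon.mono fun t ht => by
            push Not at ht
            obtain ⟨v, h1, u, h2, h3, h4, h5⟩ := ht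
            refine ⟨v, by rw [eb]; exact h1, ?_⟩
            rw [tr_cEx]
            refine ⟨u, h2, ?_⟩
            rw [tr_cAnd, tr_cAnd, tr_cMem, tr_cMem, tr_cNot, tr_cMem, ev_cPr]
            exact ⟨h3, h4, h5⟩)
        have hv' : Ev fun t => ∃ u < rp v t, rp v t ∈ dec (E KA t) ∧ u ∈ dec (E KA t) ∧
            prn (rp v t) u ∉ dec (E cF t) := hv.mono fun t ht => by
          have h1 := ht.2.1
          rw [tr_cEx] at h1
          obtain ⟨u, h2, h3⟩ := h1
          rw [tr_cAnd, tr_cAnd, tr_cMem, tr_cMem, tr_cNot, tr_cMem, ev_cPr] at h3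
          exact ⟨u, h2, h3⟩
        obtain ⟨u, hu⟩ := wit (rc v) (cAnd (cMem .var (.clo KA))
            (cNot (cMem (cPr (.clo (rc v)) .var) (.clo cF)))) (rc_bdd v) (hv'.mono fun t ht => by
            obtain ⟨u, h1, h2, h3, h4⟩ := ht
            refine ⟨u, h1, ?_⟩
            rw [tr_cAnd, tr_cMem, tr_cNot, tr_cMem, ev_cPr]
            exact ⟨h3, h4⟩)
        have hu' : Ev fun t => rp u t < rp v t ∧ rp u t ∈ dec (E KA t) ∧
            prn (rp v t) (rp u t) ∉ dec (E cF t) := hu.mono fun t ht => by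
          have h3 := ht.2.1
          rw [tr_cAnd, tr_cMem, tr_cNot, tr_cMem, ev_cPr] at h3
          exact ⟨ht.1, h3⟩
        have huA : u ∈ A := (hKA u).mpr (hu'.mono fun t h => h.2.1)
        have hvA : v ∈ A := (hKA v).mpr (hv'.mono fun t h => by
          obtain ⟨u, _, h2, _⟩ := h
          exact h2)
        have huv : NN.lt u v := hu'.mono fun t h => h.1
        obtain ⟨_, _, h6⟩ := hdA u huA v hvA huv
        rcases h6 with h6 | h6
        · subst h6
          refine (hu'.mono fun t h => ?_).false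
          exact absurd h.1 (lt_irrefl _)
        · rw [hBp] at h6
          exact (h6.mono2 hu' fun t h7 h8 => h8.2.2 h7).false
      refine ((hy.and (rp_mkp (uC (j + 1)) (bdd_uC _))).mono3 ((hyK.and hdesc).and hgap)
        (in_hull hj (fun t ht => (hadv t ht).2) y) ?_).false
      rintro t ⟨h1, h2⟩ ⟨⟨h3, h4⟩, h5⟩ h6
      rw [h2, E_uC] at h1
      refine h5 (rp y t) ⟨h3, ?_⟩ (h6 _ h1 le_rfl)
      intro u hu v hv huv hvy
      exact h4 v (Nat.lt_succ_of_le hvy) u huv hv hu

end Pool.Agent.Helper617.EX
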