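import Pool.Agent.Helper617.EX.Mod5

/-!
Arithmetical comprehension fails in the structure.
-/

namespace Pool.Agent.Helper617.EX

open Filter Pool.Agent.Helper617.RM

/-- the largest colour of a stage -/
noncomputable def hd (k t : ℕ) : ℕ := (st k t).2.1.1.headD 0

theorem st_cons {k t : ℕ} (h : k + 1 ≤ t) : ∃ T, (st k t).2.1.1 = hd k t :: T := by
  obtain ⟨c, T, hT⟩ := (inv_st' h).cons
  refine ⟨T, ?_⟩
  unfold hd
  rw [hT]
  rfl

/-- heads of sublists -/
theorem head_le {c c' : ℕ} {T T' : List ℕ} (hs : (c' :: T').Sublist (c :: T))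
    (hp : (c :: T).Pairwise (· > ·)) : c' ≤ c := by
  have h1 : c' ∈ c :: T := hs.subset List.mem_cons_self
  rcases List.mem_cons.mp h1 with h2 | h2
  · exact h2.le
  · exact (List.rel_of_pairwise_cons hp h2).le

theorem st_sorted {k t : ℕ} (h : k ≤ t) : (st k t).2.1.1.Pairwise (· > ·) :=
  (Tl_sorted _).sublist (inv_st k t h).2.2.2.1

theorem hd_le {i j t : ℕ} (hij : i ≤ j) (h : j + 1 ≤ t) : hd j t ≤ hd i t := by
  obtain ⟨T, hT⟩ := st_cons (show i + 1 ≤ t by omega)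
  obtain ⟨T', hT'⟩ := st_cons h
  have h1 := (st_tle hij (show j ≤ t by omega)).1
  have h2 := st_sorted (show i ≤ t by omega)
  rw [hT, hT'] at h1
  rw [hT] at h2
  exact head_le h1 h2

theorem hd_zero {t : ℕ} (h : 1 ≤ t) : hd 0 t ≤ BB t := by
  obtain ⟨T, hT⟩ := st_cons (show 0 + 1 ≤ t by omega)
  have h1 : hd 0 t ∈ (st 0 t).2.1.1 := by
    rw [hT]; exact List.mem_cons_self
  rw [st_zero] at h1
  exact (mem_Tl h1).2

/-- colours in the hull of a stage -/
theorem col_le {k t z : ℕ} (h : k + 1 ≤ t) (hz : z ∈ Hull (st k t).1) : cl t z ≤ hd k t := by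
  obtain ⟨T, hT⟩ := st_cons h
  have h1 := (inv_st' h).1
  rw [hT] at h1
  exact L_Cv h1 z hz

/-- numbers which occur as lower bounds of colours infinitely often -/
def JJ (c : NN.M) : Prop := ∀ x, ∃ y, NN.lt x y ∧ Ev fun t => rp c t ≤ cl t (rp y t)

theorem JJ_hd {c : NN.M} (h : JJ c) (k : ℕ) : Ev fun t => rp c t ≤ hd k t := by
  obtain ⟨j, hj, hadv⟩ := adv k
  obtain ⟨y, hy, hc⟩ := h (mkp (uC (j + 1)) (bdd_uC _))
  rw [pp_lt'] at hy
  refine ((hy.and (rp_mkp (uC (j + 1)) (bdd_uC _))).mono3 (hc.and (Ev.ge (k + 1)))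
    (in_hull hj (fun t ht => (hadv t ht).2) y) ?_)
  rintro t ⟨h1, h2⟩ ⟨h3, h4⟩ h5
  rw [h2, E_uC] at h1
  exact h3.trans (col_le h4 (h5 _ h1.le le_rfl))

theorem hd_JJ {c : NN.M} (h : ∀ k, Ev fun t => rp c t ≤ hd k t) : JJ c := by
  intro x
  obtain ⟨m, hm⟩ := rc_bdd x
  obtain ⟨k, hk, hreq⟩ := req_inf (1, .idx) m
  obtain ⟨j, hj, hadv⟩ := adv (k + 1)
  have hx := bdd_le hk hm
  have ecl : ∀ t z, ev (.op 12 (.pair .idx .var)) t (consN z fun _ => 0) = cl t z := by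
    intro t z
    simp [ev, opf, consN]
  obtain ⟨y, hy⟩ := wit (uC (j + 1)) (cAnd (cLt (.clo (rc x)) .var)
      (cLt (.clo (rc c)) (cAdd (.op 12 (.pair .idx .var)) (.nat 1)))) (bdd_uC _)
    ((hx.and (h k)).mono2 (Ev.ge (j + 1)) fun t ht ht2 => by
      obtain ⟨z, ⟨a, ha, haz⟩, hz, hzy⟩ :=
        (stepPass_spec (inv_st' (show k + 1 ≤ t by omega)) (E .idx t)).2.2.2.2
      have e : st (k + 1) t = stepPass t (t - (k + 1)) (st k t) (E .idx t) := by
        rw [st_succ, hreq]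
        rfl
      rw [← e] at hzy
      obtain ⟨x', hx', hx''⟩ := (hadv t ht2).2
      have h1 := hzy x' ((st_le hj (by omega)).1 hx')
      have h2 := st_lb (show k ≤ t by omega) a ha
      have h3 : rp x t < (st k t).2.2 := ht.1
      refine ⟨z, by rw [E_uC]; omega, ?_⟩
      rw [tr_cAnd, tr_cLt, tr_cLt, ev_cAdd, ecl, ev_clo, ev_clo, ev_var, ev_nat, consN_zero,
        E_rc, E_rc]
      refine ⟨by omega, ?_⟩
      have h4 : rp c t ≤ cl t z := by
        rw [hz]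
        exact ht.2
      omega)
  have hy' : Ev fun t => rp x t < rp y t ∧ rp c t ≤ cl t (rp y t) := hy.mono fun t ht => by
    have h1 := ht.2.1
    rw [tr_cAnd, tr_cLt, tr_cLt, ev_cAdd, ecl, ev_clo, ev_clo, ev_var, ev_nat, consN_zero,
        E_rc, E_rc] at h1
    exact ⟨h1.1, by omega⟩
  exact ⟨y, hy'.mono fun t h => h.1, hy'.mono fun t h => h.2⟩

theorem JJ_succ {c : NN.M} (h : JJ c) : JJ (NN.add c NN.one) := by
  refine hd_JJ fun k => ?_
  obtain ⟨k', hk', hreq⟩ := req_inf (0, .idx) k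
  refine ((JJ_hd h (k' + 1)).and (rv_add c NN.one)).mono3 rv_one (Ev.ge (k' + 2))
    fun t h1 h2 h3 => ?_
  rw [h1.2, h2]
  have h4 := hd_le hk' (show k' + 1 ≤ t by omega)
  obtain ⟨T, hT⟩ := st_cons (show k' + 1 ≤ t by omega)
  obtain ⟨T', hT'⟩ := st_cons (show k' + 1 + 1 ≤ t by omega)
  have h5 := (stepTop_spec (inv_st' (show k' + 1 ≤ t by omega)) (E .idx t)).2.2.2.2
  have e : st (k' + 1) t = stepTop t (t - (k' + 1)) (st k' t) (E .idx t) := by
    rw [st_succ, hreq]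
    rfl
  rw [← e, hT, hT'] at h5
  have h6 := st_sorted (show k' ≤ t by omega)
  rw [hT] at h6
  have h7 : hd (k' + 1) t < hd k' t := by
    refine List.rel_of_pairwise_cons h6 ?_
    have h8 : hd (k' + 1) t ∈ hd (k' + 1) t :: T' := List.mem_cons_self
    rw [h5] at h8
    exact h8
  have h8 := h1.1
  omega

theorem JJ_zero : JJ NN.zero := hd_JJ fun k => rv_zero.mono fun t ht => by
  rw [ht]; exact Nat.zero_le _

theorem exists_not_JJ : ∃ c, ¬ JJ c := by
  have hb : Bdd (.op 13 .idx) := ⟨0, Ev.of fun t => by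
    rw [st_zero]
    show ev _ _ _ < _
    simp [ev, opf]⟩
  refine ⟨mkp (.op 13 .idx) hb, fun h => ?_⟩
  refine ((JJ_hd h 0).mono3 (rp_mkp (.op 13 .idx) hb) (Ev.ge 1) fun t h1 h2 h3 => ?_).false
  have h4 := hd_zero h3
  have e : E (.op 13 .idx) t = MB t := by
    show ev _ _ _ = _
    simp [ev, opf]
  rw [h2, e] at h1
  unfold MB at h1
  omega

/-- code of the set of pairs of points and lower bounds of their colours -/
def CC : Cd := .setc topC (cEx (cAdd .var (.nat 1)) (cEx (cAdd (.lift .var) (.nat 1))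
  (cAnd (cEq (.lift (.lift .var)) (cPr (.lift .var) .var))
    (cLt .var (cAdd (.op 12 (.pair .idx (.lift .var))) (.nat 1))))))

theorem mem_CC (t p : ℕ) : p ∈ dec (E CC t) ↔ p < TT t + 1 ∧ ∃ y < p + 1, ∃ c < p + 1,
    p = prn y c ∧ c < cl t y + 1 := by
  unfold E CC
  rw [mem_setc, ev_topC, tr_cEx]
  have : ∀ y w, ev (.op 12 (.pair .idx (.lift .var))) t (consN y w) = cl t (w 0) := by
    intro y w
    simp [ev, opf, consN]
  simp only [tr_cEx, tr_cAnd, tr_cEq, tr_cLt, ev_cAdd, ev_var, ev_nat, ev_lift, consN_zero,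
    consN_succ, ev_cPr, this]

theorem CC_mem : {x : NN.M | Ev fun t => rp x t ∈ dec (E CC t)} ∈ NN.Sets :=
  ⟨CC, fun _ => Iff.rfl⟩

theorem mem_CS (y c : NN.M) : NN.pair y c ∈ {x : NN.M | Ev fun t => rp x t ∈ dec (E CC t)} ↔
    Ev fun t => rp c t ≤ cl t (rp y t) := by
  constructor
  · intro h
    have h' : Ev fun t => rp (NN.pair y c) t ∈ dec (E CC t) := h
    refine h'.mono2 (rp_pair y c) fun t h1 h2 => ?_
    rw [mem_CC] at h1
    obtain ⟨_, y', _, c', _, hx, hc⟩ := h1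
    rw [h2] at hx
    obtain ⟨e1, e2⟩ := prn_inj hx
    rw [e1, e2]; omega
  · intro h
    show Ev fun t => rp (NN.pair y c) t ∈ dec (E CC t)
    refine h.mono3 (rp_pair y c) (rp_top (NN.pair y c)) fun t h1 h2 h3 => ?_
    rw [mem_CC]
    refine ⟨by omega, rp y t, ?_, rp c t, ?_, h2, by omega⟩
    · rw [h2]
      unfold prn
      nlinarith [Nat.zero_le ((rp y t + rp c t) * (rp y t + rp c t))]
    · rw [h2]
      unfold prn
      nlinarith [Nat.zero_le ((rp y t + rp c t) * (rp y t + rp c t))]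

theorem not_arith : ¬ ArithComp NN := by
  intro h
  let A : NN.Sets := ⟨_, CC_mem⟩
  let φ : AForm NN := .neg (.all (.neg (.all (.neg (.and (.lt (.var 1) (.var 0))
    (.mem (pairT (.var 0) (.var 2)) A))))))
  have hφ := h φ (fun _ => NN.zero)
  set Z : Set NN.M := {n | φ.Holds (RM.cons n fun _ => NN.zero)} with hZ
  have hZJ : ∀ c, c ∈ Z ↔ ¬ JJ c := by
    intro c
    have h1 : c ∈ Z ↔ ¬ ∀ x, ¬ ∀ y, ¬ (NN.lt x y ∧ NN.pair y c ∈ (A : Set NN.M)) := Iff.rfl
    rw [h1]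
    refine not_congr (forall_congr' fun x => ?_)
    rw [not_forall]
    refine exists_congr fun y => ?_
    rw [not_not]
    exact and_congr_right fun _ => mem_CS y c
  obtain ⟨c0, hc0⟩ := exists_not_JJ
  obtain ⟨n, _, h1, h2⟩ := lnp_D0 (P := fun c => c ∈ Z) (RM.D0.mem (Tm.var 0) hφ) c0
    ((hZJ c0).mpr hc0)
  rcases eq_zero_or_succ n with hn | ⟨m, hm⟩
  · exact (hZJ n).mp h1 (by rw [hn]; exact JJ_zero)
  · have h3 : JJ m := by
      by_contra hcon
      exact h2 m (by rw [hm]; exact lt_add_one_iff'.2 le_rfl) ((hZJ m).mpr hcon)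
    exact (hZJ n).mp h1 (by rw [hm]; exact JJ_succ h3)

end Pool.Agent.Helper617.EX
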