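import Mathlib

/-!
Strict rank functions with ordinal values, and their behaviour under adding comparabilities
between finitely many points.
-/

namespace Pool.Agent.Helper617.EX

open Ordinal

universe u

/-! ### remainders -/

theorem sub_anti {a b : Ordinal.{0}} (c : Ordinal.{0}) (h : a ≤ b) : c - b ≤ c - a := by
  rw [Ordinal.sub_le]
  exact (Ordinal.le_add_sub c a).trans (by gcongr)

theorem sub_mono {a b : Ordinal.{0}} (c : Ordinal.{0}) (h : a ≤ b) : a - c ≤ b - c := by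
  rw [Ordinal.sub_le]
  exact h.trans (Ordinal.le_add_sub b c)

/-- an ordinal has finitely many remainders -/
theorem rem_finite (σ : Ordinal.{0}) {ι : Type} (f : ι → Ordinal.{0}) :
    (Set.range fun i => σ - f i).Finite := by
  by_contra hinf
  have hinf' : (Set.range fun i => σ - f i).Infinite := hinf
  let a := hinf'.natEmbedding
  have hex : ∀ n, ∃ x : Ordinal.{0}, (a n : Ordinal.{0}) = σ - x := by
    intro n
    obtain ⟨i, hi⟩ := (a n).2
    exact ⟨f i, hi.symm⟩
  choose x hx using hex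
  obtain ⟨g, hg⟩ := exists_increasing_or_nonincreasing_subseq (· < ·)
    (fun n => (a n : Ordinal.{0}))
  rcases hg with hg | hg
  · -- the remainders increase, so the subtracted ordinals decrease
    have hdec : ∀ n, x (g (n + 1)) < x (g n) := by
      intro n
      by_contra hle
      have h1 := sub_anti σ (not_lt.mp hle)
      have h2 := hg n (n + 1) (Nat.lt_succ_self n)
      rw [← hx, ← hx] at h1
      exact absurd h2 (not_lt.mpr h1)
    exact (RelEmbedding.wellFounded_iff_isEmpty.mp (wellFounded_lt (α := Ordinal.{0}))).false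
      (RelEmbedding.natGT (fun n => x (g n)) hdec)
  · have hdec : ∀ n, (a (g (n + 1)) : Ordinal.{0}) < a (g n) := by
      intro n
      have h1 := hg n (n + 1) (Nat.lt_succ_self n)
      rcases lt_or_eq_of_le (not_lt.mp h1) with h | h
      · exact h
      · exfalso
        have h2 := a.injective (Subtype.ext h)
        have h3 := g.injective h2
        omega
    exact (RelEmbedding.wellFounded_iff_isEmpty.mp (wellFounded_lt (α := Ordinal.{0}))).false
      (RelEmbedding.natGT (fun n => (a (g n) : Ordinal.{0})) hdec)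

/-- `x` is at most `y` up to the class given by the remainders of `σ + 1` for `σ ∈ Σ` -/
def Le (S : Set Ordinal.{0}) (x y : Ordinal.{0}) : Prop :=
  ∀ σ ∈ S, (σ + 1) - y ≤ (σ + 1) - x

theorem Le.refl (S : Set Ordinal.{0}) (x : Ordinal.{0}) : Le S x x := fun _ _ => le_rfl

theorem Le.trans {S : Set Ordinal.{0}} {x y z : Ordinal.{0}} (h : Le S x y) (h' : Le S y z) :
    Le S x z := fun σ hσ => (h' σ hσ).trans (h σ hσ)

theorem Le.of_le (S : Set Ordinal.{0}) {x y : Ordinal.{0}} (h : x ≤ y) : Le S x y :=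
  fun _ _ => sub_anti _ h

theorem Le.total (S : Set Ordinal.{0}) (x y : Ordinal.{0}) : Le S x y ∨ Le S y x := by
  rcases le_total x y with h | h
  · exact Or.inl (.of_le S h)
  · exact Or.inr (.of_le S h)

theorem Le.add {S : Set Ordinal.{0}} {x x' : Ordinal.{0}} (h : Le S x x') (δ : Ordinal.{0}) :
    Le S (x + δ) (x' + δ) := by
  intro σ hσ
  rw [← Ordinal.sub_sub, ← Ordinal.sub_sub]
  exact sub_mono _ (h σ hσ)

theorem Le.max {S : Set Ordinal.{0}} {x y z : Ordinal.{0}} (h : Le S x z) (h' : Le S y z) :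
    Le S (max x y) z := by
  rcases le_total x y with h1 | h1
  · rwa [max_eq_right h1]
  · rwa [max_eq_left h1]

/-- on elements of `S` the relation is the usual order -/
theorem Le.le {S : Set Ordinal.{0}} {x σ : Ordinal.{0}} (h : Le S x σ) (hσ : σ ∈ S) : x ≤ σ := by
  have h1 := h σ hσ
  by_contra hlt
  rw [not_le] at hlt
  have h2 : (σ + 1) - x = 0 := Ordinal.sub_eq_zero_iff_le.mpr (by
    rw [← Order.succ_eq_add_one]; exact Order.succ_le_of_lt hlt)
  rw [h2, Ordinal.add_sub_cancel] at h1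
  exact absurd h1 (by simp)

theorem Le.lt {S : Set Ordinal.{0}} {x y σ : Ordinal.{0}} (h : Le S x y) (hσ : σ ∈ S)
    (hy : y < σ) : x < σ := by
  have h1 := h σ hσ
  have hx : x ≤ σ := (h.trans (.of_le S hy.le)).le hσ
  rcases lt_or_eq_of_le hx with h2 | h2
  · exact h2
  · exfalso
    subst h2
    rw [Ordinal.add_sub_cancel, Ordinal.sub_le] at h1
    -- x + 1 ≤ y + 1
    rw [← Order.succ_eq_add_one, ← Order.succ_eq_add_one, Order.succ_le_succ_iff] at h1
    exact absurd h1 (not_le.mpr hy)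

/-! ### strict rank functions -/

/-- strict partial orders -/
structure SPO (Q : ℕ → ℕ → Prop) : Prop where
  irr : ∀ x, ¬ Q x x
  trans : ∀ x y z, Q x y → Q y z → Q x z

theorem SPO.asymm {Q : ℕ → ℕ → Prop} (h : SPO Q) {x y : ℕ} (h1 : Q x y) (h2 : Q y x) : False :=
  h.irr x (h.trans _ _ _ h1 h2)

/-- reflexive closure -/
def RC (Q : ℕ → ℕ → Prop) (x y : ℕ) : Prop := x = y ∨ Q x y

theorem RC.rfl {Q : ℕ → ℕ → Prop} {x : ℕ} : RC Q x x := Or.inl (Eq.refl x)

theorem SPO.rr {Q : ℕ → ℕ → Prop} (h : SPO Q) {x y z : ℕ} (h1 : RC Q x y) (h2 : RC Q y z) :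
    RC Q x z := by
  rcases h1 with rfl | h1
  · exact h2
  · rcases h2 with rfl | h2
    · exact Or.inr h1
    · exact Or.inr (h.trans _ _ _ h1 h2)

theorem SPO.rs {Q : ℕ → ℕ → Prop} (h : SPO Q) {x y z : ℕ} (h1 : RC Q x y) (h2 : Q y z) :
    Q x z := by
  rcases h1 with rfl | h1
  · exact h2
  · exact h.trans _ _ _ h1 h2

theorem SPO.sr {Q : ℕ → ℕ → Prop} (h : SPO Q) {x y z : ℕ} (h1 : Q x y) (h2 : RC Q y z) :
    Q x z := by
  rcases h2 with rfl | h2
  · exact h1
  · exact h.trans _ _ _ h1 h2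

/-- `ρ` is a strict rank function for the order `Q` and the pairs `R` -/
structure SR (Q R : ℕ → ℕ → Prop) (ρ : ℕ → Ordinal.{0}) : Prop where
  mono : ∀ x y, Q x y → ρ x ≤ ρ y
  strict : ∀ x y p q, R p q → Q p x → RC Q y q → ρ y < ρ x

theorem SR.rmono {Q R : ℕ → ℕ → Prop} {ρ : ℕ → Ordinal.{0}} (h : SR Q R ρ) {x y : ℕ}
    (hxy : RC Q x y) : ρ x ≤ ρ y := by
  rcases hxy with rfl | h1
  · exact le_rfl
  · exact h.mono _ _ h1

/-- add one comparability -/
def Ad (Q : ℕ → ℕ → Prop) (a b x y : ℕ) : Prop := Q x y ∨ (RC Q x a ∧ RC Q b y)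

theorem Ad.rc {Q : ℕ → ℕ → Prop} {a b x y : ℕ} (h : RC (Ad Q a b) x y) :
    RC Q x y ∨ (RC Q x a ∧ RC Q b y) := by
  rcases h with h | h | h
  · exact Or.inl (Or.inl h)
  · exact Or.inl (Or.inr h)
  · exact Or.inr h

theorem Ad.spo {Q : ℕ → ℕ → Prop} (hQ : SPO Q) {a b : ℕ} (hab : ¬ RC Q b a) : SPO (Ad Q a b) := by
  refine ⟨?_, ?_⟩
  · rintro x (h | ⟨h1, h2⟩)
    · exact hQ.irr x h
    · exact hab (hQ.rr h2 h1)
  · rintro x y z (h | ⟨h1, h2⟩) (h' | ⟨h1', h2'⟩)
    · exact Or.inl (hQ.trans _ _ _ h h')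
    · exact Or.inr ⟨hQ.rr (Or.inr h) h1', h2'⟩
    · exact Or.inr ⟨h1, hQ.rr h2 (Or.inr h')⟩
    · exact Or.inr ⟨h1, h2'⟩

open Classical in
/-- the new rank function -/
noncomputable def Vn (Q : ℕ → ℕ → Prop) (a b : ℕ) (ρ : ℕ → Ordinal.{0}) (x : ℕ) : Ordinal.{0} :=
  if RC Q b x then max (ρ x) (ρ a + (ρ x - ρ b)) else ρ x

theorem le_Vn (Q : ℕ → ℕ → Prop) (a b : ℕ) (ρ : ℕ → Ordinal.{0}) (x : ℕ) : ρ x ≤ Vn Q a b ρ x := by
  unfold Vn
  split_ifs
  · exact le_max_left _ _
  · exact le_rfl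

theorem Vn.sr {Q R : ℕ → ℕ → Prop} {ρ : ℕ → Ordinal.{0}} (hQ : SPO Q)
    (hR : ∀ p q, R p q → RC Q q p) (hρ : SR Q R ρ) {a b : ℕ} (hab : ¬ RC Q b a)
    (ha : ∀ q, ¬ R a q) : SR (Ad Q a b) R (Vn Q a b ρ) := by
  have hup : ∀ x, RC Q b x → ρ a ≤ Vn Q a b ρ x := by
    intro x hx
    unfold Vn
    rw [if_pos hx]
    exact (le_self_add).trans (le_max_right _ _)
  refine ⟨?_, ?_⟩
  · rintro x y (h | ⟨h1, h2⟩)
    · by_cases hbx : RC Q b x
      · have hby : RC Q b y := Or.inr (hQ.rs hbx h)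
        unfold Vn
        rw [if_pos hbx, if_pos hby]
        refine max_le_max (hρ.mono _ _ h) ?_
        gcongr
        exact sub_mono _ (hρ.mono _ _ h)
      · have h1 : Vn Q a b ρ x = ρ x := by unfold Vn; rw [if_neg hbx]
        rw [h1]
        exact (hρ.mono _ _ h).trans (le_Vn _ _ _ _ _)
    · have hbx : ¬ RC Q b x := fun h => hab (hQ.rr h h1)
      have h3 : Vn Q a b ρ x = ρ x := by unfold Vn; rw [if_neg hbx]
      rw [h3]
      exact (hρ.rmono h1).trans (hup y h2)
  · intro x y p q hpq hpx hyq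
    rcases hpx with h1 | ⟨h1, h1'⟩
    · rcases Ad.rc hyq with h2 | ⟨h2, h2'⟩
      · have h3 := hρ.strict x y p q hpq h1 h2
        by_cases hby : RC Q b y
        · have hyx : RC Q y x := hQ.rr (hQ.rr h2 (hR p q hpq)) (Or.inr h1)
          have hbx : RC Q b x := hQ.rr hby hyx
          unfold Vn
          rw [if_pos hby, if_pos hbx]
          refine max_lt_max h3 ?_
          refine (add_lt_add_iff_left _).mpr ?_
          rw [Ordinal.lt_sub]
          rw [Ordinal.add_sub_cancel_of_le (hρ.rmono hby)]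
          exact h3
        · have h4 : Vn Q a b ρ y = ρ y := by unfold Vn; rw [if_neg hby]
          rw [h4]
          exact h3.trans_le (le_Vn _ _ _ _ _)
      · -- `p < x`, `b ≤ q`, `y ≤ a`
        have hby : ¬ RC Q b y := fun h => hab (hQ.rr h h2)
        have h4 : Vn Q a b ρ y = ρ y := by unfold Vn; rw [if_neg hby]
        have hbx : RC Q b x := hQ.rr (hQ.rr h2' (hR p q hpq)) (Or.inr h1)
        have h5 := hρ.strict x b p q hpq h1 h2'
        rw [h4]
        unfold Vn
        rw [if_pos hbx]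
        refine lt_of_lt_of_le ?_ (le_max_right _ _)
        refine (hρ.rmono h2).trans_lt ?_
        refine lt_add_of_pos_right _ ?_
        rw [Ordinal.lt_sub, add_zero]
        exact h5
    · -- `p ≤ a`, `b ≤ x`
      have hpa : Q p a := by
        rcases h1 with rfl | h1
        · exact absurd hpq (ha q)
        · exact h1
      have hqa : RC Q q a := hQ.rr (hR p q hpq) h1
      rcases Ad.rc hyq with h2 | ⟨h2, h2'⟩
      · have hby : ¬ RC Q b y := fun h => hab (hQ.rr h (hQ.rr h2 hqa))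
        have h4 : Vn Q a b ρ y = ρ y := by unfold Vn; rw [if_neg hby]
        rw [h4]
        exact (hρ.strict a y p q hpq hpa h2).trans_le (hup x h1')
      · exact absurd (hQ.rr h2' hqa) hab

theorem Vn.le {S : Set Ordinal.{0}} {Q R : ℕ → ℕ → Prop} {ρ : ℕ → Ordinal.{0}} (hρ : SR Q R ρ)
    {a b : ℕ} (hab : Le S (ρ a) (ρ b)) (x : ℕ) : Le S (Vn Q a b ρ x) (ρ x) := by
  unfold Vn
  split_ifs with h
  · refine Le.max (.refl _ _) ?_
    have h1 := hab.add (ρ x - ρ b)
    rwa [Ordinal.add_sub_cancel_of_le (hρ.rmono h)] at h1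
  · exact .refl _ _

/-- adding the comparabilities of a list of pairs -/
theorem add_list {Q R W : ℕ → ℕ → Prop} {ρ : ℕ → Ordinal.{0}} {S : Set Ordinal.{0}} {e : ℕ}
    (hQ : SPO Q) (hR : ∀ p q, R p q → RC Q q p) (hρ : SR Q R ρ) (hRe : ∀ p q, R p q → e < p)
    (hW : SPO W) (hQW : ∀ x y, x ≤ e → y ≤ e → Q x y → W x y)
    (hWρ : ∀ x y, x ≤ e → y ≤ e → W x y → Le S (ρ x) (ρ y)) :
    ∀ ℓ : List (ℕ × ℕ), (∀ p ∈ ℓ, p.1 ≤ e ∧ p.2 ≤ e ∧ W p.1 p.2) →
      ∃ (Q' : ℕ → ℕ → Prop) (ρ' : ℕ → Ordinal.{0}), SPO Q' ∧ SR Q' R ρ' ∧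
        (∀ x y, Q x y → Q' x y) ∧ (∀ x y, x ≤ e → y ≤ e → Q' x y → W x y) ∧
        (∀ p ∈ ℓ, Q' p.1 p.2) ∧ (∀ x, ρ x ≤ ρ' x) ∧ (∀ x, Le S (ρ' x) (ρ x)) ∧
        ∀ x y, Q' x y → Q x y ∨ ∃ u v, u ≤ e ∧ v ≤ e ∧ RC Q x u ∧ RC Q' u v ∧ RC Q v y := by
  intro ℓ
  induction ℓ with
  | nil =>
    intro _
    exact ⟨Q, ρ, hQ, hρ, fun _ _ h => h, hQW, by simp, fun _ => le_rfl, fun _ => .refl _ _,
      fun _ _ h => Or.inl h⟩
  | cons p ℓ ih =>
    intro hℓ
    obtain ⟨Q1, ρ1, h1, h2, h3, h4, h5, h6, h7, h8⟩ := ih (fun q hq => hℓ q (List.mem_cons_of_mem _ hq))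
    obtain ⟨pa, pb, pW⟩ := hℓ p List.mem_cons_self
    obtain ⟨a, b⟩ := p
    simp only at pa pb pW
    by_cases hab : Q1 a b
    · refine ⟨Q1, ρ1, h1, h2, h3, h4, ?_, h6, h7, h8⟩
      intro q hq
      rcases List.mem_cons.mp hq with rfl | hq
      · exact hab
      · exact h5 q hq
    · have hba : ¬ RC Q1 b a := by
        rintro (h | h)
        · subst h; exact hW.irr _ pW
        · exact hW.asymm pW (h4 b a pb pa h)
      have hLe : Le S (ρ1 a) (ρ1 b) :=
        (h7 a).trans ((hWρ a b pa pb pW).trans (.of_le S (h6 b)))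
      refine ⟨Ad Q1 a b, Vn Q1 a b ρ1, Ad.spo h1 hba, Vn.sr h1 (fun p q h => ?_) h2 hba
        (fun q h => absurd (hRe a q h) (by omega)), fun x y h => Or.inl (h3 x y h), ?_, ?_,
        fun x => (h6 x).trans (le_Vn _ _ _ _ _), fun x => (Vn.le h2 hLe x).trans (h7 x), ?_⟩
      · rcases hR p q h with h | h
        · exact Or.inl h
        · exact Or.inr (h3 _ _ h)
      · rintro x y hx hy (h | ⟨g1, g2⟩)
        · exact h4 x y hx hy h
        · have e1 : RC W x a := by
            rcases g1 with g1 | g1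
            · exact Or.inl g1
            · exact Or.inr (h4 x a hx pa g1)
          have e2 : RC W b y := by
            rcases g2 with g2 | g2
            · exact Or.inl g2
            · exact Or.inr (h4 b y pb hy g2)
          exact hW.rs e1 (hW.sr pW e2)
      · intro q hq
        rcases List.mem_cons.mp hq with rfl | hq
        · exact Or.inr ⟨Or.inl rfl, Or.inl rfl⟩
        · exact Or.inl (h5 q hq)
      · rintro x y (h | ⟨g1, g2⟩)
        · rcases h8 x y h with h | ⟨u, v, hu, hv, e1, e2, e3⟩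
          · exact Or.inl h
          · refine Or.inr ⟨u, v, hu, hv, e1, ?_, e3⟩
            rcases e2 with e2 | e2
            · exact Or.inl e2
            · exact Or.inr (Or.inl e2)
        · -- `x ≤ a`, `b ≤ y`
          right
          obtain ⟨u, hu, e1, e2⟩ : ∃ u, u ≤ e ∧ RC Q x u ∧ RC Q1 u a := by
            rcases g1 with g1 | g1
            · exact ⟨a, pa, Or.inl g1, Or.inl rfl⟩
            · rcases h8 x a g1 with h | ⟨u, v, hu, hv, e1, e2, e3⟩
              · exact ⟨a, pa, Or.inr h, Or.inl rfl⟩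
              · refine ⟨u, hu, e1, h1.rr e2 ?_⟩
                rcases e3 with e3 | e3
                · exact Or.inl e3
                · exact Or.inr (h3 _ _ e3)
          obtain ⟨v, hv, e3, e4⟩ : ∃ v, v ≤ e ∧ RC Q1 b v ∧ RC Q v y := by
            rcases g2 with g2 | g2
            · exact ⟨b, pb, Or.inl rfl, Or.inl g2⟩
            · rcases h8 b y g2 with h | ⟨u', v', hu', hv', e1', e2', e3'⟩
              · exact ⟨b, pb, Or.inl rfl, Or.inr h⟩
              · refine ⟨v', hv', h1.rr ?_ e2', e3'⟩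
                rcases e1' with e1' | e1'
                · exact Or.inl e1'
                · exact Or.inr (h3 _ _ e1')
          exact ⟨u, v, hu, hv, e1, Or.inr (Or.inr ⟨e2, e3⟩), e4⟩

end Pool.Agent.Helper617.EX
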