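import Pool.Agent.Helper617.EX.Inf

/-!
The recursion step in the construction of a linear extension.
-/

namespace Pool.Agent.Helper617.EX

/-- stages of the construction -/
structure Stt where
  e : ℕ
  j : ℕ
  Q : Rl
  ρ : ℕ → Ordinal.{0}

/-- correct stages -/
structure Ok (col : ℕ → ℕ) (T : List ℕ) (D : ℕ → Finset ℕ) (Λs : ℕ → List (Rl × ℕ)) (P : Rl)
    (t : ℕ) (s : Stt) : Prop where
  spo : SPO s.Q
  ext : ∀ x y, P x y → s.Q x y
  tot : ∀ x y, x ≤ s.e → y ≤ s.e → x ≠ y → s.Q x y ∨ s.Q y x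
  str : ∀ x y, s.Q x y → P x y ∨ ∃ u v, u ≤ s.e ∧ v ≤ s.e ∧ RC P x u ∧ RC s.Q u v ∧ RC P v y
  sr : SR s.Q (PP col T D Λs P t s.j) s.ρ
  old : ∀ x ∈ D (s.j + 1), s.e < x

/-- linear extensions exist -/
theorem exists_sto {P : Rl} (hP : SPO P) : ∃ p : Rl, STO p ∧ ∀ x y, P x y → p x y := by
  have : IsPartialOrder ℕ (RC P) := {
    refl := fun x => Or.inl rfl
    trans := fun x y z h1 h2 => hP.rr h1 h2
    antisymm := fun x y h1 h2 => by
      rcases h1 with h1 | h1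
      · exact h1
      · rcases h2 with h2 | h2
        · exact h2.symm
        · exact absurd h2 (fun h2 => hP.asymm h1 h2) }
  obtain ⟨s, hs, hle⟩ := extend_partialOrder (RC P)
  refine ⟨fun x y => s x y ∧ x ≠ y, ⟨⟨?_, ?_⟩, ?_⟩, ?_⟩
  · rintro x ⟨_, h⟩
    exact h rfl
  · rintro x y z ⟨h1, h2⟩ ⟨h3, h4⟩
    refine ⟨_root_.trans h1 h3, ?_⟩
    rintro rfl
    exact h2 (antisymm h1 h3)
  · intro x y hxy
    rcases Std.Total.total (r := s) x y with h | h
    · exact Or.inl ⟨h, hxy⟩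
    · exact Or.inr ⟨h, hxy.symm⟩
  · intro x y h
    refine ⟨hle x y (Or.inr h), ?_⟩
    rintro rfl
    exact hP.irr _ h

variable {col : ℕ → ℕ} {c : ℕ} {T : List ℕ} {Λ : List (Rl × ℕ)} {D : ℕ → Finset ℕ}
  {Λs : ℕ → List (Rl × ℕ)} {P : Rl} {t : ℕ}

theorem PP.anti {j j' : ℕ} (hj : j ≤ j') {p q : ℕ} (h : PP col T D Λs P t j' p q) :
    PP col T D Λs P t j p q := by
  obtain ⟨i, hi, h⟩ := h
  exact ⟨i, lt_of_le_of_lt hj hi, h⟩

theorem SR.anti {Q R R' : Rl} {ρ : ℕ → Ordinal.{0}} (h : SR Q R ρ) (hR : ∀ p q, R' p q → R p q) :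
    SR Q R' ρ := ⟨h.mono, fun x y p q e1 e2 e3 => h.strict x y p q (hR _ _ e1) e2 e3⟩

theorem step (h : IS col c T Λ D Λs) (hP : SPO P) {n0 : ℕ}
    (hno : NoC col c T Λ D n0 P t) (ht : t ≤ T.length) (s : Stt) (hs : Ok col T D Λs P t s) :
    ∃ (s' : Stt) (Y : Finset ℕ) (q p : Rl) (Λ2 : List (Rl × ℕ)) (ty : ℕ → Prop),
      Ok col T D Λs P t s' ∧ s.e < s'.e ∧ s.j < s'.j ∧ Y ⊆ D s'.j ∧
      (∀ y ∈ Y, s.e < y ∧ y ≤ s'.e) ∧ (∀ x y, s.Q x y → s'.Q x y) ∧
      (∀ u ≤ s.e, s'.ρ u ≤ s.ρ u) ∧ L col (3 * (s.j + 1)) T Λ2 Y ∧ (∀ e ∈ Λs s'.j, e ∈ Λ2) ∧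
      (∀ i, t = i + 1 → (q, i) ∈ Λ2) ∧ (t < T.length → (p, t) ∈ Λ2) ∧ (t = 0 → q = p) ∧
      (∀ S : Set ℕ, (∀ x ∈ S, ∀ y ∈ S, x < y → y ≤ s'.e → s'.Q y x) →
        ∃ H : Finset ℕ, (∀ y ∈ Y, H.card ≤ y) ∧ ∀ D' ⊆ Y, D'.Nonempty →
          (∀ h ∈ H, (∀ y ∈ D', h < y) ∨ (∀ y ∈ D', y < h)) →
          ((∀ x ∈ S, x ∈ Hull D' → ty x) ∧ Desc q (S ∩ Hull D')) ∨
          ((∀ x ∈ S, x ∈ Hull D' → ¬ ty x) ∧ Desc p (S ∩ Hull D'))) ∧
      (∀ x ∈ Hull Y, ∀ u ≤ s.e, s'.Q x u → (ty x ∧ 0 < t) ∨ s'.ρ x < s.ρ u) := by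
  classical
  obtain ⟨e, j, Q, ρ⟩ := s
  obtain ⟨hspo, hext, htot, hstr, hsr, hold⟩ := hs
  simp only at hspo hext htot hstr hsr hold
  let N0 : ℕ := (Set.range (key Q e ρ)).ncard
  let k : ℕ := j + N0 + e + n0 + 3 * (j + 1) + 10
  -- the block used is `k + 2`
  have hk1 : N0 ≤ k := by omega
  have hk2 : e < k := by omega
  have hk3 : n0 ≤ k := by omega
  have hk4 : 3 * (j + 1) ≤ k := by omega
  have hk5 : j < k := by omega
  have hk6 : 2 ≤ k := by omega
  have hge : ∀ x ∈ D (k + 2), k + 2 ≤ x := h.ge (k + 2)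
  have hQρ : ∀ x y, Q x y → ρ x ≤ ρ y := hsr.mono
  -- Step A
  obtain ⟨q, D1, Λq, hqs, hD1, hL1, hΛq1, hΛq2, hqe⟩ : ∃ (q : Rl) (D1 : Finset ℕ)
      (Λq : List (Rl × ℕ)), STO q ∧ D1 ⊆ D (k + 2) ∧ L col (k + 1) T Λq D1 ∧
      (∀ e ∈ Λs (k + 2), e ∈ Λq) ∧ (∀ i, t = i + 1 → (q, i) ∈ Λq) ∧
      (0 < t → ∀ x y, (∃ b ∈ D1, x ≤ b) → (∃ b ∈ D1, y ≤ b) → P x y → e < x → e < y →
        SF Q e ρ x y → Ty e ρ x → q x y) := by
    rcases Nat.eq_zero_or_pos t with ht0 | ht0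
    · refine ⟨fun x y => x < y, D (k + 2), Λs (k + 2), ⟨⟨fun x => lt_irrefl x,
        fun x y z => lt_trans⟩, fun x y hxy => lt_or_gt_of_ne hxy⟩, subset_rfl,
        L_anti (h.large (k + 2)), fun _ h => h, fun i hi => by omega, fun h => by omega⟩
    · obtain ⟨i, rfl⟩ : ∃ i, t = i + 1 := ⟨t - 1, by omega⟩
      obtain ⟨c1, T1, rfl⟩ : ∃ c1 T1, T = c1 :: T1 := by
        cases T with
        | nil => simp at ht
        | cons c1 T1 => exact ⟨c1, T1, rfl⟩
      have hi : i ≤ T1.length := by simpa using ht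
      let PQ : Rl := fun x y => P x y ∧ e < x ∧ e < y ∧ SF Q e ρ x y ∧ Ty e ρ x
      have hPQ : SPO PQ := ⟨fun x h => hP.irr x h.1, fun x y z h1 h2 =>
        ⟨hP.trans _ _ _ h1.1 h2.1, h1.2.1, h2.2.2.1, h1.2.2.2.1.trans h2.2.2.2.1, h1.2.2.2.2⟩⟩
      have hLL : L col (k + 1 + 1) (c1 :: T1) (Λs (k + 2)) (D (k + 2)) := h.large (k + 2)
      obtain ⟨_, _, _, _, _, _, hMP⟩ := hLL
      rcases hMP PQ hPQ i hi with ⟨T', hT', hlen, Y, hY, hLY, C, hCd, hCb⟩ | ⟨r, hr, Y, hY, hLY, hre⟩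
      · exfalso
        -- a descending set of constant rank
        obtain ⟨c2, T2, rfl⟩ : ∃ c2 T2, T' = c2 :: T2 := by
          cases T' with
          | nil => simp at hlen
          | cons c2 T2 => exact ⟨c2, T2, rfl⟩
        obtain ⟨_, _, _, ⟨x0, hx0, Y', hY', hLY', hx0'⟩, _, _, _⟩ := hLY
        have hLY'' : L col (k - 1 + 1) (c2 :: T2) (Λs (k + 2)) Y' := by
          have : k - 1 + 1 = k := by omega
          rw [this]; exact hLY'
        obtain ⟨_, _, _, ⟨x1, hx1, Y2, hY2, hLY2, hx1'⟩, _, _, _⟩ := hLY''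
        obtain ⟨x2, hx2⟩ := L_ne hLY2
        have hFF : ∀ x y : ℕ, FF x ≤ y → x < y := by
          intro x y hxy
          unfold FF at hxy
          nlinarith
        have hx12 : x1 < x2 := hFF _ _ (hx1' x2 hx2)
        let y0 := Y'.min' ⟨x1, hx1⟩
        have hy0 : y0 ∈ Y' := Finset.min'_mem _ _
        have hy0' : ∀ z ∈ Y', y0 ≤ z := fun z hz => Finset.min'_le _ _ hz
        obtain ⟨z0, hz0, hz1, hz2⟩ := hCb x0 hx0 y0 (hY' hy0) (hFF _ _ (hx0' y0 hy0))
        let C' : Finset ℕ := (Finset.range (Y'.sup id + 1)).filter (fun z => z ∈ C ∧ z ∈ Hull Y')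
        have hC' : ∀ z, z ∈ C' ↔ z ∈ C ∧ z ∈ Hull Y' := by
          intro z
          rw [Finset.mem_filter, Finset.mem_range]
          constructor
          · exact fun h => h.2
          · intro h
            refine ⟨?_, h⟩
            obtain ⟨-, b, hb, hzb⟩ := h.2
            have := Finset.le_sup (f := id) hb
            simp only [id] at this
            omega
        obtain ⟨z3, hz3, hz4, hz5⟩ := hCb x1 (hY' hx1) x2 (hY' (hY2 hx2)) hx12
        have hC'ne : C'.Nonempty := ⟨z3, (hC' z3).mpr ⟨hz3, ⟨x1, hx1, hz4⟩, x2, hY2 hx2, hz5.le⟩⟩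
        have hG : GC col (c1 :: T1) D Λs P (i + 1) (k + 2) C' := by
          refine ⟨hC'ne, ?_, ?_, c2 :: T2, hT', hlen, Y', hY'.trans hY, ?_, ?_⟩
          · intro z hz
            exact Hull.mono (hY'.trans hY) ((hC' z).mp hz).2
          · intro x hx y hy hxy
            exact (hCd x ((hC' x).mp hx).1 y ((hC' y).mp hy).1 hxy).1
          · have : k + 2 - 2 = k := by omega
            rw [this]; exact hLY'
          · intro x hx y hy hxy
            obtain ⟨z, hz, g1, g2⟩ := hCb x (hY' hx) y (hY' hy) hxy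
            exact ⟨z, (hC' z).mpr ⟨hz, ⟨x, hx, g1⟩, y, hy, g2.le⟩, g1, g2⟩
        let p1 := C'.min' hC'ne
        let q1 := C'.max' hC'ne
        have hp1 : p1 ∈ C' := Finset.min'_mem _ _
        have hq1 : q1 ∈ C' := Finset.max'_mem _ _
        have hpair : PP col (c1 :: T1) D Λs P (i + 1) j p1 q1 :=
          ⟨k + 2, by omega, C', hG, hp1, hq1, fun z hz => ⟨Finset.min'_le _ _ hz,
            Finset.le_max' _ _ hz⟩⟩
        have hlt1 : z0 < p1 := by
          obtain ⟨⟨a, ha, hap⟩, -⟩ := ((hC' p1).mp hp1).2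
          have := hy0' a ha
          omega
        have hlt2 : z0 < q1 := by
          obtain ⟨⟨a, ha, hap⟩, -⟩ := ((hC' q1).mp hq1).2
          have := hy0' a ha
          omega
        have r1 := hCd z0 hz0 p1 ((hC' p1).mp hp1).1 hlt1
        have r2 := hCd z0 hz0 q1 ((hC' q1).mp hq1).1 hlt2
        have r3 := hsr.strict z0 q1 p1 q1 hpair (hext _ _ r1.1) (Or.inl rfl)
        have r4 := LC.eq_of_ty r2.2.2.2.1.1 r2.2.2.2.1.2.1 r2.2.2.2.2
        exact absurd r3 (by rw [r4]; exact lt_irrefl _)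
      · refine ⟨r, Y, (r, i) :: Λs (k + 2), hr, hY, hLY, fun e he => List.mem_cons_of_mem _ he, ?_,
          ?_⟩
        · intro i' hi'
          have : i' = i := by omega
          subst this
          exact List.mem_cons_self
        · intro _ x y hx hy e1 e2 e3 e4 e5
          exact hre x y hx hy ⟨e1, e2, e3, e4, e5⟩
  -- Step B
  let PB : Rl := fun x y => P x y ∧ e < x ∧ e < y ∧ SF Q e ρ x y ∧ (t ≠ 0 → ¬ Ty e ρ x)
  have hPB : SPO PB := ⟨fun x h => hP.irr x h.1, fun x y z h1 h2 =>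
    ⟨hP.trans _ _ _ h1.1 h2.1, h1.2.1, h2.2.2.1, h1.2.2.2.1.trans h2.2.2.2.1, h1.2.2.2.2⟩⟩
  obtain ⟨p, D2, Λ2, hps, hD2, hL2, hΛ1, hΛ2, hpe⟩ : ∃ (p : Rl) (D2 : Finset ℕ)
      (Λ2 : List (Rl × ℕ)), STO p ∧ D2 ⊆ D1 ∧ L col k T Λ2 D2 ∧
      (∀ e ∈ Λq, e ∈ Λ2) ∧ (t < T.length → (p, t) ∈ Λ2) ∧
      (∀ x y, (∃ b ∈ D2, x ≤ b) → (∃ b ∈ D2, y ≤ b) → PB x y → p x y) := by
    by_cases hlt : t < T.length
    · obtain ⟨c1, T1, rfl⟩ : ∃ c1 T1, T = c1 :: T1 := by
        cases T with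
        | nil => simp at hlt
        | cons c1 T1 => exact ⟨c1, T1, rfl⟩
      have hi : t ≤ T1.length := by simpa [Nat.lt_succ_iff] using hlt
      obtain ⟨_, _, _, _, _, _, hMP⟩ := hL1
      rcases hMP PB hPB t hi with ⟨T', hT', hlen, Y, hY, hLY, C, hCd, hCb⟩ | ⟨r, hr, Y, hY, hLY, hre⟩
      · exfalso
        refine hno T' (hT'.trans (List.sublist_cons_self _ _)) hlen (k + 2) Y ?_
          (L_weak (L_le hk3 hLY) (fun e he => hΛq1 e (h.sub _ e he))) C ?_ hCb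
        · intro x hx
          exact mem_U.mpr ⟨k + 2, le_rfl, hD1 (hY hx)⟩
        · intro x hx y hy hxy
          exact (hCd x hx y hy hxy).1
      · exact ⟨r, Y, (r, t) :: Λq, hr, hY, hLY, fun e he => List.mem_cons_of_mem _ he,
          fun _ => List.mem_cons_self, hre⟩
    · obtain ⟨p, hp, hpe⟩ := exists_sto hPB
      exact ⟨p, D1, Λq, hp, subset_rfl, L_anti hL1, fun _ h => h, fun h => absurd h hlt,
        fun x y _ _ h => hpe x y h⟩
  -- the order on the fibres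
  obtain ⟨q', hq's, hq't, hq'0, hq'e⟩ : ∃ q' : Rl, STO q' ∧ (∀ i, t = i + 1 → (q', i) ∈ Λ2) ∧
      (t = 0 → q' = p) ∧ (∀ x y, (∃ b ∈ D2, x ≤ b) → (∃ b ∈ D2, y ≤ b) → P x y → e < x → e < y →
        SF Q e ρ x y → Ty e ρ x → q' x y) := by
    rcases Nat.eq_zero_or_pos t with ht0 | ht0
    · refine ⟨p, hps, fun i hi => by omega, fun _ => rfl, ?_⟩
      intro x y hx hy e1 e2 e3 e4 _
      exact hpe x y hx hy ⟨e1, e2, e3, e4, fun h => absurd ht0 h⟩
    · refine ⟨q, hqs, fun i hi => hΛ1 _ (hΛq2 i hi), fun h => by omega, ?_⟩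
      rintro x y ⟨a, ha, hxa⟩ ⟨b, hb, hyb⟩ e1 e2 e3 e4 e5
      exact hqe ht0 x y ⟨a, hD2 ha, hxa⟩ ⟨b, hD2 hb, hyb⟩ e1 e2 e3 e4 e5
  have hne : D2.Nonempty := L_ne hL2
  let e' := D2.max' hne
  have he' : e' ∈ D2 := Finset.max'_mem _ _
  have hle' : ∀ y ∈ D2, y ≤ e' := fun y hy => Finset.le_max' _ _ hy
  have hD2D : D2 ⊆ D (k + 2) := hD2.trans hD1
  have hlt' : ∀ y ∈ D2, e < y := fun y hy => by have := hge y (hD2D hy); omega
  let W : Rl := WW Q e ρ q' p
  have hW : STO W := WW.sto hq's hps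
  have hWext : ∀ x y, x ≤ e' → y ≤ e' → Q x y → W x y := by
    intro x y hx hy hxy
    refine WW.ext hspo hQρ hext hstr ?_ ?_ hxy
    · intro e1 e2 e3 e4 e5
      exact hq'e x y ⟨e', he', hx⟩ ⟨e', he', hy⟩ e1 e2 e3 e4 e5
    · intro e1 e2 e3 e4 e5
      exact hpe x y ⟨e', he', hx⟩ ⟨e', he', hy⟩ ⟨e1, e2, e3, e4, fun _ => e5⟩
  have hRe : ∀ p q, PP col T D Λs P t (k + 2) p q → e' < p := by
    rintro p q ⟨i, hi, C, hC, hp, -⟩
    obtain ⟨⟨a, ha, hap⟩, -⟩ := hC.2.1 hp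
    exact (h.lt hi (hD2D he') ha).trans_le hap
  obtain ⟨Q', ρ', g1, g2, g3, g4, g5, g6, g7, g8⟩ := add_list hspo
    (fun p q h => by
      rcases PP.rc h with h | h
      · exact Or.inl h
      · exact Or.inr (hext _ _ h))
    (hsr.anti (fun p q hpq => PP.anti (show j ≤ k + 2 by omega) hpq)) hRe hW.toSPO hWext
    (fun x y _ _ hxy => (WW.lc hxy : Le (SS e ρ) (ρ x) (ρ y)))
    ((Finset.range (e' + 1) ×ˢ Finset.range (e' + 1)).filter (fun p => W p.1 p.2)).toList (by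
      intro p hp
      rw [Finset.mem_toList, Finset.mem_filter, Finset.mem_product, Finset.mem_range,
        Finset.mem_range] at hp
      exact ⟨by omega, by omega, hp.2⟩)
  have g5' : ∀ x y, x ≤ e' → y ≤ e' → W x y → Q' x y := by
    intro x y hx hy hxy
    refine g5 (x, y) ?_
    rw [Finset.mem_toList, Finset.mem_filter, Finset.mem_product, Finset.mem_range,
      Finset.mem_range]
    exact ⟨⟨Nat.lt_succ_of_le hx, Nat.lt_succ_of_le hy⟩, hxy⟩
  refine ⟨⟨e', k + 2, Q', ρ'⟩, D2, q', p, Λ2, Ty e ρ, ⟨g1, fun x y hxy => g3 _ _ (hext _ _ hxy),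
    ?_, ?_, g2, ?_⟩, hlt' e' he', show j < k + 2 by omega, hD2D, fun y hy => ⟨hlt' y hy, hle' y hy⟩,
    g3, ?_, L_le hk4 hL2, fun e he => hΛ1 e (hΛq1 e he), hq't, hΛ2, hq'0, ?_, ?_⟩
  · intro x y hx hy hxy
    rcases hW.tot x y hxy with h1 | h1
    · exact Or.inl (g5' x y hx hy h1)
    · exact Or.inr (g5' y x hy hx h1)
  · intro x y hxy
    have hee : e ≤ e' := (hlt' e' he').le
    rcases g8 x y hxy with h1 | ⟨u, v, hu, hv, e1, e2, e3⟩
    · rcases hstr x y h1 with h2 | ⟨u, v, hu, hv, f1, f2, f3⟩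
      · exact Or.inl h2
      · refine Or.inr ⟨u, v, hu.trans hee, hv.trans hee, f1, ?_, f3⟩
        rcases f2 with f2 | f2
        · exact Or.inl f2
        · exact Or.inr (g3 _ _ f2)
    · right
      obtain ⟨u', hu', f1, f2⟩ : ∃ u', u' ≤ e' ∧ RC P x u' ∧ RC Q' u' u := by
        rcases e1 with e1 | e1
        · exact ⟨u, hu, Or.inl e1, Or.inl rfl⟩
        · rcases hstr x u e1 with h2 | ⟨u1, v1, hu1, hv1, f1, f2, f3⟩
          · exact ⟨u, hu, Or.inr h2, Or.inl rfl⟩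
          · refine ⟨u1, hu1.trans hee, f1, ?_⟩
            have a1 : RC Q' u1 v1 := by
              rcases f2 with f2 | f2
              · exact Or.inl f2
              · exact Or.inr (g3 _ _ f2)
            have a2 : RC Q' v1 u := by
              rcases f3 with f3 | f3
              · exact Or.inl f3
              · exact Or.inr (g3 _ _ (hext _ _ f3))
            exact g1.rr a1 a2
      obtain ⟨v', hv', f3, f4⟩ : ∃ v', v' ≤ e' ∧ RC Q' v v' ∧ RC P v' y := by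
        rcases e3 with e3 | e3
        · exact ⟨v, hv, Or.inl rfl, Or.inl e3⟩
        · rcases hstr v y e3 with h2 | ⟨u1, v1, hu1, hv1, f1, f2, f3⟩
          · exact ⟨v, hv, Or.inl rfl, Or.inr h2⟩
          · refine ⟨v1, hv1.trans hee, ?_, f3⟩
            have a1 : RC Q' u1 v1 := by
              rcases f2 with f2 | f2
              · exact Or.inl f2
              · exact Or.inr (g3 _ _ f2)
            have a2 : RC Q' v u1 := by
              rcases f1 with f1 | f1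
              · exact Or.inl f1
              · exact Or.inr (g3 _ _ (hext _ _ f1))
            exact g1.rr a2 a1
      exact ⟨u', v', hu', hv', f1, g1.rr f2 (g1.rr e2 f3), f4⟩
  · intro x hx
    exact h.step (k + 2) e' (hD2D he') x hx
  · intro u hu
    exact (g7 u).le ⟨u, hu, rfl⟩
  · intro S hS
    obtain ⟨H, hH, h2⟩ := pieces (Q := Q) (e := e) (ρ := ρ) (q := q') (p := p) (e' := e') (S := S)
      (fun x hx y hy hxy hye => g4 y x hye (hxy.le.trans hye) (hS x hx y hy hxy hye))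
    refine ⟨H, fun y hy => ?_, fun D' hD' hne' hu => h2 D' hne'
      (fun y hy => ⟨hlt' y (hD' hy), hle' y (hD' hy)⟩) hu⟩
    have := hge y (hD2D hy)
    exact hH.trans (by omega)
  · intro x hx u hu hxu
    simp only at hxu hu ⊢
    obtain ⟨⟨a, ha, hax⟩, b, hb, hxb⟩ := hx
    have hex : e < x := (hlt' a ha).trans_le hax
    have hxe : x ≤ e' := hxb.trans (hle' b hb)
    have hue : u ≤ e' := (hu.trans hex.le).trans hxe
    have hw := g4 x u hxe hue hxu
    have huS : ρ u ∈ SS e ρ := ⟨u, hu, rfl⟩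
    rcases hw with hw | hw
    · right
      refine Le.lt (g7 x) huS ?_
      by_contra hle
      exact hw.2 (Le.of_le _ (not_lt.mp hle))
    · have hty : Ty e ρ x := (hw.1.ty hw.2.1).mpr huS
      have heq : ρ x = ρ u := LC.eq_of_ty hw.1 hw.2.1 hty
      rcases Nat.eq_zero_or_pos t with ht0 | ht0
      · exfalso
        have hcard : (Ax Q e ρ x).card < (Ax Q e ρ u).card := by
          have h3 : al Q e ρ x ≤ al Q e ρ u := by
            rcases hw.2.2 with h4 | h4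
            · exact h4.le
            · exact h4.1.le
          unfold al at h3
          rw [if_neg (not_le.mpr hex), if_pos hu] at h3
          omega
        obtain ⟨v, hv, hv'⟩ := Finset.exists_mem_notMem_of_card_lt_card hcard
        rw [mem_Ax] at hv hv'
        have hxv : Q x v := by
          by_contra hcon
          exact hv' ⟨hv.1, by rw [heq]; exact hv.2.1, hcon⟩
        have hpair : PP col T D Λs P t j x x := by
          obtain ⟨d, hd⟩ := h.ne (k + 2)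
          refine ⟨k + 2, by omega, {x}, ⟨Finset.singleton_nonempty x, ?_, ?_, [], List.nil_sublist _,
            by simpa using ht0.symm, {d}, Finset.singleton_subset_iff.mpr hd,
            (L_nil _ _ _).mpr (Finset.singleton_nonempty d), ?_⟩, Finset.mem_singleton_self x,
            Finset.mem_singleton_self x, ?_⟩
          · intro z hz
            rw [Finset.coe_singleton, Set.mem_singleton_iff] at hz
            subst hz
            exact ⟨⟨a, hD2D ha, hax⟩, b, hD2D hb, hxb⟩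
          · intro y hy z hz hyz
            rw [Finset.coe_singleton, Set.mem_singleton_iff] at hy hz
            omega
          · intro y hy z hz hyz
            rw [Finset.mem_singleton] at hy hz
            omega
          · intro z hz
            rw [Finset.mem_singleton] at hz
            omega
        have h5 := hsr.strict v x x x hpair hxv (Or.inl rfl)
        rw [heq] at h5
        exact absurd hv.2.1 (not_le.mpr h5)
      · exact Or.inl ⟨hty, ht0⟩

end Pool.Agent.Helper617.EX
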